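import Pool.Agent.LqLow.Defs

/-!
Package R7 of the lower half of MP_845cb7_nt: words give leaves of the pruned tree.
-/

open Finset

namespace Pool.Agent.LqLow

open Pool.Agent.LqFlat

lemma cz_nonneg (k : ℕ) : ∀ a : ℤ, 0 ≤ cz k a := by
  induction k with
  | zero =>
    intro a
    unfold cz
    split_ifs <;> norm_num
  | succ k ih =>
    intro a
    rw [cz]
    have h1 := ih (2 * a)
    have h2 := ih ((2 * a - 1) / 3)
    split_ifs <;> linarith

/-- all the cheapest first exponents at once -/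
lemma cz_first (k b : ℕ) : ∀ z : ℤ,
    ∑ j ∈ range b, (if (3 : ℤ) ∣ 2 ^ (j + 1) * z - 1 then
      cz (b - (j + 1) + k) ((2 ^ (j + 1) * z - 1) / 3) else 0) ≤ cz (b + k) z := by
  induction b with
  | zero =>
    intro z
    rw [Finset.range_zero, Finset.sum_empty]
    exact cz_nonneg _ _
  | succ b ih =>
    intro z
    rw [Finset.sum_range_succ']
    have e0 : b + 1 + k = (b + k) + 1 := by ring
    rw [e0, cz]
    have h := ih (2 * z)
    have h1 : ∑ j ∈ range b, (if (3 : ℤ) ∣ 2 ^ (j + 1 + 1) * z - 1 then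
        cz (b + 1 - (j + 1 + 1) + k) ((2 ^ (j + 1 + 1) * z - 1) / 3) else 0)
        = ∑ j ∈ range b, (if (3 : ℤ) ∣ 2 ^ (j + 1) * (2 * z) - 1 then
          cz (b - (j + 1) + k) ((2 ^ (j + 1) * (2 * z) - 1) / 3) else 0) := by
      apply Finset.sum_congr rfl
      intro j _
      have e1 : (2 : ℤ) ^ (j + 1 + 1) * z = 2 ^ (j + 1) * (2 * z) := by ring
      have e2 : b + 1 - (j + 1 + 1) = b - (j + 1) := by omega
      rw [e1, e2]
    rw [h1]
    have h2 : (if (3 : ℤ) ∣ 2 ^ (0 + 1) * z - 1 then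
        cz (b + 1 - (0 + 1) + k) ((2 ^ (0 + 1) * z - 1) / 3) else 0)
        = if z % 3 = 2 then cz (b + k) ((2 * z - 1) / 3) else 0 := by
      have e1 : (2 : ℤ) ^ (0 + 1) = 2 := by norm_num
      have e2 : b + 1 - (0 + 1) = b := by omega
      rw [e1, e2]
      by_cases hz : z % 3 = 2
      · rw [if_pos hz, if_pos (by omega)]
      · rw [if_neg hz, if_neg (by omega)]
    rw [h2]
    linarith

lemma trm_succ {n b e S : ℕ} (he : e < b) (F : ℤ → ℝ) (z : ℤ) :
    trm (n + 1) b (2 ^ e + 3 * S) F z = if (3 : ℤ) ∣ 2 ^ (b - e) * z - 1 then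
      trm n e S F ((2 ^ (b - e) * z - 1) / 3) else 0 := by
  have e2 : (2 : ℤ) ^ b = 2 ^ e * 2 ^ (b - e) := by
    rw [← pow_add]; congr 1; omega
  have hexp : (2 : ℤ) ^ b * z - ((2 ^ e + 3 * S : ℕ) : ℤ)
      = 2 ^ e * (2 ^ (b - e) * z - 1) - 3 * S := by
    push_cast
    rw [e2]; ring
  by_cases hd : (3 : ℤ) ∣ 2 ^ (b - e) * z - 1
  · rw [if_pos hd]
    obtain ⟨y, hy⟩ := hd
    unfold trm
    rw [hexp, hy, Int.mul_ediv_cancel_left _ (by norm_num)]
    have h3 : (2 : ℤ) ^ e * (3 * y) - 3 * S = 3 * (2 ^ e * y - S) := by ring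
    rw [h3, pow_succ' (3 : ℤ) n]
    by_cases hd2 : (3 : ℤ) ^ n ∣ 2 ^ e * y - S
    · rw [if_pos hd2, if_pos (mul_dvd_mul_left _ hd2),
        Int.mul_ediv_mul_of_pos _ _ (by norm_num)]
    · rw [if_neg hd2, if_neg]
      intro h
      exact hd2 (Int.dvd_of_mul_dvd_mul_left (by norm_num) h)
  · rw [if_neg hd]
    unfold trm
    rw [if_neg]
    intro h
    apply hd
    rw [hexp, pow_succ] at h
    have h5 : (3 : ℤ) ∣ 2 ^ e * (2 ^ (b - e) * z - 1) - 3 * S := dvd_of_mul_left_dvd h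
    have h6 : (3 : ℤ) ∣ 3 * S := dvd_mul_right _ _
    have h7 : (3 : ℤ) ∣ 2 ^ e * (2 ^ (b - e) * z - 1) := by
      have := dvd_add h5 h6
      simpa using this
    have h8 : IsCoprime (3 : ℤ) (2 ^ e) := by
      apply IsCoprime.pow_right
      norm_num
    exact h8.dvd_of_dvd_mul_left h7

lemma op_succ_le {n b : ℕ} {F : ℤ → ℝ} (hF : ∀ x, 0 ≤ F x) (z : ℤ) :
    op (n + 1) b F z ≤ ∑ e ∈ range b, (if (3 : ℤ) ∣ 2 ^ (b - e) * z - 1 then
      op n e F ((2 ^ (b - e) * z - 1) / 3) else 0) := by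
  classical
  set I : Finset ((_ : ℕ) × ℕ) := (range b).sigma fun e => W n e with hI
  set g : ((_ : ℕ) × ℕ) → ℕ := fun i => 2 ^ i.1 + 3 * i.2 with hg
  have h1 : W (n + 1) b ⊆ I.image g := by
    intro S hS
    obtain ⟨e, he, S', hS', rfl⟩ := mem_W_succ.1 hS
    apply Finset.mem_image.2
    refine ⟨⟨e, S'⟩, ?_, rfl⟩
    rw [hI]
    simp only [Finset.mem_sigma, Finset.mem_range]
    exact ⟨he, hS'⟩
  unfold op
  refine (Finset.sum_le_sum_of_subset_of_nonneg h1 fun S _ _ => trm_nonneg hF z).trans ?_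
  refine (Finset.sum_image_le_of_nonneg (g := g) (f := fun S => trm (n + 1) b S F z)
    fun S _ => trm_nonneg hF z).trans ?_
  rw [hI, Finset.sum_sigma]
  apply le_of_eq
  apply Finset.sum_congr rfl
  intro e he
  have he' := Finset.mem_range.1 he
  simp only [hg]
  split_ifs with hd
  · apply Finset.sum_congr rfl
    intro S _
    rw [trm_succ he', if_pos hd]
  · apply Finset.sum_eq_zero
    intro S _
    rw [trm_succ he', if_neg hd]

lemma op_cz_le (n : ℕ) : ∀ (b k : ℕ) (z : ℤ), op n b (cz k) z ≤ cz (b + k) z := by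
  induction n with
  | zero =>
    intro b k z
    unfold op
    rcases Nat.eq_zero_or_pos b with rfl | hb
    · have : W 0 0 = {0} := by simp [W]
      rw [this, Finset.sum_singleton]
      unfold trm
      simp
    · have : W 0 b = ∅ := by
        unfold W
        rw [if_neg (by omega)]
      rw [this, Finset.sum_empty]
      exact cz_nonneg _ _
  | succ n ih =>
    intro b k z
    refine (op_succ_le (cz_nonneg k) z).trans ?_
    refine le_trans ?_ (cz_first k b z)
    rw [← Finset.sum_range_reflect]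
    apply Finset.sum_le_sum
    intro j hj
    have hj' := Finset.mem_range.1 hj
    have e1 : b - (b - 1 - j) = j + 1 := by omega
    have e2 : b - 1 - j = b - (j + 1) := by omega
    rw [e1, e2]
    split_ifs
    · exact ih _ _ _
    · exact le_rfl

theorem cz_mono {k n : ℕ} (h : n ≤ k) (a : ℤ) : cz n (2 ^ (k - n) * a) ≤ cz k a := by
  obtain ⟨d, rfl⟩ := Nat.exists_eq_add_of_le h
  have e : n + d - n = d := by omega
  rw [e]
  clear h e
  induction d generalizing a with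
  | zero => simp
  | succ d ih =>
    have e1 : n + (d + 1) = (n + d) + 1 := by ring
    have e2 : (2 : ℤ) ^ (d + 1) * a = 2 ^ d * (2 * a) := by ring
    rw [e1, cz, e2]
    have h1 := ih (2 * a)
    have h2 := cz_nonneg (n + d) ((2 * a - 1) / 3)
    split_ifs <;> linarith

/-- the set of the frozen statement -/
theorem cz_frozen (k a : ℕ) : ((Set.ncard {m : ℕ |
      (fun n : ℕ => if n % 2 = 0 then n / 2 else (3 * n + 1) / 2)^[k] m = a ∧
      ∀ j : ℕ, j ≤ k →
        (fun n : ℕ => if n % 2 = 0 then n / 2 else (3 * n + 1) / 2)^[j] m % 3 ≠ 0} : ℕ) : ℝ)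
    = cz k a := by
  have hf : (fun n : ℕ => if n % 2 = 0 then n / 2 else (3 * n + 1) / 2) = tm := rfl
  rw [hf, ← cz_ncard]
  congr 2
  ext m
  simp only [Set.mem_ofPred_eq]
  constructor
  · rintro ⟨h1, h2⟩
    exact ⟨h1, h2 0 (Nat.zero_le _)⟩
  · rintro ⟨h1, h2⟩
    refine ⟨h1, fun j _ => ?_⟩
    clear h1
    induction j with
    | zero => exact h2
    | succ j ih =>
      rw [Function.iterate_succ_apply']
      generalize tm^[j] m = x at ih ⊢
      unfold tm
      split_ifs <;> omega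

lemma A_succ_le (s : Sys) (n : ℕ) (z : ℤ) :
    s.A (n + 1) z ≤ ∑ S ∈ s.Ls, trm s.n0 s.B S (s.A n) z := by
  classical
  have hA : ∀ y, 0 ≤ s.A n y := fun y => Nat.cast_nonneg _
  set J : Finset ℕ := s.Ls.filter fun S : ℕ => (3 : ℤ) ^ s.n0 ∣ 2 ^ s.B * z - S with hJ
  have h1 : s.Wn (n + 1) z ⊆ J.biUnion fun S => (s.Wn n ((2 ^ s.B * z - S) / 3 ^ s.n0)).image
      fun T => 2 ^ (s.B * n) * S + 3 ^ s.n0 * T := by
    intro X hX
    unfold Sys.Wn at hX
    obtain ⟨hC, hd, hnd⟩ := Finset.mem_filter.1 hX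
    unfold Sys.C at hC
    rw [Cw] at hC
    obtain ⟨⟨S, T⟩, hST, rfl⟩ := Finset.mem_image.1 hC
    obtain ⟨hS, hT⟩ := Finset.mem_product.1 hST
    simp only at hS hT hd hnd
    have e1 : s.B * (n + 1) = s.B * n + s.B := by ring
    have e2 : s.n0 * (n + 1) = s.n0 + s.n0 * n := by ring
    have e3 : (2 : ℤ) ^ (s.B * (n + 1)) * z - ((2 ^ (s.B * n) * S + 3 ^ s.n0 * T : ℕ) : ℤ)
        = 2 ^ (s.B * n) * (2 ^ s.B * z - S) - 3 ^ s.n0 * T := by
      rw [e1, pow_add]
      push_cast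
      ring
    have hd0 : (3 : ℤ) ^ s.n0 ∣ 2 ^ s.B * z - S := by
      rw [e3, e2, pow_add] at hd
      have h5 := dvd_of_mul_right_dvd hd
      have h6 : (3 : ℤ) ^ s.n0 ∣ 3 ^ s.n0 * T := dvd_mul_right _ _
      have h7 : (3 : ℤ) ^ s.n0 ∣ 2 ^ (s.B * n) * (2 ^ s.B * z - S) := by
        have := dvd_add h5 h6
        simpa using this
      have h8 : IsCoprime ((3 : ℤ) ^ s.n0) (2 ^ (s.B * n)) := by
        apply IsCoprime.pow
        norm_num
      exact h8.dvd_of_dvd_mul_left h7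
    obtain ⟨y, hy⟩ := hd0
    have e4 : (2 ^ s.B * z - (S : ℤ)) / 3 ^ s.n0 = y := by
      rw [hy, Int.mul_ediv_cancel_left _ (by positivity)]
    have e5 : (2 : ℤ) ^ (s.B * (n + 1)) * z - ((2 ^ (s.B * n) * S + 3 ^ s.n0 * T : ℕ) : ℤ)
        = 3 ^ s.n0 * (2 ^ (s.B * n) * y - T) := by
      rw [e3, hy]; ring
    rw [Finset.mem_biUnion]
    refine ⟨S, Finset.mem_filter.2 ⟨hS, ⟨y, hy⟩⟩, Finset.mem_image.2 ⟨T, ?_, rfl⟩⟩
    rw [e4]
    refine Finset.mem_filter.2 ⟨hT, ?_, ?_⟩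
    · rw [e5, e2, pow_add] at hd
      exact Int.dvd_of_mul_dvd_mul_left (by positivity) hd
    · have e6 : s.nd n T y = s.nd (n + 1) (2 ^ (s.B * n) * S + 3 ^ s.n0 * T) z := by
        unfold Sys.nd
        rw [e5, e2, pow_add, Int.mul_ediv_mul_of_pos _ _ (by positivity)]
      rw [e6]
      exact hnd
  have h2 : #(s.Wn (n + 1) z) ≤ ∑ S ∈ J, #(s.Wn n ((2 ^ s.B * z - S) / 3 ^ s.n0)) :=
    (Finset.card_le_card h1).trans
      (card_biUnion_le.trans (Finset.sum_le_sum fun S _ => Finset.card_image_le))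
  have h3 : s.A (n + 1) z ≤ ∑ S ∈ J, s.A n ((2 ^ s.B * z - S) / 3 ^ s.n0) := by
    unfold Sys.A
    exact_mod_cast h2
  refine h3.trans (le_of_eq ?_)
  rw [hJ, Finset.sum_filter]
  rfl

theorem A_le_cz (s : Sys) (hs : s.Ls = W s.n0 s.B) (n : ℕ) (z : ℤ) :
    s.A n z ≤ cz (s.B * n) z := by
  induction n generalizing z with
  | zero =>
    have h1 : s.A 0 z ≤ if z % 3 = 0 then 0 else 1 := by
      unfold Sys.A Sys.Wn Sys.C
      rw [Cw]
      split_ifs with hz
      · have : (({0} : Finset ℕ).filter (s.Hit 0 z)) = ∅ := by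
          rw [Finset.filter_eq_empty_iff]
          intro T hT hH
          rw [Finset.mem_singleton] at hT
          subst hT
          apply hH.2
          unfold Sys.nd
          simpa using hz
        rw [this]
        simp
      · have : #((({0} : Finset ℕ).filter (s.Hit 0 z))) ≤ 1 := by
          refine (Finset.card_filter_le _ _).trans ?_
          simp
        exact_mod_cast this
    rw [Nat.mul_zero, cz]
    exact h1
  | succ n ih =>
    refine (A_succ_le s n z).trans ?_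
    have h1 : ∑ S ∈ s.Ls, trm s.n0 s.B S (s.A n) z
        ≤ op s.n0 s.B (cz (s.B * n)) z := by
      unfold op
      rw [hs]
      exact Finset.sum_le_sum fun S _ => trm_mono ih z
    refine h1.trans ((op_cz_le _ _ _ _).trans (le_of_eq ?_))
    congr 1
    ring

end Pool.Agent.LqLow
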