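import Pool.Agent.LqLow.Defs

open Finset

namespace Pool.Agent.LqLow

open Pool.Agent.LqFlat

namespace Sys

variable (s : Sys)

lemma C_zero : s.C 0 = {0} := rfl

lemma mem_C_succ {n T : ℕ} : T ∈ s.C (n + 1) ↔
    ∃ S ∈ s.Ls, ∃ T' ∈ s.C n, 2 ^ (s.B * n) * S + 3 ^ s.n0 * T' = T := by
  unfold C
  rw [Cw]
  simp only [Finset.mem_image, Finset.mem_product, Prod.exists]
  constructor
  · rintro ⟨a, b, ⟨h1, h2⟩, h3⟩
    exact ⟨a, h1, b, h2, h3⟩
  · rintro ⟨a, h1, b, h2, h3⟩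
    exact ⟨a, b, ⟨h1, h2⟩, h3⟩

lemma sum_C_succ (n : ℕ) (F : ℕ → ℝ) : ∑ T ∈ s.C (n + 1), F T
    = ∑ S ∈ s.Ls, ∑ T ∈ s.C n, F (2 ^ (s.B * n) * S + 3 ^ s.n0 * T) := by
  have h : s.C (n + 1) = (s.Ls ×ˢ s.C n).image fun p => 2 ^ (s.B * n) * p.1 + 3 ^ s.n0 * p.2 := rfl
  rw [h, Finset.sum_image, Finset.sum_product]
  rintro ⟨a, b⟩ hab ⟨a', b'⟩ hab' h
  simp only [Finset.mem_coe, Finset.mem_product] at hab hab' h
  obtain ⟨h1, h2⟩ := s.uniq n a hab.1 b hab.2 a' hab'.1 b' hab'.2 h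
  rw [h1, h2]

theorem sum_C_add (n m : ℕ) (F : ℕ → ℝ) : ∑ T ∈ s.C (n + m), F T
    = ∑ T ∈ s.C n, ∑ T' ∈ s.C m, F (2 ^ (s.B * m) * T + 3 ^ (s.n0 * n) * T') := by
  induction n generalizing F with
  | zero => simp [C_zero]
  | succ n ih =>
    rw [Nat.add_right_comm, sum_C_succ, sum_C_succ]
    apply Finset.sum_congr rfl
    intro S _
    rw [ih]
    apply Finset.sum_congr rfl
    intro T _
    apply Finset.sum_congr rfl
    intro T' _
    congr 1
    have e1 : s.B * (n + m) = s.B * n + s.B * m := by ring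
    have e2 : s.n0 * (n + 1) = s.n0 * n + s.n0 := by ring
    rw [e1, e2, pow_add, pow_add]
    ring

theorem C_lt {n T : ℕ} (h : T ∈ s.C n) : T < 3 ^ (s.n0 * n) * 2 ^ (s.B * n) := by
  induction n generalizing T with
  | zero =>
    rw [C_zero, Finset.mem_singleton] at h
    rw [h]; simp
  | succ n ih =>
    obtain ⟨S, hS, T', hT', rfl⟩ := s.mem_C_succ.1 h
    have h1 := s.Llt S hS
    have h2 := ih hT'
    rw [Nat.mul_succ, Nat.mul_succ, pow_add, pow_add]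
    set X := 3 ^ (s.n0 * n) with hX
    set Z := 2 ^ (s.B * n) with hZ
    set P := 3 ^ s.n0 with hP
    set Y := 2 ^ s.B with hY
    have hX0 : 1 ≤ X := Nat.one_le_pow _ _ (by norm_num)
    have hZ0 : 1 ≤ Z := Nat.one_le_pow _ _ (by norm_num)
    have hP0 : 1 ≤ P := Nat.one_le_pow _ _ (by norm_num)
    have hY0 : 1 ≤ Y := Nat.one_le_pow _ _ (by norm_num)
    have h3 : Z * (S + 1) ≤ Z * (P * Y) := Nat.mul_le_mul_left _ h1
    have h4 : P * (T' + 1) ≤ P * (X * Z) := Nat.mul_le_mul_left _ h2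
    rcases Nat.eq_zero_or_pos n with rfl | hn
    · have eX : X = 1 := by rw [hX]; simp
      have eZ : Z = 1 := by rw [hZ]; simp
      rw [eX, eZ] at h2 h4
      rw [eZ] at h3
      rw [eX, eZ]
      have : T' = 0 := by omega
      rw [this]
      simp only [one_mul] at h3 ⊢
      omega
    · rcases Nat.eq_zero_or_pos s.B with hB | hB
      · have eY : Y = 1 := by rw [hY, hB]; simp
        have eZ : Z = 1 := by rw [hZ, hB]; simp
        rw [eZ] at h4 h3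
        rw [eY] at h3
        rw [eY, eZ]
        simp only [one_mul, mul_one] at *
        nlinarith
      · have hX2 : 2 ≤ X := by
          rw [hX]
          have h5 : 1 ≤ s.n0 * n := Nat.mul_pos s.n0pos hn
          calc 2 ≤ 3 ^ 1 := by norm_num
            _ ≤ _ := Nat.pow_le_pow_right (by norm_num) h5
        have hY2 : 2 ≤ Y := by
          rw [hY]
          calc 2 = 2 ^ 1 := by norm_num
            _ ≤ _ := Nat.pow_le_pow_right (by norm_num) hB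
        obtain ⟨x, hx⟩ : ∃ x, X = x + 2 := ⟨X - 2, by omega⟩
        obtain ⟨y, hy⟩ : ∃ y, Y = y + 2 := ⟨Y - 2, by omega⟩
        have h6 : P * (X * Z) + Z * (P * Y) ≤ X * P * (Z * Y) := by
          have : X + Y ≤ X * Y := by rw [hx, hy]; nlinarith
          calc P * (X * Z) + Z * (P * Y) = (P * Z) * (X + Y) := by ring
            _ ≤ (P * Z) * (X * Y) := Nat.mul_le_mul_left _ this
            _ = _ := by ring
        nlinarith

lemma C_mod {n T : ℕ} (h : T ∈ s.C (n + 1)) : T % 3 ≠ 0 := by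
  obtain ⟨S, hS, T', hT', rfl⟩ := s.mem_C_succ.1 h
  have h1 := s.L3 S hS
  have h2 : 3 ∣ 3 ^ s.n0 * T' := Dvd.dvd.mul_right (dvd_pow_self 3 (by have := s.n0pos; omega)) _
  intro h3
  have h4 : 3 ∣ 2 ^ (s.B * n) * S := (Nat.dvd_add_left h2).1 (Nat.dvd_of_mod_eq_zero h3)
  have h5 : Nat.Coprime 3 (2 ^ (s.B * n)) := Nat.Coprime.pow_right _ (by norm_num)
  have h6 := h5.dvd_of_dvd_mul_left h4
  omega

theorem nd_shift {n T : ℕ} {z : ℤ} (t : ℤ) :
    s.nd n T (z + 3 ^ (s.n0 * n) * t) = s.nd n T z + 2 ^ (s.B * n) * t := by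
  unfold nd
  have e : (2 : ℤ) ^ (s.B * n) * (z + 3 ^ (s.n0 * n) * t) - T
      = (2 ^ (s.B * n) * z - T) + 3 ^ (s.n0 * n) * (2 ^ (s.B * n) * t) := by ring
  rw [e, Int.add_mul_ediv_left _ _ (by positivity)]

lemma Hit_shift {n T : ℕ} {z : ℤ} (t : ℤ) :
    s.Hit n (z + 3 * 3 ^ (s.n0 * n) * t) T ↔ s.Hit n z T := by
  unfold Hit
  have e0 : z + 3 * 3 ^ (s.n0 * n) * t = z + 3 ^ (s.n0 * n) * (3 * t) := by ring
  rw [e0, nd_shift]
  have e : (2 : ℤ) ^ (s.B * n) * (z + 3 ^ (s.n0 * n) * (3 * t)) - T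
      = (2 ^ (s.B * n) * z - T) + 3 ^ (s.n0 * n) * (2 ^ (s.B * n) * (3 * t)) := by ring
  rw [e]
  have h1 : (3 : ℤ) ^ (s.n0 * n) ∣ (2 ^ (s.B * n) * z - T) + 3 ^ (s.n0 * n) * (2 ^ (s.B * n) * (3 * t))
      ↔ (3 : ℤ) ^ (s.n0 * n) ∣ (2 ^ (s.B * n) * z - T) :=
    Int.dvd_add_left (dvd_mul_right _ _)
  rw [h1]
  have h2 : (s.nd n T z + 2 ^ (s.B * n) * (3 * t)) % 3 = s.nd n T z % 3 := by
    have : (2 : ℤ) ^ (s.B * n) * (3 * t) = 3 * (2 ^ (s.B * n) * t) := by ring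
    rw [this, Int.add_mul_emod_self_left]
  rw [h2]

theorem Wn_shift (n : ℕ) (z t : ℤ) : s.Wn n (z + 3 * 3 ^ (s.n0 * n) * t) = s.Wn n z := by
  unfold Wn
  apply Finset.filter_congr
  intro T _
  exact s.Hit_shift t

lemma mem_Wn {n T : ℕ} {z : ℤ} : T ∈ s.Wn n z ↔ T ∈ s.C n ∧ s.Hit n z T := by
  unfold Wn
  rw [Finset.mem_filter]

lemma nd_unit {n T : ℕ} {z : ℤ} (h : T ∈ s.Wn n z) : s.nd n T z % 3 ≠ 0 := (s.mem_Wn.1 h).2.2

lemma nd_mul {n T : ℕ} {z : ℤ} (h : (3 : ℤ) ^ (s.n0 * n) ∣ 2 ^ (s.B * n) * z - T) :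
    3 ^ (s.n0 * n) * s.nd n T z = 2 ^ (s.B * n) * z - T := by
  unfold nd
  exact Int.mul_ediv_cancel' h

lemma unit_of_hit {n T : ℕ} {z : ℤ} (hT : T ∈ s.C n) (h : s.Hit n z T) : z % 3 ≠ 0 := by
  rcases n with _ | n
  · rw [C_zero, Finset.mem_singleton] at hT
    rw [hT] at h
    have := h.2
    unfold nd at this
    simpa using this
  · intro hz
    have h1 := s.C_mod hT
    have h2 := h.1
    have h3 : (3 : ℤ) ∣ 2 ^ (s.B * (n + 1)) * z - T := by
      refine dvd_trans (dvd_pow_self 3 ?_) h2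
      have := s.n0pos
      have : 0 < s.n0 * (n + 1) := Nat.mul_pos s.n0pos (Nat.succ_pos n)
      omega
    have h4 : (3 : ℤ) ∣ 2 ^ (s.B * (n + 1)) * z := Dvd.dvd.mul_left (Int.dvd_of_emod_eq_zero hz) _
    have h5 : (3 : ℤ) ∣ T := by
      have := dvd_sub h4 h3
      simpa using this
    omega

lemma nd_add {n m T T' : ℕ} {z : ℤ} (h : (3 : ℤ) ^ (s.n0 * n) ∣ 2 ^ (s.B * n) * z - T) :
    s.nd (n + m) (2 ^ (s.B * m) * T + 3 ^ (s.n0 * n) * T') z = s.nd m T' (s.nd n T z) := by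
  have h1 := s.nd_mul h
  have e : (2 : ℤ) ^ (s.B * (n + m)) * z - ((2 ^ (s.B * m) * T + 3 ^ (s.n0 * n) * T' : ℕ) : ℤ)
      = 3 ^ (s.n0 * n) * (2 ^ (s.B * m) * s.nd n T z - T') := by
    push_cast
    rw [mul_sub]
    have e1 : (3 : ℤ) ^ (s.n0 * n) * (2 ^ (s.B * m) * s.nd n T z)
        = 2 ^ (s.B * m) * (3 ^ (s.n0 * n) * s.nd n T z) := by ring
    rw [e1, h1, mul_add, pow_add]
    ring
  show ((2 : ℤ) ^ (s.B * (n + m)) * z - ((2 ^ (s.B * m) * T + 3 ^ (s.n0 * n) * T' : ℕ) : ℤ))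
    / 3 ^ (s.n0 * (n + m)) = _
  rw [e, mul_add, pow_add, Int.mul_ediv_mul_of_pos _ _ (by positivity)]
  rfl

lemma Hit_add {n m T T' : ℕ} {z : ℤ} :
    s.Hit (n + m) z (2 ^ (s.B * m) * T + 3 ^ (s.n0 * n) * T')
      ↔ (3 : ℤ) ^ (s.n0 * n) ∣ 2 ^ (s.B * n) * z - T ∧ s.Hit m (s.nd n T z) T' := by
  have key : (3 : ℤ) ^ (s.n0 * n) ∣ 2 ^ (s.B * n) * z - T →
      ((3 : ℤ) ^ (s.n0 * (n + m)) ∣ 2 ^ (s.B * (n + m)) * z
        - ((2 ^ (s.B * m) * T + 3 ^ (s.n0 * n) * T' : ℕ) : ℤ)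
      ↔ (3 : ℤ) ^ (s.n0 * m) ∣ 2 ^ (s.B * m) * s.nd n T z - T') := by
    intro h
    have h1 := s.nd_mul h
    have e : (2 : ℤ) ^ (s.B * (n + m)) * z - ((2 ^ (s.B * m) * T + 3 ^ (s.n0 * n) * T' : ℕ) : ℤ)
        = 3 ^ (s.n0 * n) * (2 ^ (s.B * m) * s.nd n T z - T') := by
      push_cast
      rw [mul_sub]
      have e1 : (3 : ℤ) ^ (s.n0 * n) * (2 ^ (s.B * m) * s.nd n T z)
          = 2 ^ (s.B * m) * (3 ^ (s.n0 * n) * s.nd n T z) := by ring
      rw [e1, h1, mul_add, pow_add]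
      ring
    rw [e, mul_add, pow_add]
    exact ⟨fun h => Int.dvd_of_mul_dvd_mul_left (by positivity) h, fun h => mul_dvd_mul_left _ h⟩
  constructor
  · rintro ⟨h1, h2⟩
    have h3 : (3 : ℤ) ^ (s.n0 * n) ∣ 2 ^ (s.B * n) * z - T := by
      have h4 : (3 : ℤ) ^ (s.n0 * n) ∣ 2 ^ (s.B * (n + m)) * z
          - ((2 ^ (s.B * m) * T + 3 ^ (s.n0 * n) * T' : ℕ) : ℤ) := by
        refine dvd_trans ?_ h1
        apply pow_dvd_pow
        exact Nat.mul_le_mul_left _ (Nat.le_add_right _ _)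
      have e : (2 : ℤ) ^ (s.B * (n + m)) * z - ((2 ^ (s.B * m) * T + 3 ^ (s.n0 * n) * T' : ℕ) : ℤ)
          = 2 ^ (s.B * m) * (2 ^ (s.B * n) * z - T) - 3 ^ (s.n0 * n) * T' := by
        push_cast
        rw [mul_add, pow_add]; ring
      rw [e] at h4
      have h5 : (3 : ℤ) ^ (s.n0 * n) ∣ 2 ^ (s.B * m) * (2 ^ (s.B * n) * z - T) := by
        have := dvd_add h4 (dvd_mul_right ((3 : ℤ) ^ (s.n0 * n)) T')
        simpa using this
      have h6 : IsCoprime ((3 : ℤ) ^ (s.n0 * n)) (2 ^ (s.B * m)) := by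
        apply IsCoprime.pow
        norm_num
      exact h6.dvd_of_dvd_mul_left h5
    refine ⟨h3, (key h3).1 h1, ?_⟩
    rw [s.nd_add h3] at h2
    exact h2
  · rintro ⟨h1, h2, h3⟩
    refine ⟨(key h1).2 h2, ?_⟩
    rw [s.nd_add h1]
    exact h3

/-- words of `n + m` letters are words of `n` letters followed by words of `m` letters -/
theorem sum_Wn_add (n m : ℕ) (z : ℤ) (F : ℕ → ℤ → ℝ) :
    ∑ T ∈ s.Wn (n + m) z, F T (s.nd (n + m) T z) = ∑ T ∈ s.Wn n z, ∑ T' ∈ s.Wn m (s.nd n T z),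
      F (2 ^ (s.B * m) * T + 3 ^ (s.n0 * n) * T') (s.nd m T' (s.nd n T z)) := by
  unfold Wn
  rw [Finset.sum_filter, s.sum_C_add n m
    (fun T => if s.Hit (n + m) z T then F T (s.nd (n + m) T z) else 0), Finset.sum_filter]
  apply Finset.sum_congr rfl
  intro T hT
  split_ifs with h
  · rw [Finset.sum_filter]
    apply Finset.sum_congr rfl
    intro T' hT'
    by_cases h1 : s.Hit m (s.nd n T z) T'
    · rw [if_pos h1, if_pos (s.Hit_add.2 ⟨h.1, h1⟩), s.nd_add h.1]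
    · rw [if_neg h1, if_neg]
      intro h2
      exact h1 (s.Hit_add.1 h2).2
  · apply Finset.sum_eq_zero
    intro T' hT'
    rw [if_neg]
    intro h2
    obtain ⟨h3, h4⟩ := s.Hit_add.1 h2
    exact h ⟨h3, s.unit_of_hit hT' h4⟩

lemma A_add (n m : ℕ) (z : ℤ) : s.A (n + m) z = ∑ T ∈ s.Wn n z, s.A m (s.nd n T z) := by
  have h := s.sum_Wn_add n m z (fun _ _ => 1)
  simp only [Finset.sum_const, nsmul_eq_mul, mul_one] at h
  exact h

lemma A_nonneg (n : ℕ) (z : ℤ) : 0 ≤ s.A n z := Nat.cast_nonneg _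

lemma Wn_zero {z : ℤ} (hz : z % 3 ≠ 0) : s.Wn 0 z = {0} := by
  unfold Wn
  rw [C_zero, Finset.filter_singleton, if_pos]
  unfold Hit nd
  simpa using hz

lemma A_zero {z : ℤ} (hz : z % 3 ≠ 0) : s.A 0 z = 1 := by
  unfold A
  rw [s.Wn_zero hz]
  simp

lemma C_one : s.C 1 = s.Ls := by
  ext T
  rw [s.mem_C_succ, C_zero]
  constructor
  · rintro ⟨S, hS, T', hT', rfl⟩
    rw [Finset.mem_singleton] at hT'
    rw [hT']
    simpa using hS
  · intro h
    exact ⟨T, h, 0, by simp, by simp⟩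

lemma two_le_A {z : ℤ} (hz : z % 3 ≠ 0) : 2 ≤ s.A 1 z := by
  have h := s.two z hz
  unfold A Wn Hit nd
  rw [C_one]
  simp only [mul_one]
  exact_mod_cast h

lemma A_le_add (n m : ℕ) {z : ℤ} : (2 : ℝ) ^ m * s.A n z ≤ s.A (n + m) z := by
  induction m with
  | zero => simp
  | succ m ih =>
    rw [← add_assoc, A_add]
    have h1 : ∑ T ∈ s.Wn (n + m) z, (2 : ℝ) ≤ ∑ T ∈ s.Wn (n + m) z, s.A 1 (s.nd (n + m) T z) :=
      Finset.sum_le_sum fun T hT => s.two_le_A (s.nd_unit hT)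
    rw [Finset.sum_const, nsmul_eq_mul] at h1
    refine le_trans ?_ h1
    rw [pow_succ]
    unfold A at ih ⊢
    linarith

theorem two_pow_le_A (n : ℕ) {z : ℤ} (hz : z % 3 ≠ 0) : (2 : ℝ) ^ n ≤ s.A n z := by
  have h := s.A_le_add 0 n (z := z)
  rw [s.A_zero hz, mul_one, zero_add] at h
  exact h

lemma A_pos (n : ℕ) {z : ℤ} (hz : z % 3 ≠ 0) : 0 < s.A n z :=
  lt_of_lt_of_le (by positivity) (s.two_pow_le_A n hz)

lemma A_shift (n : ℕ) (z t : ℤ) : s.A n (z + 3 * 3 ^ (s.n0 * n) * t) = s.A n z := by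
  unfold A
  rw [s.Wn_shift]

/-! ### the measure -/

lemma Q_pos : 0 < s.Q := by
  have h := s.two 1 (by norm_num)
  unfold Q
  have h1 : 2 ≤ #s.Ls := h.trans (Finset.card_filter_le _ _)
  exact_mod_cast (by omega : 0 < #s.Ls)

lemma g_nonneg (z : ℤ) : 0 ≤ s.g z := by
  unfold g
  split_ifs
  · exact le_rfl
  · exact div_nonneg (Nat.cast_nonneg _) s.Q_pos.le

lemma g_le_one (z : ℤ) : s.g z ≤ 1 := by
  unfold g
  split_ifs
  · norm_num
  · rw [div_le_one s.Q_pos]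
    unfold Q
    exact_mod_cast Finset.card_filter_le _ _

lemma g_zero {z : ℤ} (hz : z % 3 = 0) : s.g z = 0 := by
  unfold g
  rw [if_pos hz]

lemma g_per : Per 3 s.g := by
  intro z
  unfold g
  have e1 : (z + ((3 : ℕ) : ℤ)) % 3 = z % 3 := by norm_num
  have e3 : (s.Ls.filter fun S : ℕ => (3 : ℤ) ∣ 2 ^ s.B * (z + ((3 : ℕ) : ℤ)) - S)
      = s.Ls.filter fun S : ℕ => (3 : ℤ) ∣ 2 ^ s.B * z - S := by
    apply Finset.filter_congr
    intro S _
    have e2 : (2 : ℤ) ^ s.B * (z + ((3 : ℕ) : ℤ)) - S = (2 ^ s.B * z - S) + 3 * 2 ^ s.B := by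
      push_cast; ring
    rw [e2]
    exact Int.dvd_add_left (dvd_mul_right _ _)
  rw [e1, e3]

lemma g_pos {z : ℤ} (hz : z % 3 ≠ 0) : 0 < s.g z := by
  unfold g
  rw [if_neg hz]
  apply div_pos _ s.Q_pos
  have h := s.two z hz
  have h1 : (s.Ls.filter fun S : ℕ =>
      (3 : ℤ) ^ s.n0 ∣ 2 ^ s.B * z - S ∧ (2 ^ s.B * z - S) / 3 ^ s.n0 % 3 ≠ 0)
      ⊆ s.Ls.filter fun S : ℕ => (3 : ℤ) ∣ 2 ^ s.B * z - S := by
    intro S hS
    rw [Finset.mem_filter] at hS ⊢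
    refine ⟨hS.1, dvd_trans (dvd_pow_self 3 ?_) hS.2.1⟩
    have := s.n0pos
    omega
  have h2 := Finset.card_le_card h1
  exact_mod_cast (by omega : 0 < #(s.Ls.filter fun S : ℕ => (3 : ℤ) ∣ 2 ^ s.B * z - S))

lemma two_pow_mod (b : ℕ) : (2 : ℤ) ^ b % 3 = 1 ∨ (2 : ℤ) ^ b % 3 = 2 := by
  induction b with
  | zero => left; norm_num
  | succ b ih =>
    rw [pow_succ]
    omega

lemma g_sum : s.g 0 + s.g 1 + s.g 2 = 1 := by
  have h0 : s.g 0 = 0 := s.g_zero (by norm_num)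
  rw [h0, zero_add]
  unfold g
  rw [if_neg (by norm_num), if_neg (by norm_num), ← add_div, div_eq_one_iff_eq s.Q_pos.ne']
  unfold Q
  have hd : Disjoint (s.Ls.filter fun S : ℕ => (3 : ℤ) ∣ 2 ^ s.B * 1 - S)
      (s.Ls.filter fun S : ℕ => (3 : ℤ) ∣ 2 ^ s.B * 2 - S) := by
    rw [Finset.disjoint_filter]
    intro S hS h1 h2
    have := s.L3 S hS
    rcases two_pow_mod s.B with h | h <;> omega
  have hu : (s.Ls.filter fun S : ℕ => (3 : ℤ) ∣ 2 ^ s.B * 1 - S)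
      ∪ (s.Ls.filter fun S : ℕ => (3 : ℤ) ∣ 2 ^ s.B * 2 - S) = s.Ls := by
    ext S
    simp only [Finset.mem_union, Finset.mem_filter]
    constructor
    · rintro (h | h) <;> exact h.1
    · intro hS
      have := s.L3 S hS
      rcases two_pow_mod s.B with h | h
      · by_cases h2 : S % 3 = 1
        · left; exact ⟨hS, by omega⟩
        · right; exact ⟨hS, by omega⟩
      · by_cases h2 : S % 3 = 1
        · right; exact ⟨hS, by omega⟩
        · left; exact ⟨hS, by omega⟩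
  rw [← Nat.cast_add, ← Finset.card_union_of_disjoint hd, hu]

theorem nu_add (n m : ℕ) (z : ℤ) :
    s.nu (n + m) z = (s.Q ^ n)⁻¹ * ∑ T ∈ s.Wn n z, s.nu m (s.nd n T z) := by
  unfold nu
  rw [s.sum_Wn_add n m z (fun _ y => s.g y), pow_add, mul_inv, mul_assoc, ← Finset.mul_sum]

lemma nu_nonneg (n : ℕ) (z : ℤ) : 0 ≤ s.nu n z := by
  unfold nu
  have := s.Q_pos
  exact mul_nonneg (by positivity) (Finset.sum_nonneg fun T _ => s.g_nonneg _)

lemma nu_zero_eq (z : ℤ) : s.nu 0 z = s.g z := by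
  unfold nu
  by_cases hz : z % 3 = 0
  · rw [s.g_zero hz]
    have : s.Wn 0 z = ∅ := by
      apply Finset.filter_eq_empty_iff.2
      intro T hT h
      exact s.unit_of_hit hT h hz
    rw [this]; simp
  · rw [s.Wn_zero hz]
    simp [nd]

lemma Wn_empty {n : ℕ} {z : ℤ} (hz : z % 3 = 0) : s.Wn n z = ∅ := by
  apply Finset.filter_eq_empty_iff.2
  intro T hT h
  exact s.unit_of_hit hT h hz

lemma nu_nonunit {n : ℕ} {z : ℤ} (hz : z % 3 = 0) : s.nu n z = 0 := by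
  unfold nu
  rw [s.Wn_empty hz]; simp

theorem nu_shift (n : ℕ) (z t : ℤ) : s.nu n (z + 3 * 3 ^ (s.n0 * n) * t) = s.nu n z := by
  unfold nu
  rw [s.Wn_shift]
  congr 1
  apply Finset.sum_congr rfl
  intro T _
  have e0 : z + 3 * 3 ^ (s.n0 * n) * t = z + 3 ^ (s.n0 * n) * (3 * t) := by ring
  rw [e0, nd_shift]
  apply s.g_per.eq_of
  exact ⟨2 ^ (s.B * n) * t, by push_cast; ring⟩

lemma nu_le_A (n : ℕ) (z : ℤ) : s.nu n z ≤ (s.Q ^ n)⁻¹ * s.A n z := by
  unfold nu A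
  have := s.Q_pos
  apply mul_le_mul_of_nonneg_left _ (by positivity)
  have h := Finset.sum_le_sum (s := s.Wn n z) fun T _ => s.g_le_one (s.nd n T z)
  refine h.trans (le_of_eq ?_)
  simp

/-- base case of the consistency -/
lemma nu_sum_base (z : ℤ) : ∑ j ∈ range (3 ^ s.n0), s.nu 1 (z + 3 * j) = s.nu 0 z := by
  rw [nu_zero_eq]
  obtain ⟨r, hr⟩ : ∃ r, s.n0 = r + 1 := ⟨s.n0 - 1, by have := s.n0pos; omega⟩
  have hne : NeZero (3 ^ (r + 1)) := ⟨by positivity⟩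
  have h1 : ∀ x : ℤ, s.nu 1 x = (s.Q)⁻¹ * ∑ S ∈ s.Ls, trm s.n0 s.B S s.g x := by
    intro x
    unfold nu Wn
    rw [Finset.sum_filter, C_one, pow_one]
    congr 1
    apply Finset.sum_congr rfl
    intro S _
    unfold trm Hit nd
    simp only [mul_one]
    by_cases hd : (3 : ℤ) ^ s.n0 ∣ 2 ^ s.B * x - S
    · by_cases h2 : (2 ^ s.B * x - S) / 3 ^ s.n0 % 3 = 0
      · rw [if_neg (by tauto), if_pos hd, s.g_zero h2]
      · rw [if_pos ⟨hd, h2⟩, if_pos hd]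
    · rw [if_neg (by tauto), if_neg hd]
  simp only [h1]
  rw [← Finset.mul_sum, Finset.sum_comm]
  have h2 : ∀ S ∈ s.Ls, ∑ j ∈ range (3 ^ s.n0), trm s.n0 s.B S s.g (z + 3 * j)
      = if (3 : ℤ) ∣ 2 ^ s.B * z - S then 1 else 0 := by
    intro S _
    split_ifs with hd
    · obtain ⟨w, hw⟩ := hd
      set φ : ℤ → ℝ := fun x => if (3 : ℤ) ^ r ∣ x then s.g (x / 3 ^ r) else 0 with hφ
      have hφp : Per (3 ^ (r + 1)) φ := by
        intro x
        simp only [hφ]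
        have e1 : x + ((3 ^ (r + 1) : ℕ) : ℤ) = x + 3 ^ r * 3 := by push_cast; ring
        rw [e1]
        have e2 : ((3 : ℤ) ^ r ∣ x + 3 ^ r * 3) ↔ (3 : ℤ) ^ r ∣ x :=
          Int.dvd_add_left (dvd_mul_right _ _)
        rw [Int.add_mul_ediv_left _ _ (by positivity)]
        simp only [e2]
        have e3 := s.g_per (x / 3 ^ r)
        push_cast at e3
        rw [e3]
      have e1 : ∀ j : ℕ, trm s.n0 s.B S s.g (z + 3 * j) = φ (2 ^ s.B * j + w) := by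
        intro j
        unfold trm
        have e2 : (2 : ℤ) ^ s.B * (z + 3 * j) - S = 3 * (2 ^ s.B * j + w) := by
          have : (2 : ℤ) ^ s.B * (z + 3 * j) - S = (2 ^ s.B * z - S) + 3 * (2 ^ s.B * j) := by ring
          rw [this, hw]; ring
        rw [e2, hr, pow_succ']
        simp only [hφ]
        by_cases hd : (3 : ℤ) ^ r ∣ 2 ^ s.B * j + w
        · rw [if_pos (mul_dvd_mul_left 3 hd), if_pos hd, Int.mul_ediv_mul_of_pos _ _ (by norm_num)]
        · rw [if_neg, if_neg hd]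
          intro h3
          exact hd (Int.dvd_of_mul_dvd_mul_left (by norm_num) h3)
      simp only [e1]
      rw [hr]
      have h3 := sum_unit (hφp.comp_add w) (a := 2 ^ s.B) (isUnit_two_pow s.B (r + 1))
      rw [h3, sum_shift hφp]
      have h4 := sum_mul_range 3 (3 ^ r) φ
      rw [← pow_succ'] at h4
      rw [h4, Finset.sum_eq_single 0]
      · have h5 : ∀ x : ℕ, φ (((0 : ℕ) : ℤ) + ((3 ^ r : ℕ) : ℤ) * x) = s.g x := by
          intro x
          simp only [hφ]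
          have e3 : ((0 : ℕ) : ℤ) + ((3 ^ r : ℕ) : ℤ) * x = 3 ^ r * x := by push_cast; ring
          rw [e3, if_pos (dvd_mul_right _ _), Int.mul_ediv_cancel_left _ (by positivity)]
        simp only [h5]
        rw [Finset.sum_range_succ, Finset.sum_range_succ, Finset.sum_range_succ,
          Finset.sum_range_zero, zero_add]
        have := s.g_sum
        push_cast
        exact this
      · intro c hc hc0
        apply Finset.sum_eq_zero
        intro x _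
        simp only [hφ]
        rw [if_neg]
        intro hd
        have h6 : (3 : ℤ) ^ r ∣ ((c : ℕ) : ℤ) := by
          have h7 : (3 : ℤ) ^ r ∣ ((3 ^ r : ℕ) : ℤ) * x := by push_cast; exact dvd_mul_right _ _
          exact (Int.dvd_add_left h7).1 hd
        have h8 : 3 ^ r ∣ c := by exact_mod_cast h6
        have h9 := Finset.mem_range.1 hc
        exact absurd (Nat.le_of_dvd (Nat.pos_of_ne_zero hc0) h8) (by omega)
      · intro h
        exact absurd (Finset.mem_range.2 (by positivity)) h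
    · apply Finset.sum_eq_zero
      intro j _
      unfold trm
      rw [if_neg]
      intro h3
      apply hd
      have h4 : (3 : ℤ) ∣ 2 ^ s.B * (z + 3 * j) - S := by
        refine dvd_trans (dvd_pow_self 3 ?_) h3
        omega
      have h5 : (2 : ℤ) ^ s.B * (z + 3 * j) - S = (2 ^ s.B * z - S) + 3 * (2 ^ s.B * j) := by ring
      rw [h5] at h4
      exact (Int.dvd_add_left (dvd_mul_right _ _)).1 h4
  rw [Finset.sum_congr rfl h2, ← Finset.sum_filter, Finset.sum_const, nsmul_eq_mul, mul_one]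
  unfold g
  split_ifs with hz
  · have : (s.Ls.filter fun S : ℕ => (3 : ℤ) ∣ 2 ^ s.B * z - S) = ∅ := by
      apply Finset.filter_eq_empty_iff.2
      intro S hS hd
      have h3 := s.L3 S hS
      have h4 : (3 : ℤ) ∣ 2 ^ s.B * z := Dvd.dvd.mul_left (Int.dvd_of_emod_eq_zero hz) _
      have h5 : (3 : ℤ) ∣ S := by
        have := dvd_sub h4 hd
        simpa using this
      omega
    rw [this]; simp
  · rw [div_eq_inv_mul]

lemma nu_sum_one (n : ℕ) (z : ℤ) :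
    ∑ j ∈ range (3 ^ s.n0), s.nu (n + 1) (z + 3 * 3 ^ (s.n0 * n) * j) = s.nu n z := by
  have hne : NeZero (3 ^ s.n0) := ⟨by positivity⟩
  induction n generalizing z with
  | zero => simpa using s.nu_sum_base z
  | succ n ih =>
    have h1 : ∀ j : ℕ, s.nu (n + 1 + 1) (z + 3 * 3 ^ (s.n0 * (n + 1)) * j)
        = (s.Q ^ 1)⁻¹ * ∑ T ∈ s.Wn 1 z,
          s.nu (n + 1) (s.nd 1 T z + 3 * 3 ^ (s.n0 * n) * (2 ^ s.B * j)) := by
      intro j
      rw [add_comm (n + 1) 1, s.nu_add 1 (n + 1)]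
      have e1 : z + 3 * 3 ^ (s.n0 * (n + 1)) * j
          = z + 3 * 3 ^ (s.n0 * 1) * (3 ^ (s.n0 * n) * j) := by
        have : s.n0 * (n + 1) = s.n0 * 1 + s.n0 * n := by ring
        rw [this, pow_add]; ring
      rw [e1, s.Wn_shift]
      congr 1
      apply Finset.sum_congr rfl
      intro T _
      have e2 : z + 3 * 3 ^ (s.n0 * 1) * (3 ^ (s.n0 * n) * j)
          = z + 3 ^ (s.n0 * 1) * (3 * (3 ^ (s.n0 * n) * j)) := by ring
      rw [e2, s.nd_shift, mul_one]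
      congr 1
      ring
    simp only [h1]
    have h2 := s.nu_add 1 n z
    rw [add_comm 1 n] at h2
    rw [← Finset.mul_sum, Finset.sum_comm, h2]
    congr 1
    apply Finset.sum_congr rfl
    intro T _
    rw [← ih (s.nd 1 T z)]
    have hp : Per (3 ^ s.n0) fun x : ℤ => s.nu (n + 1) (s.nd 1 T z + 3 * 3 ^ (s.n0 * n) * x) := by
      intro x
      have e : s.nd 1 T z + 3 * 3 ^ (s.n0 * n) * (x + ((3 ^ s.n0 : ℕ) : ℤ))
          = (s.nd 1 T z + 3 * 3 ^ (s.n0 * n) * x) + 3 * 3 ^ (s.n0 * (n + 1)) * 1 := by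
        have : s.n0 * (n + 1) = s.n0 * n + s.n0 := by ring
        rw [this, pow_add]; push_cast; ring
      show s.nu (n + 1) (s.nd 1 T z + 3 * 3 ^ (s.n0 * n) * (x + ((3 ^ s.n0 : ℕ) : ℤ))) = _
      rw [e, s.nu_shift]
    exact sum_unit hp (a := 2 ^ s.B) (isUnit_two_pow s.B s.n0)

theorem nu_sum (n m : ℕ) (z : ℤ) :
    ∑ j ∈ range (3 ^ (s.n0 * m)), s.nu (n + m) (z + 3 * 3 ^ (s.n0 * n) * j) = s.nu n z := by
  induction m generalizing z with
  | zero => simp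
  | succ m ih =>
    have e0 : 3 ^ (s.n0 * (m + 1)) = 3 ^ s.n0 * 3 ^ (s.n0 * m) := by
      rw [← pow_add]; congr 1; ring
    have h1 := sum_mul_range (3 ^ s.n0) (3 ^ (s.n0 * m))
      (fun j => s.nu (n + (m + 1)) (z + 3 * 3 ^ (s.n0 * n) * j))
    rw [e0, h1, ← ih z]
    apply Finset.sum_congr rfl
    intro c _
    rw [← s.nu_sum_one (n + m)]
    apply Finset.sum_congr rfl
    intro x _
    rw [← add_assoc]
    congr 1
    have : s.n0 * (n + m) = s.n0 * n + s.n0 * m := by ring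
    rw [this, pow_add]; push_cast; ring

end Sys

end Pool.Agent.LqLow
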