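import Pool.Agent.LqLow.Defs

open Finset

/-!
Number of words (package R6 of the lower half of MP_845cb7_nt).
-/

namespace Pool.Agent.LqLow

open Pool.Agent.LqFlat

/-- powers of two that are congruent modulo a larger power are equal -/
theorem cardW_pow_inj {f f' m : ℕ} (hf : min f f' < m)
    (h : (2 : ℤ) ^ m ∣ 2 ^ f - 2 ^ f') : f = f' := by
  wlog hle : f ≤ f' generalizing f f'
  · refine (this (f := f') (f' := f) ?_ ?_ (by omega)).symm
    · rw [min_comm]; exact hf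
    · rw [← neg_sub]
      exact (dvd_neg).2 h
  rw [min_eq_left hle] at hf
  by_contra hne
  have hlt : f < f' := by omega
  have h1 : (2 : ℤ) ^ (f + 1) ∣ 2 ^ f - 2 ^ f' := (pow_dvd_pow 2 hf).trans h
  have h2 : (2 : ℤ) ^ (f + 1) ∣ 2 ^ f' := pow_dvd_pow 2 hlt
  have h3 : (2 : ℤ) ^ (f + 1) ∣ 2 ^ f := by
    have := dvd_add h1 h2
    rwa [sub_add_cancel] at this
  have h4 : (2 : ℤ) ^ (f + 1) ≤ 2 ^ f := Int.le_of_dvd (by positivity) h3
  have h5 : (0 : ℤ) < 2 ^ f := by positivity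
  rw [pow_succ] at h4
  linarith

/-- a word is determined by its residue modulo the power of two of its exponent -/
theorem cardW_inj : ∀ {n e e' S S' : ℕ}, S ∈ W n e → S' ∈ W n e' →
    (2 : ℤ) ^ min e e' ∣ (S : ℤ) - S' → S = S' := by
  intro n
  induction n with
  | zero =>
    intro e e' S S' hS hS' _
    rw [(mem_W_zero.1 hS).2, (mem_W_zero.1 hS').2]
  | succ n ih =>
    intro e e' S S' hS hS' h
    obtain ⟨f, hf, T, hT, rfl⟩ := mem_W_succ.1 hS
    obtain ⟨f', hf', T', hT', rfl⟩ := mem_W_succ.1 hS'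
    have hmin : min f f' < min e e' := by omega
    have h1 : (2 : ℤ) ^ min f f' ∣ ((2 ^ f + 3 * T : ℕ) : ℤ) - ((2 ^ f' + 3 * T' : ℕ) : ℤ) :=
      (pow_dvd_pow 2 hmin.le).trans h
    have h2 : (2 : ℤ) ^ min f f' ∣ 2 ^ f - 2 ^ f' :=
      dvd_sub (pow_dvd_pow 2 (min_le_left _ _)) (pow_dvd_pow 2 (min_le_right _ _))
    have h3 : (2 : ℤ) ^ min f f' ∣ 3 * ((T : ℤ) - T') := by
      have := dvd_sub h1 h2
      have e1 : ((2 ^ f + 3 * T : ℕ) : ℤ) - ((2 ^ f' + 3 * T' : ℕ) : ℤ) - (2 ^ f - 2 ^ f') =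
          3 * ((T : ℤ) - T') := by push_cast; ring
      rwa [e1] at this
    have h4 : IsCoprime ((2 : ℤ) ^ min f f') 3 := IsCoprime.pow_left (by norm_num)
    have h5 := ih hT hT' (h4.dvd_of_dvd_mul_left h3)
    subst h5
    have h6 : (2 : ℤ) ^ min e e' ∣ 2 ^ f - 2 ^ f' := by
      have e1 : ((2 ^ f + 3 * T : ℕ) : ℤ) - ((2 ^ f' + 3 * T : ℕ) : ℤ) = 2 ^ f - 2 ^ f' := by
        push_cast; ring
      rwa [e1] at h
    rw [cardW_pow_inj hmin h6]

theorem cardW_succ (n b : ℕ) : #(W (n + 1) (b + 1)) = #(W (n + 1) b) + #(W n b) := by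
  have h1 : W (n + 1) (b + 1) = W (n + 1) b ∪ (W n b).image fun S => 2 ^ b + 3 * S := by
    ext S
    rw [mem_union, mem_W_succ, mem_W_succ, mem_image]
    constructor
    · rintro ⟨e, he, T, hT, rfl⟩
      rcases Nat.lt_succ_iff_lt_or_eq.1 he with h | h
      · exact Or.inl ⟨e, h, T, hT, rfl⟩
      · subst h
        exact Or.inr ⟨T, hT, rfl⟩
    · rintro (⟨e, he, T, hT, rfl⟩ | ⟨T, hT, rfl⟩)
      · exact ⟨e, by omega, T, hT, rfl⟩
      · exact ⟨b, by omega, T, hT, rfl⟩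
  rw [h1, card_union_of_disjoint, card_image_of_injective]
  · intro x y hxy
    have : 2 ^ b + 3 * x = 2 ^ b + 3 * y := hxy
    omega
  · rw [Finset.disjoint_left]
    intro S hS hS'
    obtain ⟨e, he, T, hT, rfl⟩ := mem_W_succ.1 hS
    obtain ⟨T', hT', h⟩ := mem_image.1 hS'
    have h2 : (2 : ℕ) ^ b + 3 * T' = 2 ^ e + 3 * T := h
    have h3 : ((2 : ℤ) ^ b + 3 * T') = 2 ^ e + 3 * T := by exact_mod_cast h2
    have h4 : (2 : ℤ) ^ min e b ∣ 3 * ((T : ℤ) - T') := by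
      have e1 : 3 * ((T : ℤ) - T') = 2 ^ b - 2 ^ e := by linarith
      rw [e1]
      exact dvd_sub (pow_dvd_pow 2 (min_le_right _ _)) (pow_dvd_pow 2 (min_le_left _ _))
    have h5 : IsCoprime ((2 : ℤ) ^ min e b) 3 := IsCoprime.pow_left (by norm_num)
    have h6 := cardW_inj hT hT' (h5.dvd_of_dvd_mul_left h4)
    subst h6
    have h7 : (2 : ℕ) ^ b = 2 ^ e := by omega
    have h8 : b = e := Nat.pow_right_injective le_rfl h7
    omega

theorem cardW_choose (n b : ℕ) : (b.choose n) ≤ #(W (n + 1) (b + 1)) := by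
  induction b generalizing n with
  | zero =>
    rcases Nat.eq_zero_or_pos n with h | h
    · subst h
      rw [cardW_succ]
      simp [W]
    · rw [Nat.choose_eq_zero_of_lt h]
      exact Nat.zero_le _
  | succ b ih =>
    rw [cardW_succ]
    rcases n with _ | n
    · have := ih 0
      simp only [Nat.choose_zero_right] at this ⊢
      omega
    · rw [Nat.choose_succ_succ']
      have h1 := ih (n + 1)
      have h2 := ih n
      omega

theorem cardW_ratio (k : ℕ) :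
    (4 * k + 14).choose (k + 1) * (k + 1) * (3 * k + 13) * (3 * k + 12) * (3 * k + 11) =
      (4 * k + 10).choose k * (4 * k + 14) * (4 * k + 13) * (4 * k + 12) * (4 * k + 11) := by
  have h1 := Nat.choose_mul_succ_eq (4 * k + 10) k
  have h2 := Nat.choose_mul_succ_eq (4 * k + 11) k
  have h3 := Nat.choose_mul_succ_eq (4 * k + 12) k
  have h4 := Nat.add_one_mul_choose_eq (4 * k + 13) k
  have e1 : 4 * k + 10 + 1 - k = 3 * k + 11 := by omega
  have e2 : 4 * k + 11 + 1 - k = 3 * k + 12 := by omega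
  have e3 : 4 * k + 12 + 1 - k = 3 * k + 13 := by omega
  rw [e1] at h1
  rw [e2] at h2
  rw [e3] at h3
  have f1 : 4 * k + 10 + 1 = 4 * k + 11 := rfl
  have f2 : 4 * k + 11 + 1 = 4 * k + 12 := rfl
  have f3 : 4 * k + 12 + 1 = 4 * k + 13 := rfl
  have f4 : 4 * k + 13 + 1 = 4 * k + 14 := rfl
  rw [f1] at h1
  rw [f2] at h2
  rw [f3] at h3
  rw [f4] at h4
  calc (4 * k + 14).choose (k + 1) * (k + 1) * (3 * k + 13) * (3 * k + 12) * (3 * k + 11)
      = ((4 * k + 14) * (4 * k + 13).choose k) * (3 * k + 13) * (3 * k + 12) * (3 * k + 11) := by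
        rw [h4]
    _ = (4 * k + 14) * ((4 * k + 13).choose k * (3 * k + 13)) * (3 * k + 12) * (3 * k + 11) := by
        ring
    _ = (4 * k + 14) * ((4 * k + 12).choose k * (4 * k + 13)) * (3 * k + 12) * (3 * k + 11) := by
        rw [h3]
    _ = (4 * k + 14) * (4 * k + 13) * ((4 * k + 12).choose k * (3 * k + 12)) * (3 * k + 11) := by
        ring
    _ = (4 * k + 14) * (4 * k + 13) * ((4 * k + 11).choose k * (4 * k + 12)) * (3 * k + 11) := by
        rw [h2]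
    _ = (4 * k + 14) * (4 * k + 13) * (4 * k + 12) * ((4 * k + 11).choose k * (3 * k + 11)) := by
        ring
    _ = (4 * k + 14) * (4 * k + 13) * (4 * k + 12) * ((4 * k + 10).choose k * (4 * k + 11)) := by
        rw [h1]
    _ = _ := by ring

theorem cardW_poly {k : ℝ} (hk : 0 ≤ k) :
    (k + 1) * (256 / 27) * ((k + 1) * (3 * k + 13) * (3 * k + 12) * (3 * k + 11)) ≤
      (k + 2) * ((4 * k + 14) * (4 * k + 13) * (4 * k + 12) * (4 * k + 11)) := by
  have h7 : 0 ≤ (k + 2) * ((4 * k + 14) * (4 * k + 13) * (4 * k + 12) * (4 * k + 11)) -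
      (k + 1) * (256 / 27) * ((k + 1) * (3 * k + 13) * (3 * k + 12) * (3 * k + 11)) := by
    have h8 : (k + 2) * ((4 * k + 14) * (4 * k + 13) * (4 * k + 12) * (4 * k + 11)) -
        (k + 1) * (256 / 27) * ((k + 1) * (3 * k + 13) * (3 * k + 12) * (3 * k + 11)) =
        286000 / 9 + 41224 * k + 51176 / 3 * k ^ 2 + 24304 / 9 * k ^ 3 + 128 * k ^ 4 := by ring
    rw [h8]
    positivity
  linarith

theorem cardW_step {k A B X : ℝ} (hk : 0 ≤ k) (hB0 : 0 ≤ B)
    (h1 : A * (k + 1) * (3 * k + 13) * (3 * k + 12) * (3 * k + 11) =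
      B * (4 * k + 14) * (4 * k + 13) * (4 * k + 12) * (4 * k + 11)) (ih : X ≤ (k + 1) * B) :
    X * (256 / 27) ≤ (k + 1 + 1) * A := by
  have hD0 : 0 < (k + 1) * (3 * k + 13) * (3 * k + 12) * (3 * k + 11) := by positivity
  refine le_of_mul_le_mul_right ?_ hD0
  have h4 : X * (256 / 27) * ((k + 1) * (3 * k + 13) * (3 * k + 12) * (3 * k + 11)) ≤
      ((k + 1) * B) * (256 / 27) * ((k + 1) * (3 * k + 13) * (3 * k + 12) * (3 * k + 11)) :=
    mul_le_mul_of_nonneg_right (mul_le_mul_of_nonneg_right ih (by norm_num)) hD0.le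
  refine h4.trans ?_
  have h5 : (k + 1 + 1) * A * ((k + 1) * (3 * k + 13) * (3 * k + 12) * (3 * k + 11)) =
      B * ((k + 2) * ((4 * k + 14) * (4 * k + 13) * (4 * k + 12) * (4 * k + 11))) := by
    linear_combination (k + 2) * h1
  rw [h5]
  calc ((k + 1) * B) * (256 / 27) * ((k + 1) * (3 * k + 13) * (3 * k + 12) * (3 * k + 11))
      = B * ((k + 1) * (256 / 27) * ((k + 1) * (3 * k + 13) * (3 * k + 12) * (3 * k + 11))) := by
        ring
    _ ≤ _ := mul_le_mul_of_nonneg_left (cardW_poly hk) hB0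

theorem cardW_numeric (k : ℕ) :
    (256 / 27 : ℝ) ^ k ≤ ((k : ℝ) + 1) * (4 * k + 10).choose k := by
  induction k with
  | zero => simp
  | succ k ih =>
    have h1 : ((4 * k + 14).choose (k + 1) : ℝ) * (k + 1) * (3 * k + 13) * (3 * k + 12) *
        (3 * k + 11) = (4 * k + 10).choose k * (4 * k + 14) * (4 * k + 13) * (4 * k + 12) *
        (4 * k + 11) := by exact_mod_cast cardW_ratio k
    have e1 : 4 * (k + 1) + 10 = 4 * k + 14 := by ring
    rw [e1, pow_succ, Nat.cast_succ]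
    exact cardW_step (Nat.cast_nonneg k) (Nat.cast_nonneg _) h1 ih

theorem card_W_ge : ∃ c : ℝ, 0 < c ∧ ∀ n : ℕ, 1 ≤ n →
    c * ((4 / 3 : ℝ) ^ (4 * n + 7) * 3 ^ n) / n ≤ #(W n (4 * n + 7)) := by
  refine ⟨(27 / 256) / (4 / 3) ^ 7, by positivity, fun n hn => ?_⟩
  obtain ⟨k, rfl⟩ : ∃ k, n = k + 1 := ⟨n - 1, by omega⟩
  have h1 := cardW_choose k (4 * k + 10)
  have e1 : 4 * (k + 1) + 7 = 4 * k + 10 + 1 := by ring
  rw [e1]
  have h2 := cardW_numeric k
  have h3 : ((4 * k + 10).choose k : ℝ) ≤ #(W (k + 1) (4 * k + 10 + 1)) := by exact_mod_cast h1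
  rw [div_le_iff₀ (Nat.cast_pos.2 (Nat.succ_pos k))]
  have e2 : (27 / 256 : ℝ) / (4 / 3) ^ 7 * ((4 / 3 : ℝ) ^ (4 * k + 10 + 1) * 3 ^ (k + 1)) =
      (256 / 27) ^ k := by
    have e3 : (4 / 3 : ℝ) ^ (4 * k + 10 + 1) = ((4 / 3 : ℝ) ^ 4) ^ k * (4 / 3) ^ 7 * (4 / 3) ^ 4 := by
      rw [← pow_mul, ← pow_add, ← pow_add]
    have e4 : (256 / 27 : ℝ) ^ k = ((4 / 3 : ℝ) ^ 4) ^ k * 3 ^ k := by
      rw [← mul_pow]; norm_num
    rw [e3, e4, pow_succ 3 k]
    field_simp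
    norm_num
  rw [e2]
  refine h2.trans ?_
  rw [mul_comm, Nat.cast_succ]
  exact mul_le_mul_of_nonneg_right h3 (add_nonneg (Nat.cast_nonneg k) zero_le_one)

end Pool.Agent.LqLow
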