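import Pool.Agent.LqLow.Defs

/-!
The words of the `3x+1` map form a system: package R5 of the lower half of MP_845cb7_nt.
-/

open Finset

namespace Pool.Agent.LqLow

open Pool.Agent.LqFlat

lemma tm_two_mul (x : ℕ) : tm (2 * x) = x := by
  unfold tm
  rw [if_pos (by omega)]
  omega

lemma tm_odd {x y : ℕ} (h : 3 * x + 1 = 2 * y) : tm x = y := by
  unfold tm
  rw [if_neg (by omega)]
  omega

lemma tm_iter_two_pow (i : ℕ) : ∀ (j y : ℕ), tm^[j] (2 ^ (i + j) * y) = 2 ^ i * y := by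
  intro j
  induction j with
  | zero => intro y; simp
  | succ j ih =>
    intro y
    rw [Function.iterate_succ_apply]
    have : 2 ^ (i + (j + 1)) * y = 2 * (2 ^ (i + j) * y) := by
      rw [← add_assoc, pow_succ]; ring
    rw [this, tm_two_mul, ih]

/-- one odd step, backwards -/
lemma step_back {d b f T m y : ℕ} (hf : f < b)
    (h : 3 ^ (d + 1) * m + (2 ^ f + 3 * T) = 2 ^ b * y) :
    ∃ y1, 3 ^ d * m + T = 2 ^ f * y1 ∧ 3 * y1 + 1 = 2 ^ (b - f) * y := by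
  have e1 : 2 ^ b = 2 ^ f * 2 ^ (b - f) := by
    rw [← pow_add]; congr 1; omega
  have h1 : 3 * (3 ^ d * m + T) + 2 ^ f = 2 ^ f * (2 ^ (b - f) * y) := by
    rw [← mul_assoc, ← e1, ← h, pow_succ]; ring
  have h2 : 2 ^ f ∣ 3 * (3 ^ d * m + T) :=
    (Nat.dvd_add_left (dvd_refl (2 ^ f))).1 (h1 ▸ dvd_mul_right _ _)
  have h3 : 2 ^ f ∣ 3 ^ d * m + T := by
    apply Nat.Coprime.dvd_of_dvd_mul_left _ h2
    exact Nat.Coprime.pow_left _ (by norm_num)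
  obtain ⟨y1, hy1⟩ := h3
  refine ⟨y1, hy1, ?_⟩
  rw [hy1] at h1
  have h4 : 2 ^ f * (3 * y1 + 1) = 2 ^ f * (2 ^ (b - f) * y) := by
    rw [← h1]; ring
  exact Nat.eq_of_mul_eq_mul_left (by positivity) h4

/-- forward dynamics of a word -/
theorem fwd {d e T m y : ℕ} (hT : T ∈ W d e) (h : 3 ^ d * m + T = 2 ^ e * y) : tm^[e] m = y := by
  induction d generalizing e T y with
  | zero =>
    obtain ⟨rfl, rfl⟩ := mem_W_zero.1 hT
    simpa using h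
  | succ d ih =>
    obtain ⟨f, hf, T', hT', rfl⟩ := mem_W_succ.1 hT
    obtain ⟨y1, h1, h2⟩ := step_back hf h
    have h3 := ih hT' h1
    have e1 : e = (e - f - 1) + (f + 1) := by omega
    rw [e1, Function.iterate_add_apply, Function.iterate_succ_apply', h3]
    have e2 : 2 ^ (e - f) * y = 2 * (2 ^ (e - f - 1) * y) := by
      have : e - f = (e - f - 1) + 1 := by omega
      rw [this, pow_succ]
      simp only [Nat.add_sub_cancel]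
      ring
    rw [tm_odd (h2.trans e2)]
    have h5 := tm_iter_two_pow 0 (e - f - 1) y
    simpa using h5

/-- a word is determined by its numerator modulo `2 ^ e` -/
lemma W_modEq {d e T T' : ℕ} (hT : T ∈ W d e) (hT' : T' ∈ W d e) (h : T ≡ T' [MOD 2 ^ e]) :
    T = T' := by
  -- choose `m` with `2 ^ e ∣ 3 ^ d * m + T`
  have hc : Nat.Coprime (3 ^ d) (2 ^ e) := Nat.Coprime.pow _ _ (by norm_num)
  obtain ⟨m, hm⟩ : ∃ m : ℕ, 3 ^ d * m + T ≡ 0 [MOD 2 ^ e] := by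
    obtain ⟨x, hx1, hx2⟩ := Nat.chineseRemainder hc 0 (T * (2 ^ e - 1))
    obtain ⟨m, rfl⟩ := (Nat.modEq_zero_iff_dvd).1 hx1
    refine ⟨m, ?_⟩
    have h1 : 3 ^ d * m + T ≡ T * (2 ^ e - 1) + T [MOD 2 ^ e] := Nat.ModEq.add_right _ hx2
    refine h1.trans ?_
    rw [Nat.modEq_zero_iff_dvd]
    refine ⟨T, ?_⟩
    obtain ⟨u, hu⟩ : ∃ u, 2 ^ e = u + 1 := Nat.exists_eq_succ_of_ne_zero (by positivity)
    rw [hu, Nat.add_sub_cancel]
    ring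
  have h1 : 2 ^ e ∣ 3 ^ d * m + T := (Nat.modEq_zero_iff_dvd).1 hm
  have h2 : 2 ^ e ∣ 3 ^ d * m + T' :=
    (Nat.modEq_zero_iff_dvd).1 ((Nat.ModEq.add_left _ h).symm.trans hm)
  obtain ⟨y, hy⟩ := h1
  obtain ⟨y', hy'⟩ := h2
  have h3 := fwd hT hy
  have h4 := fwd hT' hy'
  rw [h3] at h4
  subst h4
  omega

/-- unique decomposition -/
theorem W_uniq {a c d e S S' T T' : ℕ} (hS : S ∈ W a c) (hS' : S' ∈ W a c) (hT : T ∈ W d e)
    (hT' : T' ∈ W d e) (h : 2 ^ e * S + 3 ^ a * T = 2 ^ e * S' + 3 ^ a * T') :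
    S = S' ∧ T = T' := by
  have hc : Nat.Coprime (2 ^ e) (3 ^ a) := Nat.Coprime.pow _ _ (by norm_num)
  have h1 : T ≡ T' [MOD 2 ^ e] := by
    have h2 : 3 ^ a * T ≡ 3 ^ a * T' [MOD 2 ^ e] := by
      have h3 : 2 ^ e * S + 3 ^ a * T ≡ 2 ^ e * S' + 3 ^ a * T' [MOD 2 ^ e] := by rw [h]
      have h4 : ∀ x y : ℕ, 2 ^ e * x + y ≡ y [MOD 2 ^ e] := fun x y => by
        unfold Nat.ModEq
        rw [Nat.mul_add_mod]
      exact (h4 _ _).symm.trans (h3.trans (h4 _ _))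
    exact Nat.ModEq.cancel_left_of_coprime hc h2
  have h2 := W_modEq hT hT' h1
  subst h2
  refine ⟨?_, rfl⟩
  have h3 : 2 ^ e * S = 2 ^ e * S' := by omega
  exact Nat.eq_of_mul_eq_mul_left (by positivity) h3

/-- concatenation of words -/
lemma W_concat {d e T : ℕ} (hT : T ∈ W d e) : ∀ {a c S : ℕ}, S ∈ W a c →
    2 ^ e * S + 3 ^ a * T ∈ W (a + d) (c + e) := by
  intro a
  induction a with
  | zero =>
    intro c S hS
    obtain ⟨rfl, rfl⟩ := mem_W_zero.1 hS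
    simpa using hT
  | succ a ih =>
    intro c S hS
    obtain ⟨f, hf, S', hS', rfl⟩ := mem_W_succ.1 hS
    rw [Nat.add_right_comm]
    refine mem_W_succ.2 ⟨f + e, by omega, 2 ^ e * S' + 3 ^ a * T, ih hS', ?_⟩
    rw [pow_add, pow_succ]; ring

lemma Cw_subset (n B : ℕ) (k : ℕ) : Cw n B (W n B) k ⊆ W (n * k) (B * k) := by
  induction k with
  | zero =>
    intro T hT
    simp only [Cw, Finset.mem_singleton] at hT
    exact mem_W_zero.2 ⟨by simp, hT⟩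
  | succ k ih =>
    intro T hT
    simp only [Cw, Finset.mem_image, Finset.mem_product] at hT
    obtain ⟨⟨S, T'⟩, ⟨hS, hT'⟩, rfl⟩ := hT
    have := W_concat (ih hT') hS
    rw [mul_add, mul_add, mul_one, mul_one, add_comm (n * k), add_comm (B * k)]
    exact this

/-- the first exponent is determined by the numerator -/
lemma W_fst {n e e' S S' : ℕ} (hS : S ∈ W n e) (hS' : S' ∈ W n e')
    (h : 2 ^ e + 3 * S = 2 ^ e' + 3 * S') : e = e' := by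
  wlog hlt : e < e' generalizing e e' S S' with H
  · by_contra hne
    exact hne (H hS' hS h.symm (by omega)).symm
  exfalso
  -- choose `m`, `y` with `3 ^ (n + 1) * m + (2 ^ e + 3 * S) = 2 ^ (e' + 1) * y`
  obtain ⟨m, y, hmy⟩ : ∃ m y : ℕ, 3 ^ (n + 1) * m + (2 ^ e + 3 * S) = 2 ^ (e' + 1) * y := by
    have hc : Nat.Coprime (3 ^ (n + 1)) (2 ^ (e' + 1)) := Nat.Coprime.pow _ _ (by norm_num)
    obtain ⟨x, hx1, hx2⟩ :=
      Nat.chineseRemainder hc 0 ((2 ^ e + 3 * S) * (2 ^ (e' + 1) - 1))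
    obtain ⟨m, rfl⟩ := (Nat.modEq_zero_iff_dvd).1 hx1
    have h1 : 3 ^ (n + 1) * m + (2 ^ e + 3 * S) ≡ 0 [MOD 2 ^ (e' + 1)] := by
      refine (Nat.ModEq.add_right _ hx2).trans ?_
      rw [Nat.modEq_zero_iff_dvd]
      refine ⟨2 ^ e + 3 * S, ?_⟩
      obtain ⟨u, hu⟩ : ∃ u, 2 ^ (e' + 1) = u + 1 := Nat.exists_eq_succ_of_ne_zero (by positivity)
      rw [hu, Nat.add_sub_cancel]
      ring
    obtain ⟨y, hy⟩ := (Nat.modEq_zero_iff_dvd).1 h1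
    exact ⟨m, y, hy⟩
  obtain ⟨y1, h1, h2⟩ := step_back (show e < e' + 1 by omega) hmy
  obtain ⟨y2, h3, h4⟩ := step_back (show e' < e' + 1 by omega) (h ▸ hmy)
  have h5 := fwd hS h1
  have h6 := fwd hS' h3
  have e1 : e' = (e' - e - 1) + (e + 1) := by omega
  rw [e1, Function.iterate_add_apply, Function.iterate_succ_apply', h5] at h6
  have e2 : 2 ^ (e' + 1 - e) * y = 2 * (2 ^ (1 + (e' - e - 1)) * y) := by
    have : e' + 1 - e = 1 + (e' - e - 1) + 1 := by omega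
    rw [this, pow_succ]; ring
  rw [tm_odd (h2.trans e2), tm_iter_two_pow] at h6
  have e3 : e' + 1 - e' = 1 := by omega
  rw [e3] at h4
  omega

/-- the numerator `S` of a word of `n` odd steps with total exponent `b` hits `z` -/
def ht (n b : ℕ) (z : ℤ) (S : ℕ) : Prop :=
  (3 : ℤ) ^ n ∣ 2 ^ b * z - S ∧ (2 ^ b * z - S) / 3 ^ n % 3 ≠ 0

lemma ht_succ {n b a : ℕ} {z z1 : ℤ} {S : ℕ} (hz : 2 ^ a * z = 3 * z1 + 1) (h : ht n b z1 S) :
    ht (n + 1) (b + a) z (2 ^ b + 3 * S) := by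
  have e : (2 : ℤ) ^ (b + a) * z - ((2 ^ b + 3 * S : ℕ) : ℤ) = 3 * (2 ^ b * z1 - S) := by
    have : (2 : ℤ) ^ (b + a) * z = 2 ^ b * (2 ^ a * z) := by rw [pow_add]; ring
    rw [this, hz]; push_cast; ring
  obtain ⟨h1, h2⟩ := h
  unfold ht
  rw [e, pow_succ, mul_comm ((3 : ℤ) ^ n) 3]
  refine ⟨mul_dvd_mul_left _ h1, ?_⟩
  rw [Int.mul_ediv_mul_of_pos _ _ (by norm_num)]
  exact h2

/-- there is a word hitting `z` -/
def Ex (n b : ℕ) (z : ℤ) : Prop := ∃ S ∈ W n b, ht n b z S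

lemma Ex_succ {n b a : ℕ} (ha : 1 ≤ a) {z z1 : ℤ} (hz : 2 ^ a * z = 3 * z1 + 1) (h : Ex n b z1) :
    Ex (n + 1) (b + a) z := by
  obtain ⟨S, hS, h⟩ := h
  exact ⟨2 ^ b + 3 * S, mem_W_succ.2 ⟨b, by omega, S, hS, rfl⟩, ht_succ hz h⟩

lemma Ex_zero {z : ℤ} (hz : z % 3 ≠ 0) : Ex 0 0 z := by
  refine ⟨0, mem_W_zero.2 ⟨rfl, rfl⟩, ?_, ?_⟩
  · simp
  · simpa using hz

lemma step_int {a : ℕ} {z : ℤ} {c : ℤ} (hc : c % 3 = 1) (h : 2 ^ a * z % 9 = c) :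
    ∃ z1 : ℤ, 2 ^ a * z = 3 * z1 + 1 ∧ z1 % 3 = (c - 1) / 3 := by
  refine ⟨(2 ^ a * z - 1) / 3, ?_, ?_⟩ <;> omega

lemma pow_mod9 (k : ℕ) (w : ℤ) : (2 : ℤ) ^ k * w % 9 = 2 ^ (k % 6) * (w % 9) % 9 := by
  have h1 : (2 : ℤ) ^ k ≡ 2 ^ (k % 6) [ZMOD 9] := by
    conv_lhs => rw [← Nat.mod_add_div k 6, pow_add, pow_mul]
    have h2 : ((2 : ℤ) ^ 6) ^ (k / 6) ≡ 1 ^ (k / 6) [ZMOD 9] :=
      Int.ModEq.pow _ (by decide)
    have h3 := Int.ModEq.mul_left ((2 : ℤ) ^ (k % 6)) h2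
    simpa using h3
  exact Int.ModEq.mul h1 (Int.mod_modEq w 9).symm

lemma fin_step : ∀ w < 9, w % 3 ≠ 0 → ∃ a < 5, 1 ≤ a ∧ (2 ^ a * w % 9 = 4 ∨ 2 ^ a * w % 9 = 7) := by
  decide

lemma fin_step' : ∀ w < 9, w % 3 ≠ 0 → (∃ a < 7, 1 ≤ a ∧ 2 ^ a * w % 9 = 4) ∧
    (∃ a < 7, 1 ≤ a ∧ 2 ^ a * w % 9 = 7) := by
  decide

lemma fin_base : ∀ w < 27, w % 3 ≠ 0 → ∀ r < 6, ∃ a < 13, 1 ≤ a ∧ 2 ^ a * w % 3 = 1 ∧
    (2 ^ ((r + 12 - a) % 6) * ((2 ^ a * w - 1) / 3 % 9) % 9 = 4 ∨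
      2 ^ ((r + 12 - a) % 6) * ((2 ^ a * w - 1) / 3 % 9) % 9 = 7) := by
  decide +kernel

lemma cast_mod (z : ℤ) (m : ℕ) (hm : 0 < m) : ∃ w < m, z % m = (w : ℤ) := by
  have h1 := Int.emod_nonneg z (b := m) (by omega)
  have h2 := Int.emod_lt_of_pos z (b := m) (by omega)
  exact ⟨(z % m).toNat, by omega, by omega⟩

lemma cast_mul {m w : ℕ} {z : ℤ} (h : z % m = (w : ℤ)) (c : ℕ) :
    (c : ℤ) * z % m = ((c * w % m : ℕ) : ℤ) := by
  have h1 : z ≡ w [ZMOD m] := by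
    have h2 := (Int.mod_modEq z m).symm
    rwa [h] at h2
  have h3 := Int.ModEq.mul_left (c : ℤ) h1
  push_cast
  exact h3

lemma step_exists {z : ℤ} (hz : z % 3 ≠ 0) : ∃ a : ℕ, 1 ≤ a ∧ a ≤ 4 ∧ ∃ z1 : ℤ,
    2 ^ a * z = 3 * z1 + 1 ∧ z1 % 3 ≠ 0 := by
  obtain ⟨w, hw, hzw⟩ := cast_mod z 9 (by norm_num)
  obtain ⟨a, ha, ha1, h⟩ := fin_step w hw (by push_cast at hzw; omega)
  refine ⟨a, ha1, by omega, ?_⟩
  have e := cast_mul hzw (2 ^ a)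
  push_cast at e
  rcases h with h | h
  · obtain ⟨z1, h1, h2⟩ := step_int (a := a) (z := z) (c := 4) (by norm_num) (by rw [e]; exact_mod_cast h)
    exact ⟨z1, h1, by rw [h2]; norm_num⟩
  · obtain ⟨z1, h1, h2⟩ := step_int (a := a) (z := z) (c := 7) (by norm_num) (by rw [e]; exact_mod_cast h)
    exact ⟨z1, h1, by rw [h2]; norm_num⟩

lemma step_exists' {z : ℤ} (hz : z % 3 ≠ 0) : ∃ a a' : ℕ, 1 ≤ a ∧ a ≤ 6 ∧ 1 ≤ a' ∧ a' ≤ 6 ∧ a ≠ a' ∧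
    ∃ z1 z1' : ℤ, 2 ^ a * z = 3 * z1 + 1 ∧ z1 % 3 ≠ 0 ∧ 2 ^ a' * z = 3 * z1' + 1 ∧ z1' % 3 ≠ 0 := by
  obtain ⟨w, hw, hzw⟩ := cast_mod z 9 (by norm_num)
  obtain ⟨⟨a, ha, ha1, h⟩, ⟨a', ha', ha1', h'⟩⟩ := fin_step' w hw (by push_cast at hzw; omega)
  have e := cast_mul hzw (2 ^ a)
  have e' := cast_mul hzw (2 ^ a')
  push_cast at e e'
  obtain ⟨z1, h1, h2⟩ := step_int (a := a) (z := z) (c := 4) (by norm_num) (by rw [e]; exact_mod_cast h)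
  obtain ⟨z1', h1', h2'⟩ :=
    step_int (a := a') (z := z) (c := 7) (by norm_num) (by rw [e']; exact_mod_cast h')
  refine ⟨a, a', ha1, by omega, ha1', by omega, ?_, z1, z1', h1, by rw [h2]; norm_num, h1',
    by rw [h2']; norm_num⟩
  rintro rfl
  omega

lemma Ex_two {b : ℕ} (hb : 13 ≤ b) {z : ℤ} (hz : z % 3 ≠ 0) : Ex 2 b z := by
  obtain ⟨w, hw, hzw⟩ := cast_mod z 27 (by norm_num)
  obtain ⟨a, ha, ha1, h3, h⟩ := fin_base w hw (by push_cast at hzw; omega) (b % 6)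
    (Nat.mod_lt _ (by norm_num))
  have e := cast_mul hzw (2 ^ a)
  push_cast at e
  -- `z1`
  obtain ⟨u, hu⟩ : ∃ u, 2 ^ a * w = u := ⟨_, rfl⟩
  obtain ⟨Z, hZ⟩ : ∃ Z, (2 : ℤ) ^ a * z = Z := ⟨_, rfl⟩
  have e1 : Z % 27 = (u : ℤ) % 27 := by rw [← hZ, e, ← hu]; push_cast; rfl
  rw [hu] at h3 h
  have h4 : Z = 3 * ((Z - 1) / 3) + 1 := by omega
  have h5 : (Z - 1) / 3 % 9 = (((u - 1) / 3 % 9 : ℕ) : ℤ) := by omega
  have hb' : (b % 6 + 12 - a) % 6 = (b - a) % 6 := by omega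
  rw [hb'] at h
  have h6 : Ex 1 (b - a) ((Z - 1) / 3) := by
    have key : ∀ c : ℕ, (2 ^ ((b - a) % 6) * ((u - 1) / 3 % 9)) % 9 = c →
        (2 : ℤ) ^ (b - a) * ((Z - 1) / 3) % 9 = c := by
      intro c hc
      rw [pow_mod9, h5, ← hc]
      push_cast
      rfl
    rcases h with h | h
    · obtain ⟨z2, h7, h8⟩ := step_int (a := b - a) (z := (Z - 1) / 3) (c := 4) (by norm_num)
        (by exact_mod_cast key 4 h)
      have := Ex_succ (n := 0) (b := 0) (a := b - a) (by omega) h7 (Ex_zero (by rw [h8]; norm_num))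
      simpa using this
    · obtain ⟨z2, h7, h8⟩ := step_int (a := b - a) (z := (Z - 1) / 3) (c := 7) (by norm_num)
        (by exact_mod_cast key 7 h)
      have := Ex_succ (n := 0) (b := 0) (a := b - a) (by omega) h7 (Ex_zero (by rw [h8]; norm_num))
      simpa using this
  have h7 := Ex_succ ha1 (hZ.trans h4) h6
  have e2 : b - a + a = b := by omega
  rw [e2] at h7
  exact h7

lemma Ex_all {n : ℕ} : ∀ {b : ℕ}, 4 * (n + 2) + 5 ≤ b → ∀ {z : ℤ}, z % 3 ≠ 0 → Ex (n + 2) b z := by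
  induction n with
  | zero => intro b hb z hz; exact Ex_two (by omega) hz
  | succ n ih =>
    intro b hb z hz
    obtain ⟨a, ha1, ha4, z1, h1, h2⟩ := step_exists hz
    have h3 := Ex_succ ha1 h1 (ih (b := b - a) (by omega) h2)
    have e2 : b - a + a = b := by omega
    rw [e2] at h3
    exact h3

/-- every class has two letters -/
theorem two_letters {n : ℕ} (hn : 3 ≤ n) {z : ℤ} (hz : z % 3 ≠ 0) :
    2 ≤ #((W n (4 * n + 7)).filter fun S : ℕ =>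
      (3 : ℤ) ^ n ∣ 2 ^ (4 * n + 7) * z - S ∧ (2 ^ (4 * n + 7) * z - S) / 3 ^ n % 3 ≠ 0) := by
  obtain ⟨k, rfl⟩ : ∃ k, n = k + 2 + 1 := ⟨n - 3, by omega⟩
  obtain ⟨b, hb⟩ : ∃ b, b = 4 * (k + 2 + 1) + 7 := ⟨_, rfl⟩
  rw [← hb]
  obtain ⟨a, a', ha1, ha6, ha1', ha6', hne, z1, z1', h1, h2, h1', h2'⟩ := step_exists' hz
  obtain ⟨S, hS, hS2⟩ := Ex_all (n := k) (b := b - a) (by omega) h2
  obtain ⟨S', hS', hS2'⟩ := Ex_all (n := k) (b := b - a') (by omega) h2'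
  have t1 := ht_succ h1 hS2
  have t2 := ht_succ h1' hS2'
  have e2 : b - a + a = b := by omega
  have e2' : b - a' + a' = b := by omega
  rw [e2] at t1
  rw [e2'] at t2
  apply Finset.one_lt_card.2
  refine ⟨2 ^ (b - a) + 3 * S, ?_, 2 ^ (b - a') + 3 * S', ?_, ?_⟩
  · exact Finset.mem_filter.2 ⟨mem_W_succ.2 ⟨b - a, (by omega), S, hS, rfl⟩, t1⟩
  · exact Finset.mem_filter.2 ⟨mem_W_succ.2 ⟨b - a', (by omega), S', hS', rfl⟩, t2⟩
  · intro h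
    have := W_fst hS hS' h
    omega

theorem exists_sys {n : ℕ} (hn : 10 ≤ n) :
    ∃ s : Sys, s.n0 = n ∧ s.B = 4 * n + 7 ∧ s.Ls = W n (4 * n + 7) := by
  refine ⟨⟨n, 4 * n + 7, W n (4 * n + 7), by omega, ?_, ?_, ?_, ?_, ?_⟩, rfl, rfl, rfl⟩
  · obtain ⟨k, rfl⟩ : ∃ k, n = k + 10 := ⟨n - 10, by omega⟩
    have e1 : 2 ^ (4 * (k + 10) + 7) = (2 ^ 4) ^ k * 2 ^ 47 := by
      rw [← pow_mul, ← pow_add]; ring_nf
    have e2 : 3 ^ (3 * (k + 10)) = (3 ^ 3) ^ k * 3 ^ 30 := by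
      rw [← pow_mul, ← pow_add]; ring_nf
    rw [e1, e2]
    exact Nat.mul_le_mul (Nat.pow_le_pow_left (by norm_num) _) (by norm_num)
  · intro S hS
    obtain ⟨k, rfl⟩ : ∃ k, n = k + 1 := ⟨n - 1, by omega⟩
    obtain ⟨e, _, S', _, rfl⟩ := mem_W_succ.1 hS
    have h1 : ¬ (3 ∣ 2 ^ e) := fun h => by
      have := Nat.Prime.dvd_of_dvd_pow Nat.prime_three h
      omega
    omega
  · intro S hS
    exact W_lt hS
  · intro k S hS T hT S' hS' T' hT' h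
    exact W_uniq hS hS' (Cw_subset _ _ _ hT) (Cw_subset _ _ _ hT') h
  · intro z hz
    exact two_letters (by omega) hz

end Pool.Agent.LqLow
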