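import Pool.Agent.LqLow.ThmA
import Pool.Agent.LqLow.CardW
import Pool.Agent.LqLow.ACz
import Pool.Agent.LqLow.Words

open Finset

namespace Pool.Agent.LqLow

open Pool.Agent.LqFlat

/-- the landed upper half, for integers -/
lemma cz_le_upper {ε : ℝ} (hε : 0 < ε) : ∃ K : ℕ, ∀ k : ℕ, K ≤ k → ∀ z : ℤ,
    cz k z ≤ (4 / 3 : ℝ) ^ ((1 + ε) * k) := by
  obtain ⟨K, hK⟩ := upper hε
  refine ⟨K, fun k hk z => ?_⟩
  have hM : ((3 ^ (k + 1) : ℕ) : ℤ) ≠ 0 := by positivity
  have h8 : 0 ≤ z % ((3 ^ (k + 1) : ℕ) : ℤ) := Int.emod_nonneg _ hM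
  have h1 : cz k z = cz k (z % ((3 ^ (k + 1) : ℕ) : ℤ)) := by
    apply (cz_per k).eq_of
    exact Int.dvd_self_sub_emod
  rw [h1, ← Int.toNat_of_nonneg h8, ← cz_ncard]
  refine le_trans ?_ (hK k hk (z % ((3 ^ (k + 1) : ℕ) : ℤ)).toNat)
  have h : {m : ℕ | tm^[k] m = (z % ((3 ^ (k + 1) : ℕ) : ℤ)).toNat ∧ m % 3 ≠ 0}
      ⊆ {m : ℕ | tm^[k] m = (z % ((3 ^ (k + 1) : ℕ) : ℤ)).toNat} := fun m hm => hm.1
  exact_mod_cast Set.ncard_le_ncard h (leaves_finite k _)

/-- lower bound for the words of a system of the `3x+1` map -/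
lemma A_ge (s : Sys) (hs : s.Ls = W s.n0 s.B) {ε : ℝ} (hε : 0 < ε) : ∃ m0 : ℕ, ∀ m : ℕ, m0 ≤ m →
    ∀ z : ℤ, z % 3 ≠ 0 →
    Real.exp ((2 * Real.log s.Q - 2 * (s.n0 * Real.log 3) - s.B * Real.log (4 / 3) - ε) * m)
      ≤ s.A m z := by
  set l3 : ℝ := s.n0 * Real.log 3 with hl3
  set lam : ℝ := s.B * Real.log (4 / 3) with hlam
  have hlog : 0 < Real.log (4 / 3) := Real.log_pos (by norm_num)
  have hlam0 : 0 ≤ lam := by positivity
  have hQ := s.Q_pos
  have hQm : ∀ m : ℕ, (s.Q ^ m)⁻¹ = Real.exp (-Real.log s.Q * m) := by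
    intro m
    have : -Real.log s.Q * m = -(Real.log (s.Q ^ m)) := by rw [Real.log_pow]; ring
    rw [this, Real.exp_neg, Real.exp_log (by positivity)]
  have hBpos : 0 < s.B := by
    by_contra h
    have hB0 : s.B = 0 := by omega
    have h1 := s.two 1 (by norm_num)
    have h2 : s.Ls = ∅ := by
      rw [hs, hB0]
      apply Finset.eq_empty_of_forall_notMem
      intro S hS
      have := W_le hS
      have := s.n0pos
      omega
    rw [h2] at h1
    simp at h1
  have key := s.thmA (lam + l3 - Real.log s.Q) (by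
    intro δ hδ
    obtain ⟨K, hK⟩ := cz_le_upper (ε := δ / (lam + 1)) (by positivity)
    refine ⟨K, fun m hm z => ?_⟩
    have h1 := s.nu_le_A m z
    have h2 := A_le_cz s hs m z
    have hKB : K ≤ s.B * m := hm.trans (Nat.le_mul_of_pos_left _ hBpos)
    have h3 := hK (s.B * m) hKB z
    have hm0 : (0 : ℝ) ≤ m := Nat.cast_nonneg _
    have h4 : (4 / 3 : ℝ) ^ ((1 + δ / (lam + 1)) * ((s.B * m : ℕ) : ℝ))
        ≤ Real.exp ((lam + δ) * m) := by
      rw [Real.rpow_def_of_pos (by norm_num)]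
      apply Real.exp_le_exp.2
      push_cast
      have e1 : Real.log (4 / 3) * ((1 + δ / (lam + 1)) * (s.B * m))
          = (lam + δ * (lam / (lam + 1))) * m := by
        rw [hlam]; ring
      rw [e1]
      apply mul_le_mul_of_nonneg_right _ hm0
      have h5 : lam / (lam + 1) ≤ 1 := by
        rw [div_le_one (by positivity)]; linarith
      have := mul_le_mul_of_nonneg_left h5 hδ.le
      linarith
    have h5 := h2.trans (h3.trans h4)
    refine h1.trans ?_
    rw [hQm]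
    calc Real.exp (-Real.log s.Q * m) * s.A m z
        ≤ Real.exp (-Real.log s.Q * m) * Real.exp ((lam + δ) * m) :=
          mul_le_mul_of_nonneg_left h5 (Real.exp_pos _).le
      _ = _ := by
          rw [← Real.exp_add]; congr 1; ring) ε hε
  obtain ⟨m0, hm0⟩ := key
  refine ⟨m0, fun m hm z hz => ?_⟩
  have h1 := (hm0 m hm z hz).trans (s.nu_le_A m z)
  rw [hQm, ← div_le_iff₀' (Real.exp_pos _), ← Real.exp_sub] at h1
  refine le_trans (le_of_eq ?_) h1
  congr 1
  ring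

theorem lower_half {ε : ℝ} (hε : 0 < ε) : ∃ K : ℕ, ∀ k : ℕ, K ≤ k → ∀ a : ℤ, a % 3 ≠ 0 →
    (4 / 3 : ℝ) ^ ((1 - ε) * k) ≤ cz k a := by
  -- reduction to `ε ≤ 1 / 2`
  wlog hε1 : ε ≤ 1 / 2 generalizing ε with H
  · obtain ⟨K, hK⟩ := H (ε := 1 / 2) (by norm_num) le_rfl
    refine ⟨K, fun k hk a ha => le_trans ?_ (hK k hk a ha)⟩
    apply Real.rpow_le_rpow_of_exponent_le (by norm_num)
    apply mul_le_mul_of_nonneg_right _ (Nat.cast_nonneg _)
    linarith
  have hlog : 0 < Real.log (4 / 3) := Real.log_pos (by norm_num)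
  obtain ⟨c, hc, hcard⟩ := card_W_ge
  -- the choice of `n0`
  obtain ⟨r, hr⟩ := exists_nat_gt ((4 + 2 * |Real.log c|) / (ε * Real.log (4 / 3)) + 4)
  have hr4 : 4 ≤ r := by
    have h1 : (0 : ℝ) ≤ (4 + 2 * |Real.log c|) / (ε * Real.log (4 / 3)) := by positivity
    have : ((4 : ℕ) : ℝ) ≤ r := by push_cast; linarith
    exact_mod_cast this
  have hrr : (4 : ℝ) ≤ r := by exact_mod_cast hr4
  have hr1 : 4 + 2 * |Real.log c| ≤ r * (ε * Real.log (4 / 3)) := by
    rw [← div_le_iff₀ (by positivity)]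
    linarith
  set n : ℕ := r ^ 2 with hn
  have hn10 : 10 ≤ n := by rw [hn]; nlinarith
  obtain ⟨s, hs1, hs2, hs3⟩ := exists_sys hn10
  have hs : s.Ls = W s.n0 s.B := by rw [hs1, hs2, hs3]
  set lam : ℝ := s.B * Real.log (4 / 3) with hlam
  have hBr : (s.B : ℝ) = 4 * n + 7 := by rw [hs2]; push_cast; ring
  have hnr : (n : ℝ) = r ^ 2 := by rw [hn]; push_cast; ring
  have hn0 : (0 : ℝ) < n := by rw [hnr]; positivity
  have hlam0 : 0 < lam := by rw [hlam, hBr]; positivity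
  -- lower bound of `log Q`
  have hQlog : Real.log c + lam + s.n0 * Real.log 3 - 2 * r ≤ Real.log s.Q := by
    have h1 := hcard n (by omega)
    have h2 : s.Q = (#(W n (4 * n + 7)) : ℝ) := by
      unfold Sys.Q
      rw [hs3]
    rw [← h2] at h1
    have h3 := Real.log_le_log (by positivity) h1
    rw [Real.log_div (by positivity) (by positivity), Real.log_mul (by positivity) (by positivity),
      Real.log_mul (by positivity) (by positivity), Real.log_pow, Real.log_pow] at h3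
    have h4 : Real.log n ≤ 2 * r := by
      rw [hnr, Real.log_pow]
      have := Real.log_le_sub_one_of_pos (show (0 : ℝ) < r by linarith)
      push_cast
      linarith
    rw [hlam, hs1, hs2]
    linarith
  have hmain : 2 * (2 * r - Real.log c) ≤ ε / 4 * lam := by
    have h1 := neg_abs_le (Real.log c)
    have h2 : ε / 4 * lam = ε * Real.log (4 / 3) * (n + 7 / 4) := by
      rw [hlam, hBr]; ring
    have h3 : r * (4 + 2 * |Real.log c|) ≤ r * (r * (ε * Real.log (4 / 3))) :=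
      mul_le_mul_of_nonneg_left hr1 (by linarith)
    have h4 : 0 ≤ ε * Real.log (4 / 3) * (7 / 4) := by positivity
    have h5 : |Real.log c| ≤ r * |Real.log c| := by
      have := abs_nonneg (Real.log c)
      nlinarith
    rw [h2, hnr, mul_add]
    have h6 : ε * Real.log (4 / 3) * (r : ℝ) ^ 2 = r * (r * (ε * Real.log (4 / 3))) := by ring
    rw [h6]
    linarith
  obtain ⟨m0, hm0⟩ := A_ge s hs (ε := ε / 4 * lam) (by positivity)
  obtain ⟨m1, hm1⟩ := exists_nat_gt (2 / ε)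
  have hBn : 0 < s.B := by rw [hs2]; omega
  refine ⟨s.B * (max m0 m1 + 1), fun k hk a ha => ?_⟩
  set m : ℕ := k / s.B with hm
  have hmge : max m0 m1 ≤ m := by
    rw [hm, Nat.le_div_iff_mul_le hBn]
    have : max m0 m1 * s.B ≤ s.B * (max m0 m1 + 1) := by
      rw [mul_comm]; exact Nat.mul_le_mul_left _ (Nat.le_succ _)
    exact this.trans hk
  have hmk : s.B * m ≤ k := Nat.mul_div_le k s.B
  have hkm : k < s.B * (m + 1) := by
    rw [hm]; exact Nat.lt_mul_div_succ k hBn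
  refine le_trans ?_ (cz_mono hmk a)
  have hunit : (2 ^ (k - s.B * m) * a) % 3 ≠ 0 := by
    intro h
    apply ha
    have h1 : (3 : ℤ) ∣ 2 ^ (k - s.B * m) * a := Int.dvd_of_emod_eq_zero h
    have h2 : IsCoprime (3 : ℤ) (2 ^ (k - s.B * m)) := by
      apply IsCoprime.pow_right
      norm_num
    exact Int.emod_eq_zero_of_dvd (h2.dvd_of_dvd_mul_left h1)
  refine le_trans ?_ (A_le_cz s hs m _)
  refine le_trans ?_ (hm0 m ((le_max_left _ _).trans hmge) _ hunit)
  rw [Real.rpow_def_of_pos (by norm_num)]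
  apply Real.exp_le_exp.2
  have hmr : 2 / ε < m := lt_of_lt_of_le hm1 (by exact_mod_cast (le_max_right _ _).trans hmge)
  rw [div_lt_iff₀ hε] at hmr
  have hm0r : (0 : ℝ) ≤ m := Nat.cast_nonneg _
  have hkr : (k : ℝ) ≤ s.B * (m + 1) := by exact_mod_cast hkm.le
  have h1 : Real.log (4 / 3) * ((1 - ε) * k) ≤ (1 - ε) * ((m + 1) * lam) := by
    have h2 : (1 - ε) * Real.log (4 / 3) * k ≤ (1 - ε) * Real.log (4 / 3) * (s.B * (m + 1)) :=
      mul_le_mul_of_nonneg_left hkr (mul_nonneg (by linarith) hlog.le)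
    calc Real.log (4 / 3) * ((1 - ε) * k) = (1 - ε) * Real.log (4 / 3) * k := by ring
      _ ≤ _ := h2
      _ = _ := by rw [hlam]; ring
  refine h1.trans ?_
  have h3 : lam - ε / 2 * lam
      ≤ 2 * Real.log s.Q - 2 * (s.n0 * Real.log 3) - lam - ε / 4 * lam := by linarith
  have h4 := mul_le_mul_of_nonneg_right h3 hm0r
  refine le_trans ?_ h4
  have h5 : lam * (m * ε) ≥ lam * 2 := mul_le_mul_of_nonneg_left hmr.le hlam0.le
  have h6 : 0 ≤ ε * lam := by positivity
  nlinarith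

end Pool.Agent.LqLow
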