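import Pool.Agent.LqLow.DefsMinus
import Pool.Agent.LqLow.LFinal

open Finset Filter Topology

namespace Pool.Agent.LqLow

open Pool.Agent.LqFlat

lemma Nstar_lower {ε : ℝ} (hε : 0 < ε) : ∃ K : ℕ, ∀ k : ℕ, K ≤ k → ∀ a : ℕ, a % 3 ≠ 0 →
    (4 / 3 : ℝ) ^ ((1 - ε) * k) ≤ Nstar k a := by
  obtain ⟨K, hK⟩ := lower_half hε
  refine ⟨K, fun k hk a ha => ?_⟩
  rw [Nstar_eq]
  exact hK k hk a (by omega)

lemma Nminus_spec (k : ℕ) : ∃ a ∈ classes k, Nminus k = Nstar k a :=
  Finset.exists_mem_eq_inf' (classes_nonempty k) (Nstar k)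

lemma Nminus_le_pow (k : ℕ) : (Nminus k : ℝ) ≤ (4 / 3 : ℝ) ^ k := by
  have h1 : ∑ a ∈ classes k, (Nminus k : ℝ) ≤ ∑ a ∈ classes k, (Nstar k a : ℝ) :=
    Finset.sum_le_sum fun a ha => by exact_mod_cast Finset.inf'_le (Nstar k) ha
  rw [sum_Nstar, Finset.sum_const, nsmul_eq_mul, card_classes] at h1
  rw [div_pow, le_div_iff₀ (by positivity)]
  linarith

/-- two-sided bounds imply the limit of the logarithms -/
lemma tendsto_log_of_bounds {f : ℕ → ℝ} (h1 : ∀ ε : ℝ, 0 < ε → ∃ K : ℕ, ∀ k : ℕ, K ≤ k →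
      (4 / 3 : ℝ) ^ ((1 - ε) * k) ≤ f k)
    (h2 : ∀ ε : ℝ, 0 < ε → ∃ K : ℕ, ∀ k : ℕ, K ≤ k → f k ≤ (4 / 3 : ℝ) ^ ((1 + ε) * k)) :
    Tendsto (fun k : ℕ => Real.log (f k) / k) atTop (𝓝 (Real.log (4 / 3))) := by
  have hl : 0 < Real.log (4 / 3) := Real.log_pos (by norm_num)
  rw [tendsto_order]
  constructor
  · intro u hu
    set ε : ℝ := (Real.log (4 / 3) - u) / (2 * Real.log (4 / 3)) with hε
    have hε0 : 0 < ε := div_pos (by linarith) (by positivity)
    have hεl : ε * Real.log (4 / 3) = (Real.log (4 / 3) - u) / 2 := by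
      rw [hε]; field_simp
    obtain ⟨K, hK⟩ := h1 ε hε0
    filter_upwards [eventually_ge_atTop (max K 1)] with k hk
    have hk0 : (0 : ℝ) < k := by
      have : 1 ≤ k := (le_max_right _ _).trans hk
      exact_mod_cast this
    have h3 := Real.log_le_log (by positivity) (hK k ((le_max_left _ _).trans hk))
    rw [Real.log_rpow (by norm_num)] at h3
    rw [lt_div_iff₀ hk0]
    refine lt_of_lt_of_le ?_ h3
    have h4 : u < (1 - ε) * Real.log (4 / 3) := by
      rw [sub_mul, one_mul, hεl]; linarith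
    have := mul_lt_mul_of_pos_right h4 hk0
    linarith
  · intro u hu
    set ε : ℝ := (u - Real.log (4 / 3)) / (2 * Real.log (4 / 3)) with hε
    have hε0 : 0 < ε := div_pos (by linarith) (by positivity)
    have hεl : ε * Real.log (4 / 3) = (u - Real.log (4 / 3)) / 2 := by
      rw [hε]; field_simp
    obtain ⟨K, hK⟩ := h2 ε hε0
    obtain ⟨K', hK'⟩ := h1 ε hε0
    filter_upwards [eventually_ge_atTop (max (max K K') 1)] with k hk
    have hk0 : (0 : ℝ) < k := by
      have : 1 ≤ k := (le_max_right _ _).trans hk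
      exact_mod_cast this
    have hkK : max K K' ≤ k := (le_max_left _ _).trans hk
    have hf : 0 < f k := lt_of_lt_of_le (by positivity) (hK' k ((le_max_right _ _).trans hkK))
    have h3 := Real.log_le_log hf (hK k ((le_max_left _ _).trans hkK))
    rw [Real.log_rpow (by norm_num)] at h3
    rw [div_lt_iff₀ hk0]
    refine lt_of_le_of_lt h3 ?_
    have h4 : (1 + ε) * Real.log (4 / 3) < u := by
      rw [add_mul, one_mul, hεl]; linarith
    have := mul_lt_mul_of_pos_right h4 hk0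
    linarith

theorem minus_limit :
    Tendsto (fun k : ℕ => Real.log (Nminus k) / k) atTop (𝓝 (Real.log (4 / 3))) := by
  apply tendsto_log_of_bounds
  · intro ε hε
    obtain ⟨K, hK⟩ := Nstar_lower hε
    refine ⟨K, fun k hk => ?_⟩
    obtain ⟨a, ha, h⟩ := Nminus_spec k
    rw [h]
    exact hK k hk a (by
      unfold classes at ha
      exact (Finset.mem_filter.1 ha).2)
  · intro ε hε
    refine ⟨0, fun k _ => (Nminus_le_pow k).trans ?_⟩
    rw [← Real.rpow_natCast]
    apply Real.rpow_le_rpow_of_exponent_le (by norm_num)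
    have : (0 : ℝ) ≤ k := Nat.cast_nonneg k
    nlinarith

end Pool.Agent.LqLow
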