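import Pool.Agent.LqFlat.Main

open Finset

/-!
Definitions for the lower half of MP_845cb7_nt (see `/team-store/MP845_LOWER_Proof.md`).

A system `s : Sys` is a finite set `s.Ls` of letters (numerators), all with the same denominator
`3 ^ s.n0` and the same multiplier `2 ^ s.B`; the letter `S` leads from `z` to
`(2 ^ s.B * z - S) / 3 ^ s.n0`. A word of `n` letters is represented by its numerator
`C ∈ s.C n`; it leads from `z` to the node `(2 ^ (s.B * n) * z - C) / 3 ^ (s.n0 * n)`.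
-/

namespace Pool.Agent.LqLow

open Pool.Agent.LqFlat

/-- numerators of the words of `n` letters -/
def Cw (n0 B : ℕ) (Ls : Finset ℕ) : ℕ → Finset ℕ
  | 0 => {0}
  | n + 1 => (Ls ×ˢ Cw n0 B Ls n).image fun p => 2 ^ (B * n) * p.1 + 3 ^ n0 * p.2

/-- a homogeneous system of letters -/
structure Sys where
  /-- number of odd steps of a letter -/
  n0 : ℕ
  /-- exponent of a letter -/
  B : ℕ
  /-- the letters -/
  Ls : Finset ℕ
  n0pos : 1 ≤ n0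
  hB : 2 ^ B ≤ 3 ^ (3 * n0)
  L3 : ∀ S ∈ Ls, S % 3 ≠ 0
  Llt : ∀ S ∈ Ls, S < 3 ^ n0 * 2 ^ B
  uniq : ∀ n, ∀ S ∈ Ls, ∀ T ∈ Cw n0 B Ls n, ∀ S' ∈ Ls, ∀ T' ∈ Cw n0 B Ls n,
    2 ^ (B * n) * S + 3 ^ n0 * T = 2 ^ (B * n) * S' + 3 ^ n0 * T' → S = S' ∧ T = T'
  two : ∀ z : ℤ, z % 3 ≠ 0 →
    2 ≤ #(Ls.filter fun S : ℕ =>
      (3 : ℤ) ^ n0 ∣ 2 ^ B * z - S ∧ (2 ^ B * z - S) / 3 ^ n0 % 3 ≠ 0)

namespace Sys

variable (s : Sys)

/-- numerators of the words of `n` letters -/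
def C (n : ℕ) : Finset ℕ := Cw s.n0 s.B s.Ls n

/-- the node of the word `T ∈ s.C n` from `z` -/
def nd (n T : ℕ) (z : ℤ) : ℤ := (2 ^ (s.B * n) * z - T) / 3 ^ (s.n0 * n)

/-- the word `T` hits `z`, with a node prime to `3` -/
def Hit (n : ℕ) (z : ℤ) (T : ℕ) : Prop :=
  (3 : ℤ) ^ (s.n0 * n) ∣ 2 ^ (s.B * n) * z - T ∧ s.nd n T z % 3 ≠ 0

instance (n : ℕ) (z : ℤ) : DecidablePred (s.Hit n z) := fun T => by
  unfold Hit; infer_instance

/-- the words of `n` letters hitting `z` with a node prime to `3` -/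
def Wn (n : ℕ) (z : ℤ) : Finset ℕ := {T ∈ s.C n | s.Hit n z T}

/-- number of words of `n` letters hitting `z` -/
noncomputable def A (n : ℕ) (z : ℤ) : ℝ := #(s.Wn n z)

/-- number of letters -/
noncomputable def Q : ℝ := #s.Ls

/-- the weights of the two classes modulo `3` -/
noncomputable def g (z : ℤ) : ℝ :=
  if z % 3 = 0 then 0 else (#(s.Ls.filter fun S : ℕ => (3 : ℤ) ∣ 2 ^ s.B * z - S) : ℝ) / s.Q

/-- the measure of the cell of `z` modulo `3 * 3 ^ (s.n0 * n)` -/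
noncomputable def nu (n : ℕ) (z : ℤ) : ℝ := (s.Q ^ n)⁻¹ * ∑ T ∈ s.Wn n z, s.g (s.nd n T z)

/-- expectation of `ψ` of the last node, for independent uniform choices of words of
`ns = [n₁, …, n_K]` letters, starting from `z` -/
noncomputable def E : List ℕ → (ℤ → ℝ) → ℤ → ℝ
  | [], ψ, z => ψ z
  | n :: ns, ψ, z => (s.A n z)⁻¹ * ∑ T ∈ s.Wn n z, E ns ψ (s.nd n T z)

/-- the word `T ∈ s.C n` is rich at `X`: the next window of `3 ^ (s.n0 * L)` carries entropy -/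
def Rich (t L n X T : ℕ) : Prop :=
  t * #{T' ∈ s.C n | T' ≡ T [MOD 3 * 3 ^ (s.n0 * (n + X + L))]}
    ≤ #{T' ∈ s.C n | T' ≡ T [MOD 3 * 3 ^ (s.n0 * (n + X))]}

instance (t L n X : ℕ) : DecidablePred (s.Rich t L n X) := fun T => by
  unfold Rich; infer_instance

/-- expected number of indices `i` such that the `i`-th word is rich at `n_{i+1} + … + n_K + x` -/
noncomputable def Rp (t L : ℕ) : List ℕ → ℕ → ℤ → ℝ
  | [], _, _ => 0
  | n :: ns, x, z => (s.A n z)⁻¹ * ∑ T ∈ s.Wn n z,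
      ((if s.Rich t L n (ns.sum + x) T then 1 else 0) + Rp t L ns x (s.nd n T z))

end Sys

/-- the class of `x` modulo `m` in `S` -/
def cl (S : Finset ℕ) (m x : ℕ) : Finset ℕ := {y ∈ S | y ≡ x [MOD m]}

/-- block conditional masses of `μ` lie in `[M, U]` (blocks of `D` ternary digits) -/
def Bd (D : ℕ) (M U : ℝ) : ℕ → (ℤ → ℝ) → Prop
  | 0, _ => True
  | L + 1, μ => ∀ e : ℤ, M * mass ((3 ^ D) ^ (L + 1)) μ ≤ mass ((3 ^ D) ^ L) (sl (3 ^ D) e μ) ∧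
      mass ((3 ^ D) ^ L) (sl (3 ^ D) e μ) ≤ U * mass ((3 ^ D) ^ (L + 1)) μ ∧
      Bd D M U L (sl (3 ^ D) e μ)

/-- mass of the `x` with fewer than `G` good double steps -/
noncomputable def few {K : ℕ} (D k L G : ℕ) (τ : Fin K → ℤ → ℝ) : ℝ :=
  ∑ x ∈ box K ((3 ^ D) ^ L), if cnt D k L τ x < G then ∏ i, τ i (x i) else 0

/-- the rich part of a finite set of integers, with respect to the modulus `q` -/
def richPart (t q : ℕ) (Z : Finset ℤ) : Finset ℤ :=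
  {z ∈ Z | t * #{z' ∈ Z | (q : ℤ) ∣ z' - z} ≤ #Z}

/-- the average of `ψ (y - 3 ∑ 2 ^ e_i z_i)` over `z_i ∈ Z_i` -/
noncomputable def av : List (Finset ℤ × ℕ) → (ℤ → ℝ) → ℤ → ℝ
  | [], ψ, y => ψ y
  | p :: l, ψ, y => (#p.1 : ℝ)⁻¹ * ∑ z ∈ p.1, av l ψ (y - 3 * 2 ^ p.2 * z)

/-- total rich fraction -/
noncomputable def rsum (t q : ℕ) : List (Finset ℤ × ℕ) → ℝ
  | [] => 0
  | p :: l => (#(richPart t q p.1) : ℝ) / #p.1 + rsum t q l

end Pool.Agent.LqLow
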