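import Pool.Agent.LqFlat.Defs

open Finset

namespace Pool.Agent.LqLow

open Pool.Agent.LqFlat

lemma classes_nonempty (k : ℕ) : (classes k).Nonempty := by
  refine ⟨1, ?_⟩
  unfold classes
  rw [Finset.mem_filter, Finset.mem_range]
  have h : 3 ^ 1 ≤ 3 ^ (k + 1) := Nat.pow_le_pow_right (by norm_num) (by omega)
  exact ⟨by omega, by norm_num⟩

/-- `N_k^-`, the minimum of `N^*(k, a)` -/
noncomputable def Nminus (k : ℕ) : ℕ := (classes k).inf' (classes_nonempty k) (Nstar k)

end Pool.Agent.LqLow
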