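import Pool.Agent.LqLow.Defs

/-!
Package R4 of the lower half of MP_845cb7_nt: few good double steps.
-/

open Finset

namespace Pool.Agent.LqLow

open Pool.Agent.LqFlat

/-- probability of few double steps, for different `τ i` and a subset of indices -/
theorem few_le {K D k L G B : ℕ} (hK : 0 < K) {τ : Fin K → ℤ → ℝ} (hτ : ∀ i x, 0 ≤ τ i x)
    (hm : ∀ i, mass ((3 ^ D) ^ L) (τ i) = 1) (I : Finset (Fin K)) {a : ℝ}
    (ha : ∀ i ∈ I, ∀ x, τ i x ≤ a) (hGB : K * (2 * G) + k * L ≤ #I * B) :
    few D k L G τ ≤ #I * (√a * √((3 : ℝ) ^ D) ^ B * 2 ^ L) := by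
  classical
  unfold few
  have h1 : ∀ x ∈ box K ((3 ^ D) ^ L), (if cnt D k L τ x < G then
      ∏ i, τ i (x i) else 0) ≤ ∑ j ∈ I, ∏ i, (fun z : ℤ => if i = j then
        (if Br D L (τ i) z.toNat < B then τ i z else 0) else τ i z) (x i) := by
    intro x _
    have hnn : ∀ j : Fin K, 0 ≤ ∏ i, (fun z : ℤ => if i = j then
        (if Br D L (τ i) z.toNat < B then τ i z else 0) else τ i z) (x i) := by
      intro j
      apply Finset.prod_nonneg
      intro i _
      simp only
      split_ifs
      · exact hτ _ _
      · exact le_rfl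
      · exact hτ _ _
    split_ifs with hc
    · have hex : ∃ j ∈ I, Br D L (τ j) (x j) < B := by
        by_contra hcon
        push Not at hcon
        have h2 := sum_Br_le D k L τ x
        have h3 := gd_le D k L τ x
        have h4 : #I * B ≤ ∑ i, Br D L (τ i) (x i) := by
          have h5 : #I * B ≤ ∑ i ∈ I, Br D L (τ i) (x i) := by
            have := Finset.sum_le_sum (s := I) (f := fun _ => B)
              (g := fun i => Br D L (τ i) (x i)) (fun i hi => hcon i hi)
            simpa using this
          exact h5.trans (Finset.sum_le_sum_of_subset (Finset.subset_univ _))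
        have h5 : gd D k L τ x + 1 ≤ 2 * G := by omega
        have h6 : K * (gd D k L τ x + 1) ≤ K * (2 * G) := Nat.mul_le_mul_left _ h5
        nlinarith
      obtain ⟨j, hjI, hj⟩ := hex
      refine le_trans (le_of_eq ?_) (Finset.single_le_sum (f := fun j : Fin K =>
        ∏ i, (fun z : ℤ => if i = j then (if Br D L (τ i) z.toNat < B then τ i z else 0)
          else τ i z) (x i)) (fun j _ => hnn j) hjI)
      apply Finset.prod_congr rfl
      intro i _
      simp only
      split_ifs with h7 h8
      · rfl
      · exfalso; apply h8; rw [h7]; simpa using hj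
      · rfl
    · exact Finset.sum_nonneg fun j _ => hnn j
  refine (Finset.sum_le_sum h1).trans ?_
  rw [Finset.sum_comm]
  have h2 : ∀ j ∈ I, ∑ x ∈ box K ((3 ^ D) ^ L), ∏ i, (fun z : ℤ => if i = j then
        (if Br D L (τ i) z.toNat < B then τ i z else 0) else τ i z) (x i)
      ≤ √a * √((3 : ℝ) ^ D) ^ B * 2 ^ L := by
    intro j hj
    have htail := tail_bound (D := D) (L := L) (B := B) (hτ j) (ha j hj)
    rw [hm, Real.sqrt_one, mul_one] at htail
    have h3 := prod_mass (K := K) (M := (3 ^ D) ^ L) (fun i : Fin K => fun z : ℤ => if i = j then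
        (if Br D L (τ i) z.toNat < B then τ i z else 0) else τ i z)
    rw [h3, ← Finset.mul_prod_erase _ _ (Finset.mem_univ j)]
    have h4 : ∏ i ∈ univ.erase j, mass ((3 ^ D) ^ L) (fun z : ℤ => if i = j then
        (if Br D L (τ i) z.toNat < B then τ i z else 0) else τ i z) = 1 := by
      apply Finset.prod_eq_one
      intro i hi
      have : i ≠ j := Finset.ne_of_mem_erase hi
      simp only [if_neg this]
      exact hm i
    rw [h4, mul_one]
    unfold mass
    simp only [if_true, Int.toNat_natCast]
    exact htail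
  refine (Finset.sum_le_sum fun j hj => h2 j hj).trans (le_of_eq ?_)
  simp

end Pool.Agent.LqLow
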