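import Pool.Agent.LqLow.Defs

open Finset

/-!
Package R3 of the lower half of MP_845cb7_nt: the uniformisation recursion.
-/

namespace Pool.Agent.LqLow

open Pool.Agent.LqFlat

/-- peeling off one block of a convolution -/
lemma CK_mul {K M R : ℕ} (hR : 0 < R) (τ : Fin K → ℤ → ℝ) (μ : ℤ → ℝ) (y : ℤ) :
    CK K (M * R) τ μ y = ∑ c ∈ box K R,
      CK K M (fun i => sl R (c i) (τ i)) (sl R (y - ∑ i, (c i : ℤ)) μ) 0 := by
  unfold CK
  rw [sum_box_mul K M hR]
  refine Finset.sum_congr rfl fun c _ => Finset.sum_congr rfl fun x _ => ?_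
  unfold sl
  push_cast
  congr 2
  rw [Finset.sum_add_distrib, ← Finset.mul_sum]
  ring

/-- the bad mass, one block -/
lemma few_single {K D k L G : ℕ} (τ : Fin K → ℤ → ℝ)
    (hcnt : ∀ x : Fin K → ℕ, cnt D k (L + 1) τ x
        = cnt D k L (fun i => sl (3 ^ D) ((x i % 3 ^ D : ℕ) : ℤ) (τ i)) (fun i => x i / 3 ^ D)) :
    few D k (L + 1) G τ = ∑ c ∈ box K (3 ^ D), few D k L G (fun i => sl (3 ^ D) (c i) (τ i)) := by
  unfold few
  rw [pow_succ, sum_box_mul K _ (by positivity)]
  refine Finset.sum_congr rfl fun c hc => Finset.sum_congr rfl fun x _ => ?_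
  have hc' : ∀ i, c i < 3 ^ D := fun i => Finset.mem_range.1 (Fintype.mem_piFinset.1 hc i)
  have e1 : (fun i => sl (3 ^ D) (((c i + 3 ^ D * x i) % 3 ^ D : ℕ) : ℤ) (τ i))
      = fun i => sl (3 ^ D) (c i : ℤ) (τ i) := by
    ext i
    rw [Nat.add_mul_mod_self_left, Nat.mod_eq_of_lt (hc' i)]
  have e2 : (fun i => (c i + 3 ^ D * x i) / 3 ^ D) = x := by
    ext i
    rw [Nat.add_mul_div_left _ _ (by positivity), Nat.div_eq_of_lt (hc' i), zero_add]
  rw [hcnt, e1, e2]
  unfold sl
  push_cast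
  rfl

/-- the bad mass, two blocks at a good level -/
lemma few_double {K D k L G : ℕ} (τ : Fin K → ℤ → ℝ) (hgood : k ≤ nb D (L + 1) τ) :
    few D k (L + 2) (G + 1) τ
      = ∑ c ∈ box K (3 ^ D * 3 ^ D), few D k L G (fun i => sl (3 ^ D * 3 ^ D) (c i) (τ i)) := by
  unfold few
  have hM : (3 ^ D) ^ (L + 2) = (3 ^ D) ^ L * (3 ^ D * 3 ^ D) := by ring
  rw [hM, sum_box_mul K _ (by positivity)]
  refine Finset.sum_congr rfl fun c hc => Finset.sum_congr rfl fun x _ => ?_
  have hc' : ∀ i, c i < 3 ^ D * 3 ^ D :=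
    fun i => Finset.mem_range.1 (Fintype.mem_piFinset.1 hc i)
  have e1 : (fun i => sl (3 ^ D * 3 ^ D)
      (((c i + 3 ^ D * 3 ^ D * x i) % (3 ^ D * 3 ^ D) : ℕ) : ℤ) (τ i))
      = fun i => sl (3 ^ D * 3 ^ D) (c i : ℤ) (τ i) := by
    ext i
    rw [Nat.add_mul_mod_self_left, Nat.mod_eq_of_lt (hc' i)]
  have e2 : (fun i => (c i + 3 ^ D * 3 ^ D * x i) / (3 ^ D * 3 ^ D)) = x := by
    ext i
    rw [Nat.add_mul_div_left _ _ (by positivity), Nat.div_eq_of_lt (hc' i), zero_add]
  have e3 : cnt D k (L + 2) τ (fun i => c i + 3 ^ D * 3 ^ D * x i)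
      = 1 + cnt D k L (fun i => sl (3 ^ D * 3 ^ D) (c i : ℤ) (τ i)) x := by
    rw [cnt, if_pos hgood, e1, e2]
  rw [e3]
  have e4 : (1 + cnt D k L (fun i => sl (3 ^ D * 3 ^ D) (c i : ℤ) (τ i)) x < G + 1)
      ↔ (cnt D k L (fun i => sl (3 ^ D * 3 ^ D) (c i : ℤ) (τ i)) x < G) := by
    omega
  simp only [e4]
  unfold sl
  push_cast
  rfl

lemma few_zero {K D k L : ℕ} (τ : Fin K → ℤ → ℝ) : few D k L 0 τ = 0 := by
  unfold few
  simp

lemma few_nonneg {K D k L G : ℕ} {τ : Fin K → ℤ → ℝ} (hτ : ∀ i x, 0 ≤ τ i x) :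
    0 ≤ few D k L G τ := by
  unfold few
  refine Finset.sum_nonneg fun x _ => ?_
  split_ifs
  · exact Finset.prod_nonneg fun i _ => hτ i _
  · exact le_rfl

/-- the product of the masses, decomposed into cells -/
lemma prod_mass_cells {K M R : ℕ} (τ : Fin K → ℤ → ℝ) :
    ∑ c ∈ box K R, ∏ i, mass M (sl R (c i) (τ i)) = ∏ i, mass (M * R) (τ i) := by
  have h := prod_mass (K := K) (M := R) (fun i c => mass M (sl R c (τ i)))
  rw [h]
  refine Finset.prod_congr rfl fun i _ => ?_
  rw [mass_mul M R (τ i)]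
  rfl

open Classical in
/-- the weight of the favourable cells: a function whose averages over the cosets of the second
block are bounded below is bounded below after convolution with many branching distributions -/
lemma fav_weight {K D k : ℕ} {U : ℝ} (hU : 0 < U)
    (hk : (1 - (((3 : ℝ) ^ D) ^ 5)⁻¹) ^ k ≤ (1 / (4 * U * (3 ^ D) ^ 2)) ^ 2)
    {π : Fin K → ℤ → ℝ} (hπ : ∀ i x, 0 ≤ π i x) {f : ℤ → ℝ} (hf : Per (3 ^ D * 3 ^ D) f)
    (hf0 : ∀ x, 0 ≤ f x) (hf1 : ∀ x, f x ≤ 1)
    (hfs : ∀ v, 1 / (2 * U) ≤ ∑ j ∈ range (3 ^ D), f (v + (3 ^ D : ℕ) * j))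
    (hb : k ≤ #{i | bra' D (π i)}) (y : ℤ) :
    1 / (4 * U * 3 ^ D) * ∏ i, mass (3 ^ D * 3 ^ D) (π i) ≤ CK K (3 ^ D * 3 ^ D) π f y := by
  have hneR : NeZero (3 ^ D * 3 ^ D) := ⟨by positivity⟩
  have hneP : NeZero (3 ^ D) := ⟨by positivity⟩
  have hQ0 : (0 : ℝ) < (3 : ℝ) ^ D := by positivity
  set Q : ℝ := (3 : ℝ) ^ D with hQ
  set m := ∏ i, mass (3 ^ D * 3 ^ D) (π i) with hm
  have hm0 : 0 ≤ m := Finset.prod_nonneg fun i _ => mass_nonneg (hπ i)
  let fb : ℤ → ℝ := fun x => Q⁻¹ * ∑ j ∈ range (3 ^ D), f (x + (3 ^ D : ℕ) * j)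
  let fp : ℤ → ℝ := fun x => f x - fb x
  have hfbP : Per (3 ^ D) fb := by
    intro x
    simp only [fb]
    congr 1
    have hp : Per (3 ^ D) fun j => f (x + (3 ^ D : ℕ) * j) := by
      intro j
      apply hf.eq_of
      exact ⟨1, by push_cast; ring⟩
    rw [← sum_shift hp 1]
    apply Finset.sum_congr rfl
    intro j _
    congr 1; ring
  have hfbR : Per (3 ^ D * 3 ^ D) fb := by
    intro x
    apply hfbP.eq_of
    exact ⟨(3 ^ D : ℕ), by push_cast; ring⟩
  have hfpR : Per (3 ^ D * 3 ^ D) fp := by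
    intro x; simp only [fp, hf x, hfbR x]
  have hfbc : ∀ (v : ℤ) (j : ℕ), fb (v + (3 ^ D : ℕ) * j) = fb v := by
    intro v j
    apply hfbP.eq_of
    exact ⟨j, by ring⟩
  have hcard : ((3 ^ D : ℕ) : ℝ) = Q := by rw [hQ]; push_cast; rfl
  have hfpV : V (3 ^ D) fp := by
    intro x
    simp only [fp, Finset.sum_sub_distrib]
    have : ∑ j ∈ range (3 ^ D), fb (x + (3 ^ D : ℕ) * j) = Q * fb x := by
      rw [Finset.sum_congr rfl fun j _ => hfbc x j, Finset.sum_const, card_range, nsmul_eq_mul,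
        hcard]
    rw [this]
    simp only [fb]
    rw [← mul_assoc, mul_inv_cancel₀ hQ0.ne', one_mul, sub_self]
  have hfb0 : ∀ x, 1 / (2 * U * Q) ≤ fb x := by
    intro x
    have h1 := hfs x
    simp only [fb]
    have e : 1 / (2 * U * Q) = Q⁻¹ * (1 / (2 * U)) := by field_simp
    rw [e]
    exact mul_le_mul_of_nonneg_left h1 (inv_nonneg.2 hQ0.le)
  have hfb0' : ∀ x, 0 ≤ fb x := fun x => le_trans (by positivity) (hfb0 x)
  have hfb1 : ∀ x, fb x ≤ 1 := by
    intro x
    simp only [fb]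
    have h1 : ∑ j ∈ range (3 ^ D), f (x + (3 ^ D : ℕ) * j) ≤ Q := by
      refine (Finset.sum_le_sum fun j _ => hf1 _).trans (le_of_eq ?_)
      rw [Finset.sum_const, card_range, nsmul_eq_mul, hcard, mul_one]
    calc Q⁻¹ * ∑ j ∈ range (3 ^ D), f (x + (3 ^ D : ℕ) * j) ≤ Q⁻¹ * Q :=
          mul_le_mul_of_nonneg_left h1 (inv_nonneg.2 hQ0.le)
      _ = 1 := inv_mul_cancel₀ hQ0.ne'
  -- the averaged part
  have hb1 : 1 / (2 * U * Q) * m ≤ CK K (3 ^ D * 3 ^ D) π fb y := by
    have e : 1 / (2 * U * Q) * m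
        = ∑ c ∈ box K (3 ^ D * 3 ^ D), (∏ i, π i (c i)) * (1 / (2 * U * Q)) := by
      rw [← Finset.sum_mul, prod_mass, mul_comm]
    rw [e]
    unfold CK
    refine Finset.sum_le_sum fun c _ => ?_
    exact mul_le_mul_of_nonneg_left (hfb0 _) (Finset.prod_nonneg fun _ _ => hπ _ _)
  -- the orthogonal part
  have hρ0 : 0 ≤ (1 - (Q ^ 5)⁻¹) := by
    have : (1 : ℝ) ≤ Q ^ 5 := one_le_pow₀ (one_le_pow₀ (by norm_num))
    have := inv_le_one_of_one_le₀ this
    linarith
  have hρ1 : (1 - (Q ^ 5)⁻¹) ≤ 1 := by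
    have : 0 < (Q ^ 5)⁻¹ := by positivity
    linarith
  have hsq : sq2 (3 ^ D * 3 ^ D) fp ≤ Q ^ 2 := by
    unfold sq2
    have h1 : ∀ x : ℕ, fp x ^ 2 ≤ 1 := by
      intro x
      have h2 : |fp x| ≤ 1 := by
        rw [abs_le]
        constructor
        · have := hf0 (x : ℤ); have := hfb1 (x : ℤ); simp only [fp]; linarith
        · have := hf1 (x : ℤ); have := hfb0' (x : ℤ); simp only [fp]; linarith
      rw [← sq_abs]
      exact pow_le_one₀ (abs_nonneg _) h2
    refine (Finset.sum_le_sum fun x _ => h1 x).trans (le_of_eq ?_)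
    rw [Finset.sum_const, card_range, nsmul_eq_mul, mul_one]
    push_cast
    rw [← hQ]; ring
  have hE2 : sq2 (3 ^ D * 3 ^ D) (CK K (3 ^ D * 3 ^ D) π fp) ≤ (1 / (4 * U * Q) * m) ^ 2 := by
    have h1 := CK_contr (D := D) (K := K) hπ hfpR hfpV
    refine h1.trans ?_
    rw [Finset.prod_mul_distrib, Finset.prod_pow, ← hm, Finset.prod_ite, Finset.prod_const,
      Finset.prod_const_one, mul_one]
    have h2 : (1 - (Q ^ 5)⁻¹) ^ #{i | bra' D (π i)} ≤ (1 / (4 * U * Q ^ 2)) ^ 2 :=
      (pow_le_pow_of_le_one hρ0 hρ1 hb).trans hk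
    calc (1 - (Q ^ 5)⁻¹) ^ #{i | bra' D (π i)} * m ^ 2 * sq2 (3 ^ D * 3 ^ D) fp
        ≤ (1 / (4 * U * Q ^ 2)) ^ 2 * m ^ 2 * Q ^ 2 := by
          apply mul_le_mul _ hsq (sq2_nonneg _ _) (by positivity)
          exact mul_le_mul_of_nonneg_right h2 (sq_nonneg _)
      _ = (1 / (4 * U * Q) * m) ^ 2 := by
          field_simp
  have hpt : |CK K (3 ^ D * 3 ^ D) π fp y| ≤ 1 / (4 * U * Q) * m := by
    have hper := CK_per (K := K) (π := π) hfpR
    have hR0 : (0 : ℤ) < ((3 ^ D * 3 ^ D : ℕ) : ℤ) := by positivity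
    -- reduce to a representative
    have h0 := Int.emod_nonneg y hR0.ne'
    have h1 := Int.emod_lt_of_pos y hR0
    obtain ⟨n, hn⟩ := Int.eq_ofNat_of_zero_le h0
    have hy : CK K (3 ^ D * 3 ^ D) π fp y = CK K (3 ^ D * 3 ^ D) π fp (n : ℤ) := by
      apply hper.eq_of
      rw [← hn]
      exact Int.dvd_self_sub_emod
    rw [hy]
    refine abs_le_of_sq_le_sq ?_ (by positivity)
    refine le_trans ?_ hE2
    have hnlt : n ∈ range (3 ^ D * 3 ^ D) := by
      rw [Finset.mem_range]
      have : (n : ℤ) < ((3 ^ D * 3 ^ D : ℕ) : ℤ) := by rw [← hn]; exact h1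
      exact_mod_cast this
    exact Finset.single_le_sum
      (f := fun u : ℕ => (CK K (3 ^ D * 3 ^ D) π fp u) ^ 2)
      (fun _ _ => sq_nonneg _) hnlt
  have hdec : CK K (3 ^ D * 3 ^ D) π f y
      = CK K (3 ^ D * 3 ^ D) π fb y + CK K (3 ^ D * 3 ^ D) π fp y := by
    unfold CK
    rw [← Finset.sum_add_distrib]
    apply Finset.sum_congr rfl
    intro c _
    simp only [fp]; ring
  rw [hdec]
  have h3 := (abs_le.1 hpt).1
  have e : 1 / (2 * U * Q) * m = 1 / (4 * U * Q) * m + 1 / (4 * U * Q) * m := by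
    field_simp; ring
  rw [e] at hb1
  linarith

/-- the uniformisation recursion -/
theorem lower_rec {K D k : ℕ} {M U p r : ℝ} (hM : 0 < M) (hU : 0 < U)
    (hp : p = 1 / (4 * U * 3 ^ D)) (hp1 : p ≤ 1) (hr : r = 1 / (2 * 3 ^ D * M))
    (hrp : 1 ≤ r * p)
    (hk : (1 - (((3 : ℝ) ^ D) ^ 5)⁻¹) ^ k ≤ (1 / (4 * U * (3 ^ D) ^ 2)) ^ 2) :
    ∀ (L G : ℕ) (τ : Fin K → ℤ → ℝ) (μ : ℤ → ℝ) (y : ℤ), (∀ i x, 0 ≤ τ i x) →
      (∀ i, Per ((3 ^ D) ^ L) (τ i)) → (∀ x, 0 ≤ μ x) → Per ((3 ^ D) ^ L) μ → Bd D M U L μ →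
      M ^ L * (r * p) ^ G * mass ((3 ^ D) ^ L) μ *
          ((∏ i, mass ((3 ^ D) ^ L) (τ i)) - (p⁻¹) ^ G * few D k L G τ)
        ≤ CK K ((3 ^ D) ^ L) τ μ y := by
  classical
  have _ := hrp
  have hneP : NeZero (3 ^ D) := ⟨by positivity⟩
  have hneR : NeZero (3 ^ D * 3 ^ D) := ⟨by positivity⟩
  have hQ0 : (0 : ℝ) < (3 : ℝ) ^ D := by positivity
  have hp0 : 0 < p := by rw [hp]; positivity
  have hr0 : 0 < r := by rw [hr]; positivity
  have hpi : 1 ≤ p⁻¹ := (one_le_inv₀ hp0).2 hp1
  -- the single step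
  have single : ∀ (L : ℕ), (∀ (G : ℕ) (τ : Fin K → ℤ → ℝ) (μ : ℤ → ℝ) (y : ℤ),
      (∀ i x, 0 ≤ τ i x) → (∀ i, Per ((3 ^ D) ^ L) (τ i)) → (∀ x, 0 ≤ μ x) →
      Per ((3 ^ D) ^ L) μ → Bd D M U L μ →
      M ^ L * (r * p) ^ G * mass ((3 ^ D) ^ L) μ *
          ((∏ i, mass ((3 ^ D) ^ L) (τ i)) - (p⁻¹) ^ G * few D k L G τ)
        ≤ CK K ((3 ^ D) ^ L) τ μ y) →
      ∀ (G : ℕ) (τ : Fin K → ℤ → ℝ) (μ : ℤ → ℝ) (y : ℤ),
      (∀ i x, 0 ≤ τ i x) → (∀ i, Per ((3 ^ D) ^ (L + 1)) (τ i)) → (∀ x, 0 ≤ μ x) →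
      Per ((3 ^ D) ^ (L + 1)) μ → Bd D M U (L + 1) μ →
      few D k (L + 1) G τ = ∑ c ∈ box K (3 ^ D), few D k L G (fun i => sl (3 ^ D) (c i) (τ i)) →
      M ^ (L + 1) * (r * p) ^ G * mass ((3 ^ D) ^ (L + 1)) μ *
          ((∏ i, mass ((3 ^ D) ^ (L + 1)) (τ i)) - (p⁻¹) ^ G * few D k (L + 1) G τ)
        ≤ CK K ((3 ^ D) ^ (L + 1)) τ μ y := by
    intro L ih G τ μ y hτ hτp hμ hμp hBd hfew
    rw [hfew, pow_succ (3 ^ D) L, CK_mul (by positivity), ← prod_mass_cells, Finset.mul_sum,
      ← Finset.sum_sub_distrib, Finset.mul_sum]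
    refine Finset.sum_le_sum fun c hc => ?_
    obtain ⟨hB1, hB2, hB3⟩ := hBd (y - ∑ i, (c i : ℤ))
    have hτp' : ∀ i, Per ((3 ^ D) ^ L * 3 ^ D) (τ i) := by
      intro i; rw [← pow_succ]; exact hτp i
    have hμp' : Per ((3 ^ D) ^ L * 3 ^ D) μ := by rw [← pow_succ]; exact hμp
    have h2 := ih G (fun i => sl (3 ^ D) (c i) (τ i)) (sl (3 ^ D) (y - ∑ i, (c i : ℤ)) μ) 0
      (fun i x => hτ i _) (fun i => sl_per (hτp' i) _) (fun x => hμ _) (sl_per hμp' _) hB3
    have h0 : 0 ≤ CK K ((3 ^ D) ^ L) (fun i => sl (3 ^ D) (c i) (τ i))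
        (sl (3 ^ D) (y - ∑ i, (c i : ℤ)) μ) 0 := CK_nonneg (fun i x => hτ i _) (fun x => hμ _) _
    set b := (∏ i, mass ((3 ^ D) ^ L) (sl (3 ^ D) (c i) (τ i)))
      - (p⁻¹) ^ G * few D k L G (fun i => sl (3 ^ D) (c i) (τ i)) with hb
    have hmu0 : 0 ≤ mass ((3 ^ D) ^ L * 3 ^ D) μ := mass_nonneg hμ
    rcases le_total 0 b with hb0 | hb0
    · refine le_trans ?_ h2
      rw [pow_succ (3 ^ D) L] at hB1
      have h3 : M ^ (L + 1) * (r * p) ^ G * mass ((3 ^ D) ^ L * 3 ^ D) μ
          ≤ M ^ L * (r * p) ^ G * mass ((3 ^ D) ^ L) (sl (3 ^ D) (y - ∑ i, (c i : ℤ)) μ) := by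
        calc M ^ (L + 1) * (r * p) ^ G * mass ((3 ^ D) ^ L * 3 ^ D) μ
            = M ^ L * (r * p) ^ G * (M * mass ((3 ^ D) ^ L * 3 ^ D) μ) := by ring
          _ ≤ _ := mul_le_mul_of_nonneg_left hB1 (by positivity)
      exact mul_le_mul_of_nonneg_right h3 hb0
    · refine le_trans ?_ h0
      exact mul_nonpos_of_nonneg_of_nonpos (by positivity) hb0
  intro L
  induction L using Nat.strong_induction_on with
  | _ L ih =>
    rcases L with _ | _ | L
    · intro G τ μ y hτ _ hμ hμp _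
      have hbox : box K ((3 ^ D) ^ 0) = {fun _ => 0} := by
        ext x
        simp only [pow_zero, Fintype.mem_piFinset, Finset.range_one, Finset.mem_singleton]
        constructor
        · intro h; ext i; exact h i
        · intro h i; rw [h]
      have hm : ∀ f : ℤ → ℝ, mass ((3 ^ D) ^ 0) f = f 0 := by
        intro f; unfold mass; simp
      have hp' : 0 ≤ ∏ i, τ i 0 := Finset.prod_nonneg fun i _ => hτ i _
      have hc : CK K ((3 ^ D) ^ 0) τ μ y = (∏ i, τ i 0) * μ 0 := by
        unfold CK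
        rw [hbox, Finset.sum_singleton]
        simp only [Nat.cast_zero, Finset.sum_const_zero, sub_zero]
        congr 1
        exact hμp.eq_of ⟨y, by simp⟩
      rw [hc]
      simp only [hm]
      rw [pow_zero, one_mul]
      rcases Nat.eq_zero_or_pos G with rfl | hG
      · rw [few_zero]
        simp only [pow_zero, one_mul, sub_zero]
        rw [mul_comm]
      · have hf : few D k 0 G τ = ∏ i, τ i 0 := by
          unfold few
          rw [hbox, Finset.sum_singleton]
          have : cnt D k 0 τ (fun _ => 0) < G := by simpa [cnt] using hG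
          rw [if_pos this]
          simp
        rw [hf]
        have h1 : (∏ i, τ i 0) - (p⁻¹) ^ G * ∏ i, τ i 0 ≤ 0 := by
          have : (1 : ℝ) ≤ (p⁻¹) ^ G := one_le_pow₀ hpi
          nlinarith
        refine le_trans (mul_nonpos_of_nonneg_of_nonpos (mul_nonneg (by positivity) (hμ 0)) h1) ?_
        exact mul_nonneg hp' (hμ 0)
    · intro G τ μ y hτ hτp hμ hμp hBd
      exact single 0 (ih 0 (by omega)) G τ μ y hτ hτp hμ hμp hBd
        (few_single τ fun x => by simp [cnt])
    · intro G τ μ y hτ hτp hμ hμp hBd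
      by_cases hgood : k ≤ nb D (L + 1) τ
      · rcases Nat.eq_zero_or_pos G with rfl | hG
        · refine single (L + 1) (ih (L + 1) (by omega)) 0 τ μ y hτ hτp hμ hμp hBd ?_
          rw [few_zero]
          symm
          exact Finset.sum_eq_zero fun c _ => few_zero _
        · obtain ⟨G, rfl⟩ : ∃ g, G = g + 1 := ⟨G - 1, by omega⟩
          -- the double step
          have hMM : (3 ^ D) ^ (L + 2) = (3 ^ D) ^ L * (3 ^ D * 3 ^ D) := by ring
          have hτp' : ∀ i, Per ((3 ^ D) ^ L * (3 ^ D * 3 ^ D)) (τ i) := by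
            intro i; rw [← hMM]; exact hτp i
          have hμp' : Per ((3 ^ D) ^ L * (3 ^ D * 3 ^ D)) μ := by rw [← hMM]; exact hμp
          set A0 : ℝ := mass ((3 ^ D) ^ (L + 2)) μ with hA0def
          have hA0n : 0 ≤ A0 := mass_nonneg hμ
          rcases hA0n.eq_or_lt with hA0z | hA0p
          · rw [← hA0z]
            simp only [mul_zero, zero_mul]
            exact CK_nonneg hτ hμ y
          set A1 : ℤ → ℝ := fun s => mass ((3 ^ D) ^ (L + 1)) (sl (3 ^ D) s μ) with hA1
          set A2 : ℤ → ℝ := fun s => mass ((3 ^ D) ^ L) (sl (3 ^ D * 3 ^ D) s μ) with hA2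
          have hA2n : ∀ s, 0 ≤ A2 s := fun s => mass_nonneg fun x => hμ _
          have hA1b : ∀ s, M * A0 ≤ A1 s := fun s => (hBd s).1
          have hA1pos : ∀ s, 0 < A1 s := fun s => lt_of_lt_of_le (by positivity) (hA1b s)
          have hsum : ∀ v : ℤ, A1 v = ∑ j ∈ range (3 ^ D), A2 (v + (3 ^ D : ℕ) * j) := by
            intro v
            simp only [hA1, hA2]
            rw [pow_succ, mass_mul]
            simp only [sl_sl]
          have hA2U : ∀ (v : ℤ) (j : ℤ), A2 (v + (3 ^ D : ℕ) * j) ≤ U * A1 v := by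
            intro v j
            have h1 := ((hBd v).2.2 j).2.1
            rw [sl_sl] at h1
            exact h1
          have hBd2 : ∀ s, Bd D M U L (sl (3 ^ D * 3 ^ D) s μ) := by
            intro s
            have h1 := ((hBd s).2.2 0).2.2
            rw [sl_sl] at h1
            simpa using h1
          have hA1P : Per (3 ^ D) A1 := by
            intro s
            simp only [hA1]
            have hp2 : Per ((3 ^ D) ^ (L + 1)) (sl (3 ^ D) s μ) := by
              apply sl_per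
              rw [← pow_succ]; exact hμp
            have h1 : sl (3 ^ D) (s + ((3 ^ D : ℕ) : ℤ)) μ = fun x => sl (3 ^ D) s μ (x + 1) := by
              ext x; unfold sl; congr 1; push_cast; ring
            rw [h1]
            unfold mass
            have : NeZero ((3 ^ D) ^ (L + 1)) := ⟨by positivity⟩
            exact sum_shift hp2 1
          have hA2P : Per (3 ^ D * 3 ^ D) A2 := by
            intro s
            simp only [hA2]
            have hp2 : Per ((3 ^ D) ^ L) (sl (3 ^ D * 3 ^ D) s μ) := sl_per hμp' _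
            have h1 : sl (3 ^ D * 3 ^ D) (s + ((3 ^ D * 3 ^ D : ℕ) : ℤ)) μ
                = fun x => sl (3 ^ D * 3 ^ D) s μ (x + 1) := by
              ext x; unfold sl; congr 1; push_cast; ring
            rw [h1]
            unfold mass
            have : NeZero ((3 ^ D) ^ L) := ⟨by positivity⟩
            exact sum_shift hp2 1
          have hA1R : Per (3 ^ D * 3 ^ D) A1 := by
            intro x
            apply hA1P.eq_of
            exact ⟨(3 ^ D : ℕ), by push_cast; ring⟩
          -- favourable cells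
          set f : ℤ → ℝ := fun s => if A1 s ≤ 2 * 3 ^ D * A2 s then 1 else 0 with hf
          have hf0 : ∀ s, 0 ≤ f s := by intro s; simp only [hf]; split_ifs <;> norm_num
          have hf1 : ∀ s, f s ≤ 1 := by intro s; simp only [hf]; split_ifs <;> norm_num
          have hfP : Per (3 ^ D * 3 ^ D) f := by
            intro s; simp only [hf, hA1R s, hA2P s]
          have hfs : ∀ v, 1 / (2 * U) ≤ ∑ j ∈ range (3 ^ D), f (v + (3 ^ D : ℕ) * j) := by
            intro v
            have h1 : ∀ j : ℕ, A1 (v + (3 ^ D : ℕ) * j) = A1 v := by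
              intro j
              apply hA1P.eq_of
              exact ⟨j, by ring⟩
            have h2 : ∀ j ∈ range (3 ^ D), A2 (v + (3 ^ D : ℕ) * j)
                ≤ U * A1 v * f (v + (3 ^ D : ℕ) * j) + A1 v / (2 * 3 ^ D) := by
              intro j _
              simp only [hf, h1 j]
              have h3 := hA2U v j
              have h4 := hA1pos v
              split_ifs with hc
              · have : 0 ≤ A1 v / (2 * 3 ^ D) := by positivity
                linarith
              · have h5 : A2 (v + (3 ^ D : ℕ) * j) ≤ A1 v / (2 * 3 ^ D) := by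
                  rw [le_div_iff₀ (by positivity)]
                  linarith
                linarith
            have h3 := Finset.sum_le_sum h2
            rw [← hsum, Finset.sum_add_distrib, ← Finset.mul_sum, Finset.sum_const, card_range,
              nsmul_eq_mul] at h3
            have h4 := hA1pos v
            have h5 : ((3 ^ D : ℕ) : ℝ) * (A1 v / (2 * 3 ^ D)) = A1 v / 2 := by
              push_cast; field_simp
            rw [h5] at h3
            have h6 : 1 / 2 ≤ U * ∑ j ∈ range (3 ^ D), f (v + (3 ^ D : ℕ) * j) := by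
              by_contra hcon
              push Not at hcon
              nlinarith
            rw [div_le_iff₀ (by positivity)]
            linarith
          -- the distributions of the two blocks
          set π : Fin K → ℤ → ℝ := fun i c => mass ((3 ^ D) ^ L) (sl (3 ^ D * 3 ^ D) c (τ i))
            with hπdef
          have hπ0 : ∀ i x, 0 ≤ π i x := fun i c => mass_nonneg fun x => hτ i _
          have hbr : k ≤ #{i | bra' D (π i)} := by
            refine hgood.trans ?_
            unfold nb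
            apply Finset.card_le_card
            intro i hi
            simp only [Finset.mem_filter, Finset.mem_univ, true_and] at hi ⊢
            intro v hv
            have h5 := hi v hv
            have h6 : mass ((3 ^ D) ^ (L + 1)) (sl (3 ^ D) v (τ i))
                = ∑ j ∈ range (3 ^ D), mass ((3 ^ D) ^ L)
                  (sl (3 ^ D * 3 ^ D) ((v : ℤ) + (3 ^ D : ℕ) * j) (τ i)) := by
              rw [pow_succ, mass_mul]
              simp only [sl_sl]
            have h7 : mass ((3 ^ D) ^ (L + 1 + 1)) (τ i)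
                = mass (3 ^ D * 3 ^ D) fun c => mass ((3 ^ D) ^ L)
                  (sl (3 ^ D * 3 ^ D) c (τ i)) := by
              rw [hMM, mass_mul ((3 ^ D) ^ L) (3 ^ D * 3 ^ D) (τ i)]; rfl
            rw [h6, h7] at h5
            exact h5
          have hπm : ∀ i, mass (3 ^ D * 3 ^ D) (π i) = mass ((3 ^ D) ^ (L + 2)) (τ i) := by
            intro i
            rw [hMM, mass_mul ((3 ^ D) ^ L) (3 ^ D * 3 ^ D) (τ i)]; rfl
          have hfav := fav_weight hU hk hπ0 hfP hf0 hf1 hfs hbr y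
          simp only [hπm] at hfav
          rw [← hp] at hfav
          set m := ∏ i, mass ((3 ^ D) ^ (L + 2)) (τ i) with hmdef
          -- the cells
          rw [few_double τ hgood, hMM, CK_mul (by positivity)]
          have hcell : ∀ c ∈ box K (3 ^ D * 3 ^ D),
              M ^ (L + 2) * (r * p) ^ G * r * A0 *
                ((∏ i, π i (c i)) * f (y - ∑ i, (c i : ℤ))
                  - (p⁻¹) ^ G * few D k L G (fun i => sl (3 ^ D * 3 ^ D) (c i) (τ i)))
              ≤ CK K ((3 ^ D) ^ L) (fun i => sl (3 ^ D * 3 ^ D) (c i) (τ i))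
                (sl (3 ^ D * 3 ^ D) (y - ∑ i, (c i : ℤ)) μ) 0 := by
            intro c _
            set s : ℤ := y - ∑ i, (c i : ℤ) with hs
            have h0 : 0 ≤ CK K ((3 ^ D) ^ L) (fun i => sl (3 ^ D * 3 ^ D) (c i) (τ i))
                (sl (3 ^ D * 3 ^ D) s μ) 0 := CK_nonneg (fun i x => hτ i _) (fun x => hμ _) _
            have hfew0 : 0 ≤ few D k L G (fun i => sl (3 ^ D * 3 ^ D) (c i) (τ i)) :=
              few_nonneg fun i x => hτ i _
            have hK0 : 0 ≤ M ^ (L + 2) * (r * p) ^ G * r * A0 := by positivity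
            have hpG : 0 ≤ (p⁻¹) ^ G := by positivity
            by_cases hc : A1 s ≤ 2 * 3 ^ D * A2 s
            · have hfs1 : f s = 1 := by simp only [hf, if_pos hc]
              rw [hfs1, mul_one]
              have h2 := ih L (by omega) G (fun i => sl (3 ^ D * 3 ^ D) (c i) (τ i))
                (sl (3 ^ D * 3 ^ D) s μ) 0
                (fun i x => hτ i _) (fun i => sl_per (hτp' i) _) (fun x => hμ _) (sl_per hμp' _)
                (hBd2 s)
              rcases le_total 0 ((∏ i, π i (c i))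
                  - (p⁻¹) ^ G * few D k L G (fun i => sl (3 ^ D * 3 ^ D) (c i) (τ i)))
                with hb0 | hb0
              · refine le_trans ?_ h2
                have h3 : M ^ (L + 2) * (r * p) ^ G * r * A0 ≤ M ^ L * (r * p) ^ G * A2 s := by
                  have h4 : M * A0 ≤ 2 * 3 ^ D * A2 s := (hA1b s).trans hc
                  have h5 : M * M * r * A0 ≤ A2 s := by
                    rw [hr]
                    have e : M * M * (1 / (2 * 3 ^ D * M)) * A0 = (M * A0) / (2 * 3 ^ D) := by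
                      field_simp
                    rw [e, div_le_iff₀ (by positivity)]
                    linarith
                  calc M ^ (L + 2) * (r * p) ^ G * r * A0
                      = M ^ L * (r * p) ^ G * (M * M * r * A0) := by ring
                    _ ≤ _ := mul_le_mul_of_nonneg_left h5 (by positivity)
                exact mul_le_mul_of_nonneg_right h3 hb0
              · refine le_trans ?_ h0
                exact mul_nonpos_of_nonneg_of_nonpos hK0 hb0
            · have hfs0 : f s = 0 := by simp only [hf, if_neg hc]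
              rw [hfs0, mul_zero]
              refine le_trans ?_ h0
              apply mul_nonpos_of_nonneg_of_nonpos hK0
              have := mul_nonneg hpG hfew0
              linarith
          refine le_trans ?_ (Finset.sum_le_sum hcell)
          rw [← Finset.mul_sum, Finset.sum_sub_distrib, ← Finset.mul_sum]
          set F := ∑ c ∈ box K (3 ^ D * 3 ^ D),
            few D k L G (fun i => sl (3 ^ D * 3 ^ D) (c i) (τ i)) with hF
          have hW : p * m ≤ ∑ c ∈ box K (3 ^ D * 3 ^ D),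
              (∏ i, π i (c i)) * f (y - ∑ i, (c i : ℤ)) := hfav
          have e : M ^ (L + 2) * (r * p) ^ (G + 1) * A0 * (m - (p⁻¹) ^ (G + 1) * F)
              = M ^ (L + 2) * (r * p) ^ G * r * A0 * (p * m - (p⁻¹) ^ G * F) := by
            rw [pow_succ (r * p), pow_succ (p⁻¹)]
            field_simp
          have e' : M ^ (L + 1 + 1) * (r * p) ^ (G + 1) * A0 * (m - (p⁻¹) ^ (G + 1) * F)
              = M ^ (L + 2) * (r * p) ^ G * r * A0 * (p * m - (p⁻¹) ^ G * F) := e
          refine le_trans (le_of_eq e') ?_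
          apply mul_le_mul_of_nonneg_left _ (by positivity)
          linarith
      · exact single (L + 1) (ih (L + 1) (by omega)) G τ μ y hτ hτp hμ hμp hBd
          (few_single τ fun x => by rw [cnt, if_neg hgood])

end Pool.Agent.LqLow
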