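import Pool.Agent.LqLow.Select
import Pool.Agent.LqLow.LowRec
import Pool.Agent.LqLow.Few

open Finset

namespace Pool.Agent.LqLow

open Pool.Agent.LqFlat

namespace Sys

variable (s : Sys)

/-! ### blocks of the measure -/

lemma mass_nu (D N a : ℕ) (z : ℤ) :
    mass ((3 ^ (s.n0 * D)) ^ N) (fun x => s.nu (a + D * N) (z + 3 * 3 ^ (s.n0 * a) * x))
      = s.nu a z := by
  have h := s.nu_sum a (D * N) z
  unfold mass
  rw [← pow_mul, mul_assoc]
  exact h

lemma bd_nu {D : ℕ} {U : ℝ} (hU : ∀ z : ℤ, s.nu D z ≤ U * s.g z) : ∀ (N a : ℕ) (z : ℤ),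
    Bd (s.n0 * D) (s.M D) U N (fun x => s.nu (a + D * N) (z + 3 * 3 ^ (s.n0 * a) * x)) := by
  intro N
  induction N with
  | zero => intro a z; exact True.intro
  | succ N ih =>
    intro a z e
    have hsl : sl (3 ^ (s.n0 * D)) e (fun x => s.nu (a + D * (N + 1)) (z + 3 * 3 ^ (s.n0 * a) * x))
        = fun x => s.nu ((a + D) + D * N)
          ((z + 3 * 3 ^ (s.n0 * a) * e) + 3 * 3 ^ (s.n0 * (a + D)) * x) := by
      ext x
      unfold sl
      have e1 : a + D * (N + 1) = (a + D) + D * N := by ring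
      have e2 : z + 3 * 3 ^ (s.n0 * a) * (e + ((3 ^ (s.n0 * D) : ℕ) : ℤ) * x)
          = (z + 3 * 3 ^ (s.n0 * a) * e) + 3 * 3 ^ (s.n0 * (a + D)) * x := by
        rw [mul_add s.n0, pow_add]; push_cast; ring
      show s.nu (a + D * (N + 1))
        (z + 3 * 3 ^ (s.n0 * a) * (e + ((3 ^ (s.n0 * D) : ℕ) : ℤ) * x)) = _
      rw [e1, e2]
    rw [hsl, s.mass_nu D N (a + D), s.mass_nu D (N + 1) a]
    have h1 : s.nu a (z + 3 * 3 ^ (s.n0 * a) * e) = s.nu a z := s.nu_shift a z e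
    refine ⟨?_, ?_, ih (a + D) _⟩
    · have := s.M_mul_nu a D (z + 3 * 3 ^ (s.n0 * a) * e)
      rwa [h1] at this
    · have := s.nu_le_mul hU a (z + 3 * 3 ^ (s.n0 * a) * e)
      rwa [h1] at this

lemma one_le_U {D : ℕ} {U : ℝ} (hU : ∀ z : ℤ, s.nu D z ≤ U * s.g z) :
    1 ≤ U * (3 : ℝ) ^ (s.n0 * D) := by
  have h1 := s.nu_sum 0 D 1
  have h2 : ∑ j ∈ range (3 ^ (s.n0 * D)), s.nu (0 + D) (1 + 3 * 3 ^ (s.n0 * 0) * j)
      ≤ ∑ j ∈ range (3 ^ (s.n0 * D)), U * s.g 1 := by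
    apply Finset.sum_le_sum
    intro j _
    rw [zero_add, mul_zero, pow_zero, mul_one]
    refine (hU _).trans (le_of_eq ?_)
    rw [s.g_shift3]
  rw [h1, s.nu_zero_eq, Finset.sum_const, card_range, nsmul_eq_mul] at h2
  have hg := s.g_pos (z := 1) (by norm_num)
  have h3 : 1 * s.g 1 ≤ (U * 3 ^ (s.n0 * D)) * s.g 1 := by
    push_cast at h2
    linarith
  exact le_of_mul_le_mul_right h3 hg

/-! ### the extremal point -/

lemma prod_beta {α ε : ℝ} {L : ℕ} (hu : ∀ n : ℕ, L ≤ n → s.u n ≤ (α + ε) * n) :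
    ∀ ns : List ℕ, (∀ n ∈ ns, L ≤ n) →
    s.gmin ^ ns.length * Real.exp (-(α + ε) * ns.sum) ≤ (ns.map fun n => s.gmin * s.M n).prod := by
  intro ns
  induction ns with
  | nil => intro _; simp
  | cons n ns ih =>
    intro h
    have h1 := ih fun k hk => h k (List.mem_cons_of_mem _ hk)
    have h2 := hu n (h n List.mem_cons_self)
    rw [List.map_cons, List.prod_cons, List.length_cons, List.sum_cons, s.M_exp n, pow_succ]
    have h3 : Real.exp (-(α + ε) * n) ≤ Real.exp (-s.u n) := Real.exp_le_exp.2 (by linarith)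
    have hg := s.gmin_pos
    rw [Nat.cast_add]
    have e : -(α + ε) * ((n : ℝ) + ns.sum) = -(α + ε) * n + -(α + ε) * ns.sum := by ring
    rw [e, Real.exp_add]
    have h4 : s.gmin * Real.exp (-(α + ε) * n) ≤ s.gmin * Real.exp (-s.u n) :=
      mul_le_mul_of_nonneg_left h3 hg.le
    calc s.gmin ^ ns.length * s.gmin * (Real.exp (-(α + ε) * n) * Real.exp (-(α + ε) * ns.sum))
        = (s.gmin * Real.exp (-(α + ε) * n))
          * (s.gmin ^ ns.length * Real.exp (-(α + ε) * ns.sum)) := by ring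
      _ ≤ _ := mul_le_mul h4 h1 (by positivity) (by positivity)

/-- Section 4, the bound for the extremal point -/
lemma E_extremal {α ε : ℝ} {L : ℕ} (hα : ∀ n : ℕ, α * n ≤ s.u n) (hε : 0 ≤ ε)
    (hu : ∀ n : ℕ, L ≤ n → s.u n ≤ (α + ε) * n) {T : ℕ} {ns : List ℕ} (hns : ∀ n ∈ ns, L ≤ n)
    (hT : ns.sum + L + L ≤ T) :
    s.E ns (s.nu L) (s.x0 T)
      ≤ (s.gmin⁻¹) ^ ns.length * Real.exp (-α * L + ε * T) := by
  obtain ⟨b, hb⟩ : ∃ b, T = (ns.sum + L) + b := ⟨T - (ns.sum + L), by omega⟩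
  have hbL : L ≤ b := by omega
  have h1 := s.E_nu_le (L := L) (β := fun n => s.gmin * s.M n)
    (fun n => mul_pos s.gmin_pos (s.M_pos n)) (fun n z hz => s.beta_le n hz) ns (s.x0 T)
    (s.x0_unit T)
  have h2 := s.extremal (ns.sum + L) b
  rw [← hb] at h2
  have h3 := s.prod_beta hu ns hns
  have hE := s.E_nonneg (fun z => s.nu_nonneg L z) ns (s.x0 T)
  have h4 : s.M T / s.M b ≤ Real.exp (-α * T + (α + ε) * b) := by
    rw [s.M_exp T, s.M_exp b, ← Real.exp_sub]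
    apply Real.exp_le_exp.2
    have := hα T
    have := hu b hbL
    linarith
  have h5 := (mul_le_mul_of_nonneg_right h3 hE).trans (h1.trans (h2.trans h4))
  have hg := s.gmin_pos
  have hx : 0 < s.gmin ^ ns.length * Real.exp (-(α + ε) * ns.sum) := by positivity
  rw [← le_div_iff₀' hx] at h5
  refine h5.trans ?_
  have h6 : Real.exp (-α * T + (α + ε) * b) / (s.gmin ^ ns.length * Real.exp (-(α + ε) * ns.sum))
      = (s.gmin⁻¹) ^ ns.length * Real.exp (-α * T + (α + ε) * b + (α + ε) * ns.sum) := by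
    have e1 : Real.exp (-(α + ε) * ns.sum) = (Real.exp ((α + ε) * ns.sum))⁻¹ := by
      rw [← Real.exp_neg]; congr 1; ring
    rw [e1, Real.exp_add (-α * T + (α + ε) * b), inv_pow]
    field_simp
  rw [h6]
  apply mul_le_mul_of_nonneg_left _ (by positivity)
  apply Real.exp_le_exp.2
  have hTr : (T : ℝ) = ns.sum + L + b := by rw [hb, Nat.cast_add, Nat.cast_add]
  rw [hTr]
  have : (0 : ℝ) ≤ L := Nat.cast_nonneg L
  nlinarith

end Sys

end Pool.Agent.LqLow
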