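import Pool.Agent.LqLow.Defs

/-! The greedy choice of the cuts, (4.4) of `/team-store/MP845_LOWER_Proof.md`. -/

open Finset

namespace Pool.Agent.LqLow

open Pool.Agent.LqFlat

/-- sum over `m * l` consecutive indices, cut in `m` blocks -/
theorem greedy_blocks (F : ℕ → ℝ) (m l : ℕ) :
    ∑ j ∈ range (m * l), F j = ∑ u ∈ range m, ∑ j ∈ range l, F (u * l + j) := by
  induction m with
  | zero => simp
  | succ m ih => rw [Nat.succ_mul, sum_range_add, ih, sum_range_succ]

theorem greedy {R : List ℕ → ℕ → ℝ} {f : List ℕ → ℕ → ℕ → ℝ} {L : ℕ} (hL : 0 < L) {c : ℝ}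
    (hc : 0 < c) (K m : ℕ) (hm : 2 * K / c + 1 ≤ m) (h0 : ∀ x, R [] x = 0)
    (happ : ∀ (ns : List ℕ) (n x : ℕ), (∀ k ∈ ns, L ≤ k) → L ≤ n →
      R (ns ++ [n]) x = R ns (n + x) + f ns n x)
    (hf : ∀ (ns : List ℕ) (n J : ℕ), (∀ k ∈ ns, L ≤ k) → L ≤ n → 1 ≤ J → J * L ≤ n →
      c * J ≤ ∑ j ∈ range J, f ns n (j * L))
    (hR0 : ∀ ns x, 0 ≤ R ns x) (hR1 : ∀ (ns : List ℕ) x, R ns x ≤ ns.length) :
    ∃ ns : List ℕ, ns.length = K ∧ (∀ n ∈ ns, L ≤ n) ∧ ns.sum ≤ K * m ^ K * L ∧
      c / 2 * K ≤ R ns 0 := by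
  have hm1 : (1 : ℝ) ≤ m := by
    have : (0 : ℝ) ≤ 2 * K / c := by positivity
    linarith
  have hm1' : 1 ≤ m := by exact_mod_cast hm1
  have key : ∀ i, i ≤ K → ∃ ns : List ℕ, ns.length = i ∧ (∀ n ∈ ns, L ≤ n) ∧
      ns.sum ≤ i * m ^ K * L ∧
      c / 2 * i * (m : ℝ) ^ (K - i) ≤ ∑ j ∈ range (m ^ (K - i)), R ns (j * L) := by
    intro i
    induction i with
    | zero =>
      intro _
      refine ⟨[], rfl, by simp, by simp, ?_⟩
      simp [h0]
    | succ i ih =>
      intro hi
      obtain ⟨ns, hlen, hns, hsum, hle⟩ := ih (by omega)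
      obtain ⟨l, hl⟩ : ∃ l, l = m ^ (K - (i + 1)) := ⟨_, rfl⟩
      have hpow : m ^ (K - i) = m * l := by
        rw [hl, ← pow_succ']
        congr 1
        omega
      have hl1 : 1 ≤ l := by rw [hl]; exact Nat.one_le_pow _ _ hm1'
      have hl1' : (1 : ℝ) ≤ l := by exact_mod_cast hl1
      have hK : (i : ℝ) + 1 ≤ K := by exact_mod_cast hi
      have hi0 : (0 : ℝ) ≤ i := by positivity
      have hmK : 2 * (K : ℝ) ≤ c * (m - 1) := by
        have h1 : 2 * (K : ℝ) / c ≤ m - 1 := by linarith
        rw [div_le_iff₀ hc] at h1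
        linarith
      have hm2 : (1 : ℝ) < m := by
        by_contra h
        have h2 : (m : ℝ) - 1 ≤ 0 := by linarith
        have h3 : c * ((m : ℝ) - 1) ≤ 0 := mul_nonpos_of_nonneg_of_nonpos hc.le h2
        linarith
      have hm2' : 1 < m := by exact_mod_cast hm2
      -- the blocks
      let Sb : ℕ → ℝ := fun u => ∑ j ∈ range l, R ns ((u * l + j) * L)
      have hblocks : ∑ j ∈ range (m ^ (K - i)), R ns (j * L) = ∑ u ∈ range m, Sb u := by
        rw [hpow]
        exact greedy_blocks (fun j => R ns (j * L)) m l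
      have hpowR : (m : ℝ) ^ (K - i) = m * l := by exact_mod_cast hpow
      have hS0 : Sb 0 ≤ i * l := by
        calc Sb 0 ≤ ∑ _j ∈ range l, (i : ℝ) := by
              refine sum_le_sum fun j _ => ?_
              have := hR1 ns ((0 * l + j) * L)
              rw [hlen] at this
              exact this
          _ = i * l := by rw [sum_const, card_range, nsmul_eq_mul, mul_comm]
      have hex : ∃ u, 1 ≤ u ∧ u < m ∧ c / 2 * (i + 1) * l - c * l ≤ Sb u := by
        by_contra hcon
        push Not at hcon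
        have h1 : ∑ u ∈ range m, Sb u = Sb 0 + ∑ u ∈ Ico 1 m, Sb u := by
          rw [range_eq_Ico, sum_eq_sum_Ico_succ_bot hm1']
        have h2 : ∑ u ∈ Ico 1 m, Sb u ≤ ∑ _u ∈ Ico 1 m, (c / 2 * (i + 1) * l - c * l) := by
          refine sum_le_sum fun u hu => ?_
          rw [mem_Ico] at hu
          exact (hcon u hu.1 hu.2).le
        have h2' : ∑ u ∈ Ico 1 m, Sb u < ∑ _u ∈ Ico 1 m, (c / 2 * (i + 1) * l - c * l) := by
          refine sum_lt_sum_of_nonempty ⟨1, by rw [mem_Ico]; omega⟩ fun u hu => ?_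
          rw [mem_Ico] at hu
          exact hcon u hu.1 hu.2
        rw [sum_const, Nat.card_Ico, nsmul_eq_mul, Nat.cast_sub hm1', Nat.cast_one] at h2'
        rw [hblocks, h1, hpowR] at hle
        -- contradiction
        have h3 : c / 2 * i * (m * l) < i * l + (m - 1) * (c / 2 * (i + 1) * l - c * l) := by
          linarith
        have h4 : (i : ℝ) * l + (m - 1) * (c / 2 * (i + 1) * l - c * l)
            = c / 2 * i * (m * l) - l * (c / 2 * (m - 1) + c / 2 * i - i) := by ring
        have h5 : 0 ≤ c / 2 * (m - 1) + c / 2 * i - i := by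
          have : 0 ≤ c / 2 * (i : ℝ) := by positivity
          linarith
        have h6 : 0 ≤ l * (c / 2 * (m - 1) + c / 2 * i - i) := mul_nonneg (by positivity) h5
        linarith
      obtain ⟨u, hu1, hum, hu⟩ := hex
      have hn : L ≤ u * l * L := by
        calc L = 1 * 1 * L := by ring
          _ ≤ u * l * L := by gcongr
      refine ⟨ns ++ [u * l * L], by simp [hlen], ?_, ?_, ?_⟩
      · intro n hn'
        rw [List.mem_append, List.mem_singleton] at hn'
        rcases hn' with h | rfl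
        · exact hns n h
        · exact hn
      · rw [List.sum_append, List.sum_singleton]
        have h7 : u * l ≤ m ^ K := by
          calc u * l ≤ m * l := by gcongr
            _ = m ^ (K - i) := hpow.symm
            _ ≤ m ^ K := Nat.pow_le_pow_right hm1' (by omega)
        calc ns.sum + u * l * L ≤ i * m ^ K * L + m ^ K * L := by gcongr
          _ = (i + 1) * m ^ K * L := by ring
      · rw [← hl]
        have h8 : ∑ j ∈ range l, R (ns ++ [u * l * L]) (j * L)
            = Sb u + ∑ j ∈ range l, f ns (u * l * L) (j * L) := by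
          rw [← sum_add_distrib]
          refine sum_congr rfl fun j _ => ?_
          rw [happ ns _ _ hns hn]
          congr 2
          ring
        have h9 := hf ns (u * l * L) l hns hn hl1 (by
          calc l * L = 1 * l * L := by ring
            _ ≤ u * l * L := by gcongr)
        rw [h8]
        have h10 : (m : ℝ) ^ (K - (i + 1)) = l := by rw [hl]; push_cast; rfl
        rw [h10]
        push_cast
        linarith
  obtain ⟨ns, h1, h2, h3, h4⟩ := key K le_rfl
  refine ⟨ns, h1, h2, h3, ?_⟩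
  simpa using h4

end Pool.Agent.LqLow
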