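import Pool.Agent.LqLow.Lists

open Finset Filter Topology

namespace Pool.Agent.LqLow

open Pool.Agent.LqFlat

namespace Sys

variable (s : Sys)

lemma g_shift3 (z k : ℤ) : s.g (z + 3 * k) = s.g z :=
  s.g_per.eq_of ⟨k, by push_cast; ring⟩

lemma nu_pos (n : ℕ) {z : ℤ} (hz : z % 3 ≠ 0) : 0 < s.nu n z := by
  unfold nu
  have hQ := s.Q_pos
  apply mul_pos (by positivity)
  apply Finset.sum_pos
  · intro T hT
    exact s.g_pos (s.nd_unit hT)
  · have hA := s.A_pos n hz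
    rw [← Finset.card_pos]
    unfold A at hA
    exact_mod_cast hA

/-- existence of an extremal point -/
lemma exists_min (n : ℕ) : ∃ z0 : ℤ, z0 % 3 ≠ 0 ∧
    ∀ z : ℤ, z % 3 ≠ 0 → s.nu n z0 / s.g z0 ≤ s.nu n z / s.g z := by
  set R : ℕ := 3 * 3 ^ (s.n0 * n) with hR
  set F := (range R).filter fun r => r % 3 ≠ 0 with hF
  have hne : F.Nonempty := by
    refine ⟨1, ?_⟩
    rw [hF, Finset.mem_filter, Finset.mem_range]
    refine ⟨?_, by norm_num⟩
    rw [hR]
    have : 1 ≤ 3 ^ (s.n0 * n) := Nat.one_le_pow _ _ (by norm_num)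
    omega
  obtain ⟨r0, hr0, hmin⟩ := Finset.exists_min_image F (fun r : ℕ => s.nu n r / s.g r) hne
  refine ⟨r0, ?_, ?_⟩
  · have := (Finset.mem_filter.1 hr0).2
    omega
  · intro z hz
    have hRpos : (0 : ℤ) < R := by rw [hR]; positivity
    have h1 : 0 ≤ z % R := Int.emod_nonneg _ hRpos.ne'
    have h2 : z % R < R := Int.emod_lt_of_pos _ hRpos
    set r : ℕ := (z % R).toNat with hr
    have h3 : (r : ℤ) = z % R := Int.toNat_of_nonneg h1
    have h4 : z = r + 3 * 3 ^ (s.n0 * n) * (z / R) := by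
      have := Int.emod_add_mul_ediv z R
      rw [h3]
      have e : (R : ℤ) = 3 * 3 ^ (s.n0 * n) := by rw [hR]; push_cast; rfl
      rw [← e]; exact this.symm
    have hg : s.g z = s.g r := by
      rw [h4, mul_assoc, s.g_shift3]
    have hnu : s.nu n z = s.nu n r := by
      conv_lhs => rw [h4]
      exact s.nu_shift n r _
    have hrF : r ∈ F := by
      rw [hF, Finset.mem_filter, Finset.mem_range]
      refine ⟨by omega, ?_⟩
      intro h5
      apply hz
      rw [h4, mul_assoc, Int.add_mul_emod_self_left]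
      omega
    rw [hg, hnu]
    exact hmin r hrF

/-- the extremal point -/
noncomputable def x0 (n : ℕ) : ℤ := (s.exists_min n).choose

lemma x0_unit (n : ℕ) : s.x0 n % 3 ≠ 0 := (s.exists_min n).choose_spec.1

/-- minimal relative density -/
noncomputable def M (n : ℕ) : ℝ := s.nu n (s.x0 n) / s.g (s.x0 n)

lemma M_pos (n : ℕ) : 0 < s.M n := div_pos (s.nu_pos n (s.x0_unit n)) (s.g_pos (s.x0_unit n))

lemma M_le (n : ℕ) (z : ℤ) : s.M n * s.g z ≤ s.nu n z := by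
  by_cases hz : z % 3 = 0
  · rw [s.g_zero hz, mul_zero]; exact s.nu_nonneg n z
  · have h := (s.exists_min n).choose_spec.2 z hz
    rw [le_div_iff₀ (s.g_pos hz)] at h
    exact h

lemma M_eq (n : ℕ) : s.nu n (s.x0 n) = s.M n * s.g (s.x0 n) := by
  unfold M
  rw [div_mul_cancel₀ _ (s.g_pos (s.x0_unit n)).ne']

/-- (1.3), lower half -/
lemma M_mul_nu (n m : ℕ) (z : ℤ) : s.M m * s.nu n z ≤ s.nu (n + m) z := by
  rw [s.nu_add]
  have hQ := s.Q_pos
  have h1 : s.M m * ∑ T ∈ s.Wn n z, s.g (s.nd n T z) ≤ ∑ T ∈ s.Wn n z, s.nu m (s.nd n T z) := by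
    rw [Finset.mul_sum]
    exact Finset.sum_le_sum fun T _ => s.M_le m _
  have h2 := mul_le_mul_of_nonneg_left h1 (show 0 ≤ (s.Q ^ n)⁻¹ by positivity)
  refine le_trans (le_of_eq ?_) h2
  unfold nu
  ring

/-- (1.3), upper half -/
lemma nu_le_mul {m : ℕ} {U : ℝ} (hU : ∀ z : ℤ, s.nu m z ≤ U * s.g z) (n : ℕ) (z : ℤ) :
    s.nu (n + m) z ≤ U * s.nu n z := by
  rw [s.nu_add]
  have hQ := s.Q_pos
  have h1 : ∑ T ∈ s.Wn n z, s.nu m (s.nd n T z) ≤ U * ∑ T ∈ s.Wn n z, s.g (s.nd n T z) := by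
    rw [Finset.mul_sum]
    exact Finset.sum_le_sum fun T _ => hU _
  have h2 := mul_le_mul_of_nonneg_left h1 (show 0 ≤ (s.Q ^ n)⁻¹ by positivity)
  refine h2.trans (le_of_eq ?_)
  unfold nu
  ring

lemma M_mul (n m : ℕ) : s.M n * s.M m ≤ s.M (n + m) := by
  have h1 := s.M_mul_nu n m (s.x0 (n + m))
  have h2 := s.M_le n (s.x0 (n + m))
  have h3 := mul_le_mul_of_nonneg_left h2 (s.M_pos m).le
  have h4 := h3.trans h1
  rw [s.M_eq] at h4
  have hg := s.g_pos (s.x0_unit (n + m))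
  have h5 : (s.M n * s.M m) * s.g (s.x0 (n + m)) ≤ s.M (n + m) * s.g (s.x0 (n + m)) := by
    linarith
  exact le_of_mul_le_mul_right h5 hg

lemma nu_le_g (n : ℕ) (z : ℤ) : s.nu n z ≤ s.g z := by
  have h1 := s.nu_sum 0 n z
  rw [s.nu_zero_eq, zero_add] at h1
  rw [← h1]
  have h2 := Finset.single_le_sum (f := fun j : ℕ => s.nu n (z + 3 * 3 ^ (s.n0 * 0) * j))
    (s := range (3 ^ (s.n0 * n))) (fun j _ => s.nu_nonneg n _)
    (Finset.mem_range.2 (show 0 < 3 ^ (s.n0 * n) by positivity))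
  simpa using h2

lemma M_le_one (n : ℕ) : s.M n ≤ 1 := by
  unfold M
  rw [div_le_one (s.g_pos (s.x0_unit n))]
  exact s.nu_le_g n _

/-- the exponents -/
noncomputable def u (n : ℕ) : ℝ := -Real.log (s.M n)

lemma u_nonneg (n : ℕ) : 0 ≤ s.u n := by
  unfold u
  have := Real.log_nonpos (s.M_pos n).le (s.M_le_one n)
  linarith

lemma M_exp (n : ℕ) : s.M n = Real.exp (-s.u n) := by
  unfold u
  rw [neg_neg, Real.exp_log (s.M_pos n)]

lemma u_sub : Subadditive s.u := by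
  intro m n
  unfold u
  have h := Real.log_le_log (mul_pos (s.M_pos m) (s.M_pos n)) (s.M_mul m n)
  rw [Real.log_mul (s.M_pos m).ne' (s.M_pos n).ne'] at h
  linarith

/-- the growth exponent -/
lemma exists_alpha : ∃ α : ℝ, (∀ n : ℕ, α * n ≤ s.u n) ∧
    ∀ ε : ℝ, 0 < ε → ∃ n1 : ℕ, 1 ≤ n1 ∧ ∀ n : ℕ, n1 ≤ n → s.u n ≤ (α + ε) * n := by
  have hb : BddBelow (Set.range fun n : ℕ => s.u n / n) :=
    ⟨0, by rintro _ ⟨n, rfl⟩; exact div_nonneg (s.u_nonneg n) (Nat.cast_nonneg n)⟩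
  refine ⟨s.u_sub.lim, ?_, ?_⟩
  · intro n
    rcases Nat.eq_zero_or_pos n with rfl | hn
    · simpa using s.u_nonneg 0
    · have h := s.u_sub.lim_le_div hb (n := n) (by omega)
      have hn' : (0 : ℝ) < n := by exact_mod_cast hn
      rwa [le_div_iff₀ hn'] at h
  · intro ε hε
    have h := s.u_sub.tendsto_lim hb
    have h1 := h.eventually (gt_mem_nhds (show s.u_sub.lim < s.u_sub.lim + ε by linarith))
    obtain ⟨n1, hn1⟩ := eventually_atTop.1 h1
    refine ⟨max n1 1, le_max_right _ _, fun n hn => ?_⟩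
    have h2 := hn1 n ((le_max_left _ _).trans hn)
    have h3 : 1 ≤ n := (le_max_right _ _).trans hn
    have hn' : (0 : ℝ) < n := by exact_mod_cast h3
    rw [div_lt_iff₀ hn'] at h2
    exact h2.le

/-- lower bound for `g` -/
noncomputable def gmin : ℝ := min (s.g 1) (s.g 2)

lemma gmin_pos : 0 < s.gmin := lt_min (s.g_pos (by norm_num)) (s.g_pos (by norm_num))

lemma gmin_le {z : ℤ} (hz : z % 3 ≠ 0) : s.gmin ≤ s.g z := by
  have h1 : z % 3 = 1 ∨ z % 3 = 2 := by omega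
  have h2 : z = z % 3 + 3 * (z / 3) := (Int.emod_add_mul_ediv z 3).symm
  rw [h2, s.g_shift3]
  rcases h1 with h | h
  · rw [h]; exact min_le_left _ _
  · rw [h]; exact min_le_right _ _

lemma gmin_le_one : s.gmin ≤ 1 := (min_le_left _ _).trans (s.g_le_one 1)

/-- (1.4) -/
lemma beta_le (n : ℕ) {z : ℤ} (hz : z % 3 ≠ 0) : s.gmin * s.M n ≤ (s.Q ^ n)⁻¹ * s.A n z := by
  refine le_trans ?_ (s.nu_le_A n z)
  refine le_trans ?_ (s.M_le n z)
  rw [mul_comm]
  exact mul_le_mul_of_nonneg_left (s.gmin_le hz) (s.M_pos n).le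

/-- the extremal point has small measure at all lower levels -/
lemma extremal (a b : ℕ) : s.nu a (s.x0 (a + b)) ≤ s.M (a + b) / s.M b := by
  rw [le_div_iff₀ (s.M_pos b)]
  have h1 := s.M_mul_nu a b (s.x0 (a + b))
  rw [s.M_eq] at h1
  have h2 : s.M (a + b) * s.g (s.x0 (a + b)) ≤ s.M (a + b) * 1 :=
    mul_le_mul_of_nonneg_left (s.g_le_one _) (s.M_pos _).le
  linarith

end Sys

end Pool.Agent.LqLow
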