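import Pool.Agent.LqLow.Basic

open Finset

namespace Pool.Agent.LqLow

open Pool.Agent.LqFlat

namespace Sys

variable (s : Sys)

lemma E_nonneg {ψ : ℤ → ℝ} (hψ : ∀ z, 0 ≤ ψ z) : ∀ (ns : List ℕ) (y : ℤ), 0 ≤ s.E ns ψ y
  | [], y => hψ y
  | n :: ns, y => mul_nonneg (inv_nonneg.2 (s.A_nonneg n y))
      (Finset.sum_nonneg fun T _ => E_nonneg hψ ns _)

lemma E_shift : ∀ (ns : List ℕ) (ψ : ℤ → ℝ) (y k : ℤ),
    s.E ns ψ (y + 3 * 3 ^ (s.n0 * ns.sum) * k)
      = s.E ns (fun x => ψ (x + 3 * 2 ^ (s.B * ns.sum) * k)) y := by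
  intro ns
  induction ns with
  | nil => intro ψ y k; simp [E]
  | cons n ns ih =>
    intro ψ y k
    have e1 : y + 3 * 3 ^ (s.n0 * (n :: ns).sum) * k
        = y + 3 * 3 ^ (s.n0 * n) * (3 ^ (s.n0 * ns.sum) * k) := by
      rw [List.sum_cons, mul_add, pow_add]; ring
    rw [E, E, e1, s.Wn_shift, s.A_shift]
    congr 1
    apply Finset.sum_congr rfl
    intro T _
    have e2 : y + 3 * 3 ^ (s.n0 * n) * (3 ^ (s.n0 * ns.sum) * k)
        = y + 3 ^ (s.n0 * n) * (3 * (3 ^ (s.n0 * ns.sum) * k)) := by ring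
    rw [e2, s.nd_shift]
    have e3 : s.nd n T y + 2 ^ (s.B * n) * (3 * (3 ^ (s.n0 * ns.sum) * k))
        = s.nd n T y + 3 * 3 ^ (s.n0 * ns.sum) * (2 ^ (s.B * n) * k) := by ring
    rw [e3, ih]
    congr 1
    ext x
    congr 1
    rw [List.sum_cons, mul_add, pow_add]; ring

lemma Rp_shift (t L : ℕ) : ∀ (ns : List ℕ) (x : ℕ) (y k : ℤ),
    s.Rp t L ns x (y + 3 * 3 ^ (s.n0 * ns.sum) * k) = s.Rp t L ns x y := by
  intro ns
  induction ns with
  | nil => intro x y k; simp [Rp]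
  | cons n ns ih =>
    intro x y k
    have e1 : y + 3 * 3 ^ (s.n0 * (n :: ns).sum) * k
        = y + 3 * 3 ^ (s.n0 * n) * (3 ^ (s.n0 * ns.sum) * k) := by
      rw [List.sum_cons, mul_add, pow_add]; ring
    rw [Rp, Rp, e1, s.Wn_shift, s.A_shift]
    congr 1
    apply Finset.sum_congr rfl
    intro T _
    have e2 : y + 3 * 3 ^ (s.n0 * n) * (3 ^ (s.n0 * ns.sum) * k)
        = y + 3 ^ (s.n0 * n) * (3 * (3 ^ (s.n0 * ns.sum) * k)) := by ring
    rw [e2, s.nd_shift]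
    have e3 : s.nd n T y + 2 ^ (s.B * n) * (3 * (3 ^ (s.n0 * ns.sum) * k))
        = s.nd n T y + 3 * 3 ^ (s.n0 * ns.sum) * (2 ^ (s.B * n) * k) := by ring
    rw [e3, ih]

/-- probability that a word of `n` letters is rich at `x` -/
noncomputable def fr (t L n x : ℕ) (y : ℤ) : ℝ :=
  (s.A n y)⁻¹ * #{T ∈ s.Wn n y | s.Rich t L n x T}

lemma Rp_append (t L : ℕ) : ∀ (ns : List ℕ) (n x : ℕ) (y : ℤ),
    s.Rp t L (ns ++ [n]) x y = s.Rp t L ns (n + x) y + s.E ns (s.fr t L n x) y := by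
  intro ns
  induction ns with
  | nil =>
    intro n x y
    simp only [List.nil_append, Rp, E, fr, List.sum_nil, zero_add, add_zero]
    congr 1
    rw [← Finset.sum_filter, Finset.sum_const, nsmul_eq_mul, mul_one]
  | cons a ns ih =>
    intro n x y
    rw [List.cons_append, Rp, Rp, E, ← mul_add, ← Finset.sum_add_distrib]
    congr 1
    apply Finset.sum_congr rfl
    intro T _
    rw [ih]
    have e : (ns ++ [n]).sum + x = ns.sum + (n + x) := by
      rw [List.sum_append]; simp; ring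
    rw [e]
    ring

lemma Rp_nonneg (t L : ℕ) : ∀ (ns : List ℕ) (x : ℕ) (y : ℤ), 0 ≤ s.Rp t L ns x y := by
  intro ns
  induction ns with
  | nil => intro x y; simp [Rp]
  | cons n ns ih =>
    intro x y
    rw [Rp]
    apply mul_nonneg (inv_nonneg.2 (s.A_nonneg n y))
    apply Finset.sum_nonneg
    intro T _
    apply add_nonneg _ (ih _ _)
    split_ifs <;> norm_num

lemma avg_le {n : ℕ} {y : ℤ} {f : ℕ → ℝ} {c : ℝ} (hc : 0 ≤ c) (h : ∀ T ∈ s.Wn n y, f T ≤ c) :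
    (s.A n y)⁻¹ * ∑ T ∈ s.Wn n y, f T ≤ c := by
  have h1 := Finset.sum_le_sum h
  rw [Finset.sum_const, nsmul_eq_mul] at h1
  rcases (s.A_nonneg n y).eq_or_lt with h0 | h0
  · rw [← h0, inv_zero, zero_mul]; exact hc
  · rw [inv_mul_le_iff₀ h0]
    exact h1

lemma le_avg {n : ℕ} {y : ℤ} (hy : y % 3 ≠ 0) {f : ℕ → ℝ} {c : ℝ}
    (h : ∀ T ∈ s.Wn n y, c ≤ f T) : c ≤ (s.A n y)⁻¹ * ∑ T ∈ s.Wn n y, f T := by
  have h1 := Finset.sum_le_sum h
  rw [Finset.sum_const, nsmul_eq_mul] at h1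
  rw [le_inv_mul_iff₀ (s.A_pos n hy)]
  exact h1

lemma Rp_le (t L : ℕ) : ∀ (ns : List ℕ) (x : ℕ) (y : ℤ), s.Rp t L ns x y ≤ ns.length := by
  intro ns
  induction ns with
  | nil => intro x y; simp [Rp]
  | cons n ns ih =>
    intro x y
    rw [Rp]
    apply s.avg_le (Nat.cast_nonneg _)
    intro T _
    have := ih x (s.nd n T y)
    rw [List.length_cons]
    push_cast
    split_ifs <;> linarith

lemma le_E {ψ : ℤ → ℝ} {c : ℝ} (hψ : ∀ z : ℤ, z % 3 ≠ 0 → c ≤ ψ z) :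
    ∀ (ns : List ℕ) (y : ℤ), y % 3 ≠ 0 → c ≤ s.E ns ψ y := by
  intro ns
  induction ns with
  | nil => intro y hy; exact hψ y hy
  | cons n ns ih =>
    intro y hy
    rw [E]
    exact s.le_avg hy fun T hT => ih _ (s.nd_unit hT)

lemma E_lin {ι : Type*} (I : Finset ι) (c : ℝ) (F : ι → ℤ → ℝ) : ∀ (ns : List ℕ) (y : ℤ),
    s.E ns (fun x => c * ∑ i ∈ I, F i x) y = c * ∑ i ∈ I, s.E ns (F i) y := by
  intro ns
  induction ns with
  | nil => intro y; rfl
  | cons n ns ih =>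
    intro y
    simp only [E, ih]
    rw [← Finset.mul_sum, Finset.sum_comm]
    have h : ∀ i ∈ I, ∑ T ∈ s.Wn n y, s.E ns (F i) (s.nd n T y)
        = s.A n y * ((s.A n y)⁻¹ * ∑ T ∈ s.Wn n y, s.E ns (F i) (s.nd n T y)) := by
      intro i _
      rcases (s.A_nonneg n y).eq_or_lt with h0 | h0
      · have h1 : s.Wn n y = ∅ := by
          unfold A at h0
          rw [← Finset.card_eq_zero]
          exact_mod_cast h0.symm
        rw [h1]; simp
      · field_simp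
    rw [Finset.mul_sum, Finset.mul_sum, Finset.mul_sum]
    apply Finset.sum_congr rfl
    intro i _
    ring

lemma sum_E {ι : Type*} (I : Finset ι) (F : ι → ℤ → ℝ) (ns : List ℕ) (y : ℤ) :
    ∑ i ∈ I, s.E ns (F i) y = s.E ns (fun x => ∑ i ∈ I, F i x) y := by
  have := s.E_lin I 1 F ns y
  simp only [one_mul] at this
  exact this.symm

/-- (4.1) -/
lemma E_nu_le {L : ℕ} {β : ℕ → ℝ} (hβ : ∀ n, 0 < β n)
    (h : ∀ n (z : ℤ), z % 3 ≠ 0 → β n ≤ (s.Q ^ n)⁻¹ * s.A n z) : ∀ (ns : List ℕ) (y : ℤ),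
    y % 3 ≠ 0 → (ns.map β).prod * s.E ns (s.nu L) y ≤ s.nu (ns.sum + L) y := by
  intro ns
  induction ns with
  | nil => intro y _; simp [E]
  | cons n ns ih =>
    intro y hy
    rw [List.map_cons, List.prod_cons, List.sum_cons, add_assoc, s.nu_add n (ns.sum + L), E]
    have hQ := s.Q_pos
    have hA := s.A_pos n hy
    have hprod : 0 < (ns.map β).prod := by
      apply List.prod_pos
      intro a ha
      obtain ⟨b, _, rfl⟩ := List.mem_map.1 ha
      exact hβ b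
    have h1 : (ns.map β).prod * ∑ T ∈ s.Wn n y, s.E ns (s.nu L) (s.nd n T y)
        ≤ ∑ T ∈ s.Wn n y, s.nu (ns.sum + L) (s.nd n T y) := by
      rw [Finset.mul_sum]
      exact Finset.sum_le_sum fun T hT => ih _ (s.nd_unit hT)
    refine le_trans ?_ (mul_le_mul_of_nonneg_left h1 (by positivity))
    have h2 : 0 ≤ (s.A n y)⁻¹ * ((ns.map β).prod * ∑ T ∈ s.Wn n y, s.E ns (s.nu L) (s.nd n T y)) :=
      mul_nonneg (inv_nonneg.2 hA.le) (mul_nonneg hprod.le
        (Finset.sum_nonneg fun T _ => s.E_nonneg (fun z => s.nu_nonneg L z) ns _))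
    have h3 := mul_le_mul_of_nonneg_right (h n y hy) h2
    calc β n * (ns.map β).prod * ((s.A n y)⁻¹ * ∑ T ∈ s.Wn n y, s.E ns (s.nu L) (s.nd n T y))
        = β n * ((s.A n y)⁻¹ * ((ns.map β).prod *
            ∑ T ∈ s.Wn n y, s.E ns (s.nu L) (s.nd n T y))) := by ring
      _ ≤ _ := h3
      _ = _ := by field_simp

end Sys

/-! ### averages over populations -/

lemma av_nonneg {ψ : ℤ → ℝ} (hψ : ∀ z, 0 ≤ ψ z) : ∀ (l : List (Finset ℤ × ℕ)) (y : ℤ),
    0 ≤ av l ψ y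
  | [], y => hψ y
  | p :: l, y => mul_nonneg (inv_nonneg.2 (Nat.cast_nonneg _))
      (Finset.sum_nonneg fun z _ => av_nonneg hψ l _)

lemma av_lin {ι : Type*} (I : Finset ι) (c : ℝ) (F : ι → ℤ → ℝ) :
    ∀ (l : List (Finset ℤ × ℕ)) (y : ℤ),
    av l (fun x => c * ∑ i ∈ I, F i x) y = c * ∑ i ∈ I, av l (F i) y := by
  intro l
  induction l with
  | nil => intro y; rfl
  | cons p l ih =>
    intro y
    simp only [av, ih]
    rw [← Finset.mul_sum, Finset.sum_comm, Finset.mul_sum, Finset.mul_sum, Finset.mul_sum]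
    apply Finset.sum_congr rfl
    intro i _
    ring

lemma av_trans (a : ℤ) (ψ : ℤ → ℝ) : ∀ (l : List (Finset ℤ × ℕ)) (y : ℤ),
    av l (fun x => ψ (x - a)) y = av l ψ (y - a) := by
  intro l
  induction l with
  | nil => intro y; rfl
  | cons p l ih =>
    intro y
    simp only [av, ih]
    congr 1
    apply Finset.sum_congr rfl
    intro z _
    congr 1
    ring

lemma rsum_nonneg (t q : ℕ) : ∀ l : List (Finset ℤ × ℕ), 0 ≤ rsum t q l
  | [] => le_rfl
  | p :: l => add_nonneg (div_nonneg (Nat.cast_nonneg _) (Nat.cast_nonneg _)) (rsum_nonneg t q l)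

lemma rsum_le (t q : ℕ) : ∀ l : List (Finset ℤ × ℕ), rsum t q l ≤ l.length
  | [] => by simp [rsum]
  | p :: l => by
    rw [rsum, List.length_cons]
    have h1 := rsum_le t q l
    have h2 : (#(richPart t q p.1) : ℝ) / #p.1 ≤ 1 := by
      apply div_le_one_of_le₀ _ (Nat.cast_nonneg _)
      exact_mod_cast Finset.card_filter_le _ _
    push_cast
    linarith

end Pool.Agent.LqLow
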