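import Pool.Agent.LqLow.Defs

/-!
Package R1 of MP_845cb7_nt (lower half): abstract counting of rich windows.
-/

open Finset

namespace Pool.Agent.LqLow

open Pool.Agent.LqFlat

namespace RichWinAux

theorem mem_cl {S : Finset ℕ} {m x y : ℕ} : y ∈ cl S m x ↔ y ∈ S ∧ y ≡ x [MOD m] := by
  simp [cl]

theorem card_cl_pos {S : Finset ℕ} {m x : ℕ} (hx : x ∈ S) : 0 < #(cl S m x) :=
  Finset.card_pos.2 ⟨x, mem_cl.2 ⟨hx, rfl⟩⟩

theorem cl_congr {S : Finset ℕ} {m x y : ℕ} (h : y ≡ x [MOD m]) : cl S m y = cl S m x := by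
  ext z
  rw [mem_cl, mem_cl]
  exact ⟨fun hz => ⟨hz.1, hz.2.trans h⟩, fun hz => ⟨hz.1, hz.2.trans h.symm⟩⟩

/-- number of subclasses -/
theorem sum_sub {S : Finset ℕ} {q Y : ℕ} (y : ℕ) (hY : 0 < Y) :
    ∑ x ∈ cl S q y, (1 : ℝ) / #(cl S (q * Y) x) ≤ Y := by
  have hfib : ∑ x ∈ cl S q y, (1 : ℝ) / #(cl S (q * Y) x)
      = ∑ b ∈ range Y, ∑ x ∈ (cl S q y) with (x / q) % Y = b, (1 : ℝ) / #(cl S (q * Y) x) :=
    (Finset.sum_fiberwise_of_maps_to (fun x _ => Finset.mem_range.2 (Nat.mod_lt _ hY)) _).symm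
  rw [hfib]
  calc ∑ b ∈ range Y, ∑ x ∈ (cl S q y) with (x / q) % Y = b, (1 : ℝ) / #(cl S (q * Y) x)
      ≤ ∑ b ∈ range Y, (1 : ℝ) := by
        refine Finset.sum_le_sum fun b _ => ?_
        set T := (cl S q y).filter (fun x => (x / q) % Y = b) with hT
        have hle : ∀ x ∈ T, (1 : ℝ) / #(cl S (q * Y) x) ≤ 1 / #T := by
          intro x hx
          have hx' := Finset.mem_filter.1 hx
          have hsub : T ⊆ cl S (q * Y) x := by
            intro z hz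
            have hz' := Finset.mem_filter.1 hz
            refine mem_cl.2 ⟨(mem_cl.1 hz'.1).1, ?_⟩
            have h1 : z % q = x % q := ((mem_cl.1 hz'.1).2).trans ((mem_cl.1 hx'.1).2).symm
            show z % (q * Y) = x % (q * Y)
            rw [Nat.mod_mul, Nat.mod_mul, h1, hz'.2, hx'.2]
          have hTpos : (0 : ℝ) < #T := by
            exact_mod_cast Finset.card_pos.2 ⟨x, hx⟩
          exact one_div_le_one_div_of_le hTpos (by exact_mod_cast Finset.card_le_card hsub)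
        refine (Finset.sum_le_sum hle).trans ?_
        rw [Finset.sum_const, nsmul_eq_mul]
        rcases Nat.eq_zero_or_pos #T with h | h
        · rw [h]; norm_num
        · have : (#T : ℝ) ≠ 0 := by positivity
          rw [mul_one_div, div_self this]
    _ = Y := by simp

theorem sum_class {S : Finset ℕ} {q Y : ℕ} (hY : 0 < Y) (w : ℕ → ℝ) (hw0 : ∀ x, 0 ≤ w x)
    (hw : ∀ x ∈ S, ∀ y ∈ S, y ≡ x [MOD q] → w y = w x) :
    ∑ x ∈ S, w x / #(cl S (q * Y) x) ≤ Y * ∑ x ∈ S, w x / #(cl S q x) := by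
  have h1 : ∀ x ∈ S, w x / #(cl S (q * Y) x)
      = ∑ y ∈ S, if y ≡ x [MOD q] then w y / #(cl S q y) * (1 / #(cl S (q * Y) x)) else 0 := by
    intro x hx
    rw [← Finset.sum_filter]
    have : ∀ y ∈ S.filter (fun y => y ≡ x [MOD q]),
        w y / #(cl S q y) * (1 / #(cl S (q * Y) x))
          = w x / #(cl S q x) * (1 / #(cl S (q * Y) x)) := by
      intro y hy
      have hy' := Finset.mem_filter.1 hy
      rw [hw x hx y hy'.1 hy'.2, cl_congr hy'.2]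
    rw [Finset.sum_congr rfl this, Finset.sum_const, nsmul_eq_mul]
    have hc : (S.filter (fun y => y ≡ x [MOD q])) = cl S q x := rfl
    rw [hc]
    have hpos : (0 : ℝ) < #(cl S q x) := by exact_mod_cast card_cl_pos hx
    field_simp
  rw [Finset.sum_congr rfl h1, Finset.sum_comm, Finset.mul_sum]
  refine Finset.sum_le_sum fun y hy => ?_
  rw [← Finset.sum_filter, ← Finset.mul_sum]
  have hfil : S.filter (fun x => y ≡ x [MOD q]) = cl S q y := by
    ext x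
    rw [Finset.mem_filter, mem_cl]
    exact ⟨fun h => ⟨h.1, h.2.symm⟩, fun h => ⟨h.1, h.2.symm⟩⟩
  rw [hfil, mul_comm]
  exact mul_le_mul_of_nonneg_right (sum_sub y hY) (div_nonneg (hw0 y) (by positivity))

/-- rich at level `j` -/
def rich (S : Finset ℕ) (m : ℕ → ℕ) (t j x : ℕ) : Prop :=
  t * #(cl S (m (j + 1)) x) ≤ #(cl S (m j) x)

instance (S : Finset ℕ) (m : ℕ → ℕ) (t j : ℕ) : DecidablePred (rich S m t j) := fun x => by
  unfold rich; infer_instance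

/-- number of rich levels -/
def rr (S : Finset ℕ) (m : ℕ → ℕ) (t j x : ℕ) : ℕ :=
  ∑ i ∈ range j, if rich S m t i x then 1 else 0

theorem rr_succ (S : Finset ℕ) (m : ℕ → ℕ) (t j x : ℕ) :
    rr S m t (j + 1) x = rr S m t j x + if rich S m t j x then 1 else 0 := by
  rw [rr, Finset.sum_range_succ]; rfl

theorem m_dvd {m : ℕ → ℕ} {Y : ℕ} (hm : ∀ j, m (j + 1) = m j * Y) {i j : ℕ} (h : i ≤ j) :
    m i ∣ m j := by
  induction j, h using Nat.le_induction with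
  | base => exact dvd_rfl
  | succ n _ ih => rw [hm n]; exact Dvd.dvd.mul_right ih Y

theorem rr_congr {S : Finset ℕ} {m : ℕ → ℕ} {Y t j x y : ℕ} (hm : ∀ j, m (j + 1) = m j * Y)
    (h : y ≡ x [MOD m j]) : rr S m t j y = rr S m t j x := by
  unfold rr
  refine Finset.sum_congr rfl fun i hi => ?_
  have hi' := Finset.mem_range.1 hi
  have e1 : cl S (m (i + 1)) y = cl S (m (i + 1)) x := cl_congr (h.of_dvd (m_dvd hm hi'))
  have e0 : cl S (m i) y = cl S (m i) x := cl_congr (h.of_dvd (m_dvd hm hi'.le))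
  have e : rich S m t i y ↔ rich S m t i x := by
    unfold rich
    rw [e1, e0]
  simp only [e]

/-- the potential -/
noncomputable def Psi (S : Finset ℕ) (m : ℕ → ℕ) (Y t j : ℕ) : ℝ :=
  ∑ x ∈ S, (1 / (Y : ℝ)) ^ rr S m t j x / #(cl S (m j) x)

theorem Psi_nonneg (S : Finset ℕ) (m : ℕ → ℕ) (Y t j : ℕ) : 0 ≤ Psi S m Y t j :=
  Finset.sum_nonneg fun x _ => by positivity

theorem Psi_step {S : Finset ℕ} {m : ℕ → ℕ} {Y t j : ℕ} (hm : ∀ j, m (j + 1) = m j * Y)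
    (hY : 0 < Y) : Psi S m Y t (j + 1) ≤ (t + 1) * Psi S m Y t j := by
  have hYR : (0 : ℝ) < Y := by exact_mod_cast hY
  have hpt : ∀ x ∈ S, (1 / (Y : ℝ)) ^ rr S m t (j + 1) x / #(cl S (m (j + 1)) x)
      ≤ t * ((1 / (Y : ℝ)) ^ rr S m t j x / #(cl S (m j) x))
        + 1 / (Y : ℝ) * ((1 / (Y : ℝ)) ^ rr S m t j x / #(cl S (m j * Y) x)) := by
    intro x hx
    have hp1 : (0 : ℝ) < #(cl S (m (j + 1)) x) := by exact_mod_cast card_cl_pos hx
    have hp0 : (0 : ℝ) < #(cl S (m j) x) := by exact_mod_cast card_cl_pos hx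
    rw [rr_succ]
    by_cases hr : rich S m t j x
    · rw [if_pos hr, pow_succ, hm j]
      have : (0 : ℝ) ≤ t * ((1 / (Y : ℝ)) ^ rr S m t j x / #(cl S (m j) x)) := by positivity
      have e : (1 / (Y : ℝ)) ^ rr S m t j x * (1 / (Y : ℝ)) / #(cl S (m j * Y) x)
          = 1 / (Y : ℝ) * ((1 / (Y : ℝ)) ^ rr S m t j x / #(cl S (m j * Y) x)) := by ring
      rw [e]; linarith
    · rw [if_neg hr, add_zero]
      have h2 : (0 : ℝ) ≤ 1 / (Y : ℝ) * ((1 / (Y : ℝ)) ^ rr S m t j x / #(cl S (m j * Y) x)) := by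
        positivity
      have hlt : (#(cl S (m j) x) : ℝ) ≤ t * #(cl S (m (j + 1)) x) := by
        have := (not_le.1 hr).le
        exact_mod_cast this
      have h3 : (1 / (Y : ℝ)) ^ rr S m t j x / #(cl S (m (j + 1)) x)
          ≤ t * ((1 / (Y : ℝ)) ^ rr S m t j x / #(cl S (m j) x)) := by
        rw [mul_div_assoc', div_le_div_iff₀ hp1 hp0]
        have hs : (0 : ℝ) ≤ (1 / (Y : ℝ)) ^ rr S m t j x := by positivity
        nlinarith [mul_le_mul_of_nonneg_left hlt hs]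
      linarith
  have hcl := sum_class (S := S) (q := m j) hY (fun x => (1 / (Y : ℝ)) ^ rr S m t j x)
    (fun x => by positivity) (fun x _ y _ h => by
      show (1 / (Y : ℝ)) ^ rr S m t j y = (1 / (Y : ℝ)) ^ rr S m t j x
      rw [rr_congr hm h])
  calc Psi S m Y t (j + 1)
      ≤ ∑ x ∈ S, (t * ((1 / (Y : ℝ)) ^ rr S m t j x / #(cl S (m j) x))
        + 1 / (Y : ℝ) * ((1 / (Y : ℝ)) ^ rr S m t j x / #(cl S (m j * Y) x))) :=
        Finset.sum_le_sum hpt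
    _ = t * Psi S m Y t j
        + 1 / (Y : ℝ) * ∑ x ∈ S, ((1 / (Y : ℝ)) ^ rr S m t j x / #(cl S (m j * Y) x)) := by
        rw [Finset.sum_add_distrib, ← Finset.mul_sum, ← Finset.mul_sum]; rfl
    _ ≤ t * Psi S m Y t j + 1 / (Y : ℝ) * (Y * Psi S m Y t j) := by
        have : (0 : ℝ) ≤ 1 / (Y : ℝ) := by positivity
        have := mul_le_mul_of_nonneg_left hcl this
        unfold Psi
        linarith
    _ = (t + 1) * Psi S m Y t j := by
        field_simp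

theorem Psi_le {S : Finset ℕ} {m : ℕ → ℕ} {Y t : ℕ} (hm : ∀ j, m (j + 1) = m j * Y)
    (hY : 0 < Y) (h0 : ∑ x ∈ S, (1 : ℝ) / #(cl S (m 0) x) ≤ 2) (j : ℕ) :
    Psi S m Y t j ≤ 2 * (t + 1) ^ j := by
  induction j with
  | zero =>
    have : Psi S m Y t 0 = ∑ x ∈ S, (1 : ℝ) / #(cl S (m 0) x) := by
      unfold Psi rr
      simp
    rw [this]; simpa using h0
  | succ j ih =>
    refine (Psi_step hm hY).trans ?_
    have : (0 : ℝ) ≤ (t : ℝ) + 1 := by positivity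
    calc ((t : ℝ) + 1) * Psi S m Y t j ≤ (t + 1) * (2 * (t + 1) ^ j) :=
          mul_le_mul_of_nonneg_left ih this
      _ = 2 * (t + 1) ^ (j + 1) := by ring

end RichWinAux

open RichWinAux

theorem rich_windows {S : Finset ℕ} {m : ℕ → ℕ} {Y t N' J : ℕ} (hm : ∀ j, m (j + 1) = m j * Y)
    (hm0 : 0 < m 0) (hY : 0 < Y) (ht : 3 ≤ t) (hN' : 0 < N') (htY : Y ≤ t ^ N')
    (h0 : ∑ x ∈ S, (1 : ℝ) / #(cl S (m 0) x) ≤ 2)
    (hJ : ∀ x ∈ S, (t : ℝ) ^ (4 * J) * #(cl S (m J) x) ≤ #S) (hJ1 : 1 ≤ J) :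
    (J : ℝ) * #S ≤ 2 * N' * ∑ j ∈ range J,
      (#{x ∈ S | t * #(cl S (m (j + 1)) x) ≤ #(cl S (m j) x)} : ℝ) := by
  have htR : (3 : ℝ) ≤ t := by exact_mod_cast ht
  have htpos : (0 : ℝ) < t := by linarith
  have hYR : (0 : ℝ) < Y := by exact_mod_cast hY
  have hN'R : (0 : ℝ) < N' := by exact_mod_cast hN'
  -- the sum of the numbers of rich levels
  have hsum : ∑ j ∈ range J, (#{x ∈ S | t * #(cl S (m (j + 1)) x) ≤ #(cl S (m j) x)} : ℝ)
      = ∑ x ∈ S, (rr S m t J x : ℝ) := by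
    have : ∀ x ∈ S, (rr S m t J x : ℝ) = ∑ i ∈ range J, if rich S m t i x then (1 : ℝ) else 0 := by
      intro x _
      unfold rr
      push_cast
      rfl
    rw [Finset.sum_congr rfl this, Finset.sum_comm]
    refine Finset.sum_congr rfl fun j _ => ?_
    rw [← Finset.sum_filter, Finset.sum_const, nsmul_eq_mul, mul_one]
    rfl
  rw [hsum]
  -- the exceptional set
  set Bad := S.filter (fun x => N' * rr S m t J x ≤ J) with hBad
  have hB1 : (#Bad : ℝ) ≤ ∑ x ∈ S, (t : ℝ) ^ J * (1 / (Y : ℝ)) ^ rr S m t J x := by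
    have hle : ∀ x ∈ Bad, (1 : ℝ) ≤ (t : ℝ) ^ J * (1 / (Y : ℝ)) ^ rr S m t J x := by
      intro x hx
      have hx' := (Finset.mem_filter.1 hx).2
      have hYt : (Y : ℝ) ≤ (t : ℝ) ^ N' := by exact_mod_cast htY
      rw [one_div, inv_pow, ← div_eq_mul_inv, le_div_iff₀ (by positivity), one_mul]
      calc (Y : ℝ) ^ rr S m t J x ≤ ((t : ℝ) ^ N') ^ rr S m t J x :=
            pow_le_pow_left₀ hYR.le hYt _
        _ = (t : ℝ) ^ (N' * rr S m t J x) := by rw [← pow_mul]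
        _ ≤ (t : ℝ) ^ J := pow_le_pow_right₀ (by linarith) hx'
    calc (#Bad : ℝ) = ∑ x ∈ Bad, (1 : ℝ) := by simp
      _ ≤ ∑ x ∈ Bad, (t : ℝ) ^ J * (1 / (Y : ℝ)) ^ rr S m t J x := Finset.sum_le_sum hle
      _ ≤ ∑ x ∈ S, (t : ℝ) ^ J * (1 / (Y : ℝ)) ^ rr S m t J x :=
          Finset.sum_le_sum_of_subset_of_nonneg (Finset.filter_subset _ _)
            (fun x _ _ => by positivity)
  have hB2 : (t : ℝ) ^ (4 * J) * ∑ x ∈ S, (t : ℝ) ^ J * (1 / (Y : ℝ)) ^ rr S m t J x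
      ≤ (t : ℝ) ^ J * #S * Psi S m Y t J := by
    unfold Psi
    rw [Finset.mul_sum, Finset.mul_sum]
    refine Finset.sum_le_sum fun x hx => ?_
    have hp : (0 : ℝ) < #(cl S (m J) x) := by exact_mod_cast card_cl_pos hx
    have h := hJ x hx
    have e : (t : ℝ) ^ (4 * J) * ((t : ℝ) ^ J * (1 / (Y : ℝ)) ^ rr S m t J x)
        = ((t : ℝ) ^ (4 * J) * #(cl S (m J) x)) *
          ((t : ℝ) ^ J * ((1 / (Y : ℝ)) ^ rr S m t J x / #(cl S (m J) x))) := by
      field_simp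
    rw [e]
    have hnn : (0 : ℝ) ≤ (t : ℝ) ^ J * ((1 / (Y : ℝ)) ^ rr S m t J x / #(cl S (m J) x)) := by
      positivity
    calc ((t : ℝ) ^ (4 * J) * #(cl S (m J) x)) *
          ((t : ℝ) ^ J * ((1 / (Y : ℝ)) ^ rr S m t J x / #(cl S (m J) x)))
        ≤ #S * ((t : ℝ) ^ J * ((1 / (Y : ℝ)) ^ rr S m t J x / #(cl S (m J) x))) :=
          mul_le_mul_of_nonneg_right h hnn
      _ = _ := by ring
  have hPsi : Psi S m Y t J ≤ 2 * ((t : ℝ) + 1) ^ J := Psi_le hm hY h0 J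
  -- the exceptional set has at most half of the elements
  have hfrac : 2 * (2 * ((t : ℝ) + 1) ^ J) ≤ (t : ℝ) ^ (3 * J) := by
    have h4 : (4 : ℝ) ≤ 4 ^ J := by
      calc (4 : ℝ) = 4 ^ 1 := by norm_num
        _ ≤ 4 ^ J := pow_le_pow_right₀ (by norm_num) hJ1
    have hb : 4 * ((t : ℝ) + 1) ≤ t ^ 3 := by nlinarith [sq_nonneg ((t : ℝ) - 3)]
    calc 2 * (2 * ((t : ℝ) + 1) ^ J) = 4 * ((t : ℝ) + 1) ^ J := by ring
      _ ≤ 4 ^ J * ((t : ℝ) + 1) ^ J := mul_le_mul_of_nonneg_right h4 (by positivity)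
      _ = (4 * ((t : ℝ) + 1)) ^ J := by rw [mul_pow]
      _ ≤ (t ^ 3) ^ J := pow_le_pow_left₀ (by positivity) hb _
      _ = (t : ℝ) ^ (3 * J) := by rw [← pow_mul]
  have hhalf : 2 * (#Bad : ℝ) ≤ #S := by
    have hpos : (0 : ℝ) < (t : ℝ) ^ (4 * J) := by positivity
    have h1 : (t : ℝ) ^ (4 * J) * #Bad ≤ (t : ℝ) ^ J * #S * (2 * ((t : ℝ) + 1) ^ J) := by
      calc (t : ℝ) ^ (4 * J) * #Bad
          ≤ (t : ℝ) ^ (4 * J) * ∑ x ∈ S, (t : ℝ) ^ J * (1 / (Y : ℝ)) ^ rr S m t J x :=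
            mul_le_mul_of_nonneg_left hB1 hpos.le
        _ ≤ (t : ℝ) ^ J * #S * Psi S m Y t J := hB2
        _ ≤ (t : ℝ) ^ J * #S * (2 * ((t : ℝ) + 1) ^ J) :=
            mul_le_mul_of_nonneg_left hPsi (by positivity)
    have h2 : (t : ℝ) ^ (4 * J) * (2 * #Bad) ≤ (t : ℝ) ^ (4 * J) * #S := by
      have e : (t : ℝ) ^ (4 * J) = (t : ℝ) ^ J * (t : ℝ) ^ (3 * J) := by
        rw [← pow_add]; congr 1; ring
      calc (t : ℝ) ^ (4 * J) * (2 * #Bad) = 2 * ((t : ℝ) ^ (4 * J) * #Bad) := by ring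
        _ ≤ 2 * ((t : ℝ) ^ J * #S * (2 * ((t : ℝ) + 1) ^ J)) := by linarith
        _ = (t : ℝ) ^ J * #S * (2 * (2 * ((t : ℝ) + 1) ^ J)) := by ring
        _ ≤ (t : ℝ) ^ J * #S * (t : ℝ) ^ (3 * J) :=
            mul_le_mul_of_nonneg_left hfrac (by positivity)
        _ = (t : ℝ) ^ (4 * J) * #S := by rw [e]; ring
    exact le_of_mul_le_mul_left h2 hpos
  -- the others
  set Good := S.filter (fun x => ¬ N' * rr S m t J x ≤ J) with hGood
  have hcard : (#Bad : ℝ) + #Good = #S := by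
    have := Finset.card_filter_add_card_filter_not (s := S) (fun x => N' * rr S m t J x ≤ J)
    exact_mod_cast this
  have hG : (J : ℝ) * #Good ≤ N' * ∑ x ∈ S, (rr S m t J x : ℝ) := by
    calc (J : ℝ) * #Good = ∑ x ∈ Good, (J : ℝ) := by
          rw [Finset.sum_const, nsmul_eq_mul]; ring
      _ ≤ ∑ x ∈ Good, (N' : ℝ) * rr S m t J x := by
          refine Finset.sum_le_sum fun x hx => ?_
          have := (not_le.1 (Finset.mem_filter.1 hx).2).le
          exact_mod_cast this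
      _ ≤ ∑ x ∈ S, (N' : ℝ) * rr S m t J x :=
          Finset.sum_le_sum_of_subset_of_nonneg (Finset.filter_subset _ _)
            (fun x _ _ => by positivity)
      _ = _ := by rw [Finset.mul_sum]
  have hGS : (#S : ℝ) ≤ 2 * #Good := by linarith
  calc (J : ℝ) * #S ≤ J * (2 * #Good) := mul_le_mul_of_nonneg_left hGS (by positivity)
    _ = 2 * (J * #Good) := by ring
    _ ≤ 2 * (N' * ∑ x ∈ S, (rr S m t J x : ℝ)) := by linarith
    _ = _ := by ring

end Pool.Agent.LqLow
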