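import Pool.Agent.LqLow.Basic
import Pool.Agent.LqLow.RichWin

open Finset

namespace Pool.Agent.LqLow

open Pool.Agent.LqFlat

namespace Sys

variable (s : Sys)

lemma num_congr {n T T' : ℕ} {z : ℤ} (h : T' ≡ T [MOD 3 * 3 ^ (s.n0 * n)]) :
    ∃ k : ℤ, s.nd n T' z = s.nd n T z + 3 * k ∧ (s.Hit n z T' ↔ s.Hit n z T) := by
  obtain ⟨k, hk⟩ := Nat.modEq_iff_dvd.1 h
  push_cast at hk
  have e : (2 : ℤ) ^ (s.B * n) * z - T' = (2 ^ (s.B * n) * z - T) + 3 ^ (s.n0 * n) * (3 * k) := by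
    have : (T' : ℤ) = T - 3 * 3 ^ (s.n0 * n) * k := by linarith
    rw [this]; ring
  have h1 : s.nd n T' z = s.nd n T z + 3 * k := by
    unfold nd
    rw [e, Int.add_mul_ediv_left _ _ (by positivity)]
  refine ⟨k, h1, ?_⟩
  unfold Hit
  rw [h1, e, Int.add_mul_emod_self_left]
  have h2 : (3 : ℤ) ^ (s.n0 * n) ∣ (2 ^ (s.B * n) * z - T) + 3 ^ (s.n0 * n) * (3 * k)
      ↔ (3 : ℤ) ^ (s.n0 * n) ∣ (2 ^ (s.B * n) * z - T) := Int.dvd_add_left (dvd_mul_right _ _)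
  rw [h2]

lemma modEq_of_le {n X T T' : ℕ} (h : T' ≡ T [MOD 3 * 3 ^ (s.n0 * (n + X))]) :
    T' ≡ T [MOD 3 * 3 ^ (s.n0 * n)] := by
  refine h.of_dvd ?_
  apply mul_dvd_mul_left
  apply pow_dvd_pow
  exact Nat.mul_le_mul_left _ (Nat.le_add_right _ _)

lemma filter_C_eq {n X T : ℕ} {z : ℤ} (hT : T ∈ s.Wn n z) :
    ({T' ∈ s.C n | T' ≡ T [MOD 3 * 3 ^ (s.n0 * (n + X))]} : Finset ℕ)
      = cl (s.Wn n z) (3 * 3 ^ (s.n0 * (n + X))) T := by
  unfold cl
  ext T'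
  rw [Finset.mem_filter, Finset.mem_filter, mem_Wn]
  constructor
  · rintro ⟨h1, h2⟩
    obtain ⟨k, _, h3⟩ := s.num_congr (z := z) (s.modEq_of_le h2)
    exact ⟨⟨h1, h3.2 (s.mem_Wn.1 hT).2⟩, h2⟩
  · rintro ⟨⟨h1, _⟩, h2⟩
    exact ⟨h1, h2⟩

/-- (3.1) -/
lemma class_le {n h : ℕ} (hh : h ≤ n) (y : ℤ) (x : ℕ) :
    (2 : ℝ) ^ h * #{T ∈ s.Wn n y | T ≡ x [MOD 3 * 3 ^ (s.n0 * (n + 3 * h))]} ≤ s.A n y := by
  obtain ⟨r, rfl⟩ : ∃ r, n = r + h := ⟨n - h, by omega⟩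
  refine le_trans ?_ (s.A_le_add r h)
  apply mul_le_mul_of_nonneg_left _ (by positivity)
  have h1 := s.sum_Wn_add r h y
    (fun T _ => if T ≡ x [MOD 3 * 3 ^ (s.n0 * (r + h + 3 * h))] then (1 : ℝ) else 0)
  rw [← Finset.sum_filter, Finset.sum_const, nsmul_eq_mul, mul_one] at h1
  rw [h1]
  unfold A
  have h2 : ∀ T ∈ s.Wn r y, ∑ T' ∈ s.Wn h (s.nd r T y),
      (if 2 ^ (s.B * h) * T + 3 ^ (s.n0 * r) * T' ≡ x [MOD 3 * 3 ^ (s.n0 * (r + h + 3 * h))]
        then (1 : ℝ) else 0) ≤ 1 := by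
    intro T _
    rw [← Finset.sum_filter, Finset.sum_const, nsmul_eq_mul, mul_one]
    have h3 : #((s.Wn h (s.nd r T y)).filter fun T' =>
        2 ^ (s.B * h) * T + 3 ^ (s.n0 * r) * T' ≡ x [MOD 3 * 3 ^ (s.n0 * (r + h + 3 * h))]) ≤ 1 := by
      rw [Finset.card_le_one]
      intro v hv v' hv'
      rw [Finset.mem_filter, mem_Wn] at hv hv'
      have h4 : 3 ^ (s.n0 * r) * v ≡ 3 ^ (s.n0 * r) * v'
          [MOD 3 * 3 ^ (s.n0 * (r + h + 3 * h))] :=
        Nat.ModEq.add_left_cancel' (2 ^ (s.B * h) * T) (hv.2.trans hv'.2.symm)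
      have e1 : 3 * 3 ^ (s.n0 * (r + h + 3 * h))
          = 3 ^ (s.n0 * r) * (3 * 3 ^ (s.n0 * (h + 3 * h))) := by
        have : s.n0 * (r + h + 3 * h) = s.n0 * r + s.n0 * (h + 3 * h) := by ring
        rw [this, pow_add]; ring
      rw [e1] at h4
      have h5 : v ≡ v' [MOD 3 * 3 ^ (s.n0 * (h + 3 * h))] :=
        Nat.ModEq.mul_left_cancel' (by positivity) h4
      have hlt : ∀ w ∈ s.C h, w < 3 * 3 ^ (s.n0 * (h + 3 * h)) := by
        intro w hw
        have h6 := s.C_lt hw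
        have h7 : 2 ^ (s.B * h) ≤ 3 ^ (3 * s.n0 * h) := by
          rw [pow_mul, pow_mul]
          exact Nat.pow_le_pow_left s.hB h
        have h8 : 3 ^ (s.n0 * h) * 2 ^ (s.B * h) ≤ 3 ^ (s.n0 * h) * 3 ^ (3 * s.n0 * h) :=
          Nat.mul_le_mul_left _ h7
        have h9 : 3 ^ (s.n0 * h) * 3 ^ (3 * s.n0 * h) = 3 ^ (s.n0 * (h + 3 * h)) := by
          rw [← pow_add]; congr 1; ring
        have h10 : 0 < 3 ^ (s.n0 * (h + 3 * h)) := by positivity
        omega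
      exact Nat.ModEq.eq_of_lt_of_lt h5 (hlt v hv.1.1) (hlt v' hv'.1.1)
    exact_mod_cast h3
  refine (Finset.sum_le_sum h2).trans (le_of_eq ?_)
  simp

lemma sum_cl_le_one {S P : Finset ℕ} {m : ℕ} (h : ∀ x ∈ P, P ⊆ cl S m x) :
    ∑ x ∈ P, (1 : ℝ) / #(cl S m x) ≤ 1 := by
  rcases P.eq_empty_or_nonempty with rfl | hne
  · simp
  · have hP : (0 : ℝ) < #P := by exact_mod_cast hne.card_pos
    calc ∑ x ∈ P, (1 : ℝ) / #(cl S m x) ≤ ∑ x ∈ P, (1 : ℝ) / #P := by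
          apply Finset.sum_le_sum
          intro x hx
          apply one_div_le_one_div_of_le hP
          exact_mod_cast Finset.card_le_card (h x hx)
      _ = 1 := by
          rw [Finset.sum_const, nsmul_eq_mul]
          field_simp

/-- (3.2) -/
theorem rich_avg {L t : ℕ} (hL : 24 ∣ L) (hL0 : 0 < L) (ht : t = 2 ^ (L / 12)) {n J : ℕ}
    (hJ : 1 ≤ J) (hJn : J * L ≤ 3 * n) {y : ℤ} (hy : y % 3 ≠ 0) :
    (1 / (48 * s.n0) : ℝ) * J
      ≤ ∑ j ∈ range J, (s.A n y)⁻¹ * #{T ∈ s.Wn n y | s.Rich t L n (j * L) T} := by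
  obtain ⟨l, rfl⟩ := hL
  have hl : 1 ≤ l := by omega
  have e12 : 24 * l / 12 = 2 * l := by omega
  rw [e12] at ht
  set S := s.Wn n y with hS
  have hn0 : 0 < s.n0 := s.n0pos
  have hAS : s.A n y = #S := rfl
  have hA := s.A_pos n hy
  have key := rich_windows (S := S) (m := fun j => 3 * 3 ^ (s.n0 * (n + j * (24 * l))))
    (Y := 3 ^ (s.n0 * (24 * l))) (t := t) (N' := 24 * s.n0) (J := J) (by
      intro j
      have e : s.n0 * (n + (j + 1) * (24 * l)) = s.n0 * (n + j * (24 * l)) + s.n0 * (24 * l) := by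
        ring
      rw [e, pow_add]; ring) (by positivity) (by positivity) (by
      rw [ht]
      calc 3 ≤ 2 ^ 2 := by norm_num
        _ ≤ 2 ^ (2 * l) := Nat.pow_le_pow_right (by norm_num) (by omega)) (by positivity) (by
      rw [ht, ← pow_mul]
      calc 3 ^ (s.n0 * (24 * l)) ≤ (2 ^ 2) ^ (s.n0 * (24 * l)) :=
            Nat.pow_le_pow_left (by norm_num) _
        _ = 2 ^ (2 * l * (24 * s.n0)) := by rw [← pow_mul]; congr 1; ring) (by
      simp only [zero_mul, add_zero]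
      rw [← Finset.sum_filter_add_sum_filter_not S (fun x => s.nd n x y % 3 = 1)]
      have hsub : ∀ x ∈ S, ∀ x' ∈ S, s.nd n x y % 3 = s.nd n x' y % 3 →
          x' ∈ cl S (3 * 3 ^ (s.n0 * n)) x := by
        intro x hx x' hx' h
        unfold cl
        rw [Finset.mem_filter]
        refine ⟨hx', ?_⟩
        rw [Nat.modEq_iff_dvd]
        have h1 := s.nd_mul ((s.mem_Wn.1 hx).2.1)
        have h2 := s.nd_mul ((s.mem_Wn.1 hx').2.1)
        obtain ⟨k, hk⟩ : (3 : ℤ) ∣ s.nd n x' y - s.nd n x y := by omega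
        refine ⟨k, ?_⟩
        push_cast
        have h3 : (3 : ℤ) ^ (s.n0 * n) * (s.nd n x' y - s.nd n x y) = x - x' := by
          rw [mul_sub, h1, h2]; ring
        rw [← h3, hk]; ring
      have p1 := sum_cl_le_one (S := S) (P := S.filter fun x => s.nd n x y % 3 = 1)
        (m := 3 * 3 ^ (s.n0 * n)) (by
          intro x hx x' hx'
          rw [Finset.mem_filter] at hx hx'
          exact hsub x hx.1 x' hx'.1 (by rw [hx.2, hx'.2]))
      have p2 := sum_cl_le_one (S := S) (P := S.filter fun x => ¬ s.nd n x y % 3 = 1)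
        (m := 3 * 3 ^ (s.n0 * n)) (by
          intro x hx x' hx'
          rw [Finset.mem_filter] at hx hx'
          have h1 := s.nd_unit hx.1
          have h2 := s.nd_unit hx'.1
          exact hsub x hx.1 x' hx'.1 (by omega))
      linarith) (by
      intro x _
      have h1 := s.class_le (n := n) (h := 8 * l * J) (by
        have : J * (24 * l) = 3 * (8 * l * J) := by ring
        omega) y x
      have e1 : (t : ℝ) ^ (4 * J) = 2 ^ (8 * l * J) := by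
        rw [ht]; push_cast; rw [← pow_mul]; congr 1; ring
      have e2 : n + 3 * (8 * l * J) = n + J * (24 * l) := by ring
      rw [e2, hAS] at h1
      rw [e1]
      exact h1) hJ
  have h3 : ∀ j ∈ range J, (s.A n y)⁻¹ * (#{T ∈ s.Wn n y | s.Rich t (24 * l) n (j * (24 * l)) T} : ℝ)
      = (#S : ℝ)⁻¹ * (#{x ∈ S | t * #(cl S (3 * 3 ^ (s.n0 * (n + (j + 1) * (24 * l)))) x)
        ≤ #(cl S (3 * 3 ^ (s.n0 * (n + j * (24 * l)))) x)} : ℝ) := by
    intro j _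
    rw [hAS]
    congr 3
    apply Finset.filter_congr
    intro T hT
    unfold Rich
    have e : n + j * (24 * l) + 24 * l = n + (j + 1) * (24 * l) := by ring
    rw [e, s.filter_C_eq hT, s.filter_C_eq hT]
  rw [Finset.sum_congr rfl h3, ← Finset.mul_sum]
  rw [hAS] at hA
  push_cast at key ⊢
  have hn0' : (0 : ℝ) < s.n0 := by exact_mod_cast hn0
  rw [div_mul_eq_mul_div, one_mul, div_le_iff₀ (by positivity), inv_mul_eq_div,
    div_mul_eq_mul_div, le_div_iff₀ hA]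
  linarith

end Sys

end Pool.Agent.LqLow
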