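import Pool.Agent.LqLow.Lists
import Pool.Agent.LqLow.RichAvg

open Finset

namespace Pool.Agent.LqLow

open Pool.Agent.LqFlat

/-- some fibre has a non-positive sum -/
lemma exists_fiber {W : Finset ℕ} {m : ℕ} (hne : W.Nonempty) {φ : ℕ → ℝ}
    (h : ∑ T ∈ W, φ T ≤ 0) : ∃ T0 ∈ W, ∑ T ∈ W.filter (fun T => T % m = T0 % m), φ T ≤ 0 := by
  classical
  by_contra hcon
  push Not at hcon
  have h1 := Finset.sum_fiberwise_of_maps_to (s := W) (t := W.image fun T => T % m)
    (g := fun T => T % m) (fun T hT => Finset.mem_image_of_mem _ hT) φ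
  have h2 : 0 < ∑ j ∈ W.image fun T => T % m, ∑ T ∈ W.filter (fun T => T % m = j), φ T := by
    apply Finset.sum_pos
    · intro j hj
      obtain ⟨T0, hT0, rfl⟩ := Finset.mem_image.1 hj
      exact hcon T0 hT0
    · exact hne.image _
  rw [h1] at h2
  linarith

namespace Sys

variable (s : Sys)

/-- (5.1) -/
theorem mix {t L : ℕ} {lam : ℝ} (ns : List ℕ) : ∀ (x : ℤ) (k0 : ℝ) (ψ : ℤ → ℝ),
    x % 3 ≠ 0 → s.E ns ψ x - lam * s.Rp t L ns 0 x + k0 ≤ 0 →
    ∃ (zs : List (Finset ℤ × ℕ)) (y : ℤ), zs.length = ns.length ∧ (∀ p ∈ zs, p.1.Nonempty) ∧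
      y % 3 ≠ 0 ∧ av zs ψ y - lam * rsum t (3 ^ (s.n0 * L)) zs + k0 ≤ 0 := by
  classical
  induction ns with
  | nil =>
    intro x k0 ψ hx h
    exact ⟨[], x, rfl, by simp, hx, h⟩
  | cons n ns ih =>
    intro x k0 ψ hx h
    set N := ns.sum with hN
    set m := 3 * 3 ^ (s.n0 * (n + N)) with hm
    set φ : ℕ → ℝ := fun T => s.E ns ψ (s.nd n T x)
      - lam * ((if s.Rich t L n (N + 0) T then 1 else 0) + s.Rp t L ns 0 (s.nd n T x)) + k0 with hφ
    have hA := s.A_pos n hx
    have hne : (s.Wn n x).Nonempty := by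
      rw [← Finset.card_pos]
      unfold A at hA
      exact_mod_cast hA
    have hsum : ∑ T ∈ s.Wn n x, φ T ≤ 0 := by
      have h1 : ∑ T ∈ s.Wn n x, φ T
          = s.A n x * (s.E (n :: ns) ψ x - lam * s.Rp t L (n :: ns) 0 x + k0) := by
        rw [E, Rp, ← hN]
        simp only [hφ]
        rw [Finset.sum_add_distrib, Finset.sum_sub_distrib, Finset.sum_const, nsmul_eq_mul,
          ← Finset.mul_sum]
        have : (#(s.Wn n x) : ℝ) = s.A n x := rfl
        rw [this]
        field_simp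
      rw [h1]
      exact mul_nonpos_of_nonneg_of_nonpos hA.le h
    obtain ⟨T0, hT0, hF⟩ := exists_fiber (m := m) hne hsum
    set F := (s.Wn n x).filter (fun T => T % m = T0 % m) with hFdef
    set y0 := s.nd n T0 x with hy0
    have hy0u : y0 % 3 ≠ 0 := s.nd_unit hT0
    -- the offsets
    have hk : ∀ T ∈ F, ∃ k : ℤ, (T : ℤ) = T0 + (m : ℤ) * k := by
      intro T hT
      rw [hFdef, Finset.mem_filter] at hT
      have h1 : T0 ≡ T [MOD m] := hT.2.symm
      obtain ⟨k, hk⟩ := Nat.modEq_iff_dvd.1 h1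
      exact ⟨k, by linarith⟩
    have hm0 : (m : ℤ) ≠ 0 := by rw [hm]; positivity
    set ζ : ℕ → ℤ := fun T => ((T : ℤ) - T0) / m with hζ
    have hζT : ∀ T ∈ F, (T : ℤ) = T0 + (m : ℤ) * ζ T := by
      intro T hT
      obtain ⟨k, hk⟩ := hk T hT
      have : ζ T = k := by
        simp only [hζ]
        rw [hk, add_sub_cancel_left, Int.mul_ediv_cancel_left _ hm0]
      rw [this]; exact hk
    have hinj : Set.InjOn ζ F := by
      intro T hT T' hT' h
      have h1 := hζT T hT
      have h2 := hζT T' hT'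
      rw [h] at h1
      rw [← h1] at h2
      exact_mod_cast h2.symm
    set Z := F.image ζ with hZ
    have hT0F : T0 ∈ F := by
      rw [hFdef, Finset.mem_filter]
      exact ⟨hT0, rfl⟩
    have hFne : F.Nonempty := ⟨T0, hT0F⟩
    have hcard : #Z = #F := Finset.card_image_of_injOn hinj
    have hF0 : (0 : ℝ) < #F := by exact_mod_cast hFne.card_pos
    have hnd : ∀ T ∈ F, s.nd n T x = y0 + 3 * 3 ^ (s.n0 * N) * (-(ζ T)) := by
      intro T hT
      have h1 := hζT T hT
      rw [hy0]
      unfold nd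
      have e : (2 : ℤ) ^ (s.B * n) * x - T
          = (2 ^ (s.B * n) * x - T0) + 3 ^ (s.n0 * n) * (3 * 3 ^ (s.n0 * N) * (-(ζ T))) := by
        rw [h1, hm, mul_add, pow_add]; push_cast; ring
      rw [e, Int.add_mul_ediv_left _ _ (by positivity)]
    set ψZ : ℤ → ℝ := fun u => (#Z : ℝ)⁻¹ * ∑ z ∈ Z, ψ (u - 3 * 2 ^ (s.B * N) * z) with hψZ
    -- the three sums
    have hE : ∑ T ∈ F, s.E ns ψ (s.nd n T x) = #F * s.E ns ψZ y0 := by
      rw [hψZ, s.E_lin, ← mul_assoc, hcard, mul_inv_cancel₀ hF0.ne', one_mul, hZ,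
        Finset.sum_image hinj]
      apply Finset.sum_congr rfl
      intro T hT
      rw [hnd T hT, s.E_shift]
      congr 1
      ext u
      congr 1
      ring
    have hR : ∑ T ∈ F, s.Rp t L ns 0 (s.nd n T x) = #F * s.Rp t L ns 0 y0 := by
      rw [Finset.sum_congr rfl fun T hT => by rw [hnd T hT, s.Rp_shift], Finset.sum_const,
        nsmul_eq_mul]
    have hset1 : ∀ T ∈ F, ({T' ∈ s.C n | T' ≡ T [MOD 3 * 3 ^ (s.n0 * (n + (N + 0)))]} : Finset ℕ)
        = F := by
      intro T hT
      have hTW : T ∈ s.Wn n x := (Finset.mem_filter.1 hT).1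
      rw [s.filter_C_eq hTW, add_zero, ← hm]
      unfold cl
      rw [hFdef]
      apply Finset.filter_congr
      intro T' _
      have h1 : T % m = T0 % m := (Finset.mem_filter.1 hT).2
      unfold Nat.ModEq
      rw [h1]
    have hset2 : ∀ T ∈ F,
        #({T' ∈ s.C n | T' ≡ T [MOD 3 * 3 ^ (s.n0 * (n + (N + 0) + L))]} : Finset ℕ)
        = #({z' ∈ Z | ((3 ^ (s.n0 * L) : ℕ) : ℤ) ∣ z' - ζ T} : Finset ℤ) := by
      intro T hT
      have hTW : T ∈ s.Wn n x := (Finset.mem_filter.1 hT).1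
      symm
      rw [hZ, Finset.filter_image, Finset.card_image_of_injOn
        (hinj.mono (by simp only [Finset.coe_filter]; exact fun a ha => ha.1))]
      congr 1
      ext T'
      constructor
      · intro hh
        obtain ⟨h1, h2⟩ := Finset.mem_filter.1 hh
        apply Finset.mem_filter.2
        refine ⟨(s.mem_Wn.1 (Finset.mem_filter.1 h1).1).1, ?_⟩
        apply Nat.ModEq.symm
        rw [Nat.modEq_iff_dvd, hζT T hT, hζT T' h1]
        obtain ⟨k, hk⟩ := h2
        refine ⟨k, ?_⟩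
        have e : (T0 : ℤ) + m * ζ T' - (T0 + m * ζ T) = m * (ζ T' - ζ T) := by ring
        rw [e, hk, hm]
        have e2 : s.n0 * (n + (N + 0) + L) = s.n0 * (n + N) + s.n0 * L := by ring
        rw [e2, pow_add 3 (s.n0 * (n + N))]
        push_cast; ring
      · intro hh
        obtain ⟨h1, h2⟩ := Finset.mem_filter.1 hh
        apply Finset.mem_filter.2
        have h3 : T' ∈ F := by
          rw [← hset1 T hT, Finset.mem_filter]
          refine ⟨h1, ?_⟩
          refine h2.of_dvd ?_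
          apply mul_dvd_mul_left
          apply pow_dvd_pow
          exact Nat.mul_le_mul_left _ (Nat.le_add_right _ _)
        refine ⟨h3, ?_⟩
        have h4 := Nat.modEq_iff_dvd.1 h2.symm
        rw [hζT T hT, hζT T' h3] at h4
        have e : (T0 : ℤ) + m * ζ T' - (T0 + m * ζ T) = m * (ζ T' - ζ T) := by ring
        have e2 : s.n0 * (n + (N + 0) + L) = s.n0 * (n + N) + s.n0 * L := by ring
        rw [e, e2, pow_add 3 (s.n0 * (n + N)), ← mul_assoc, ← hm] at h4
        push_cast at h4 ⊢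
        exact Int.dvd_of_mul_dvd_mul_left hm0 h4
    have hRich : ∑ T ∈ F, (if s.Rich t L n (N + 0) T then (1 : ℝ) else 0)
        = #(richPart t (3 ^ (s.n0 * L)) Z) := by
      rw [← Finset.sum_filter, Finset.sum_const, nsmul_eq_mul, mul_one]
      unfold richPart
      rw [hZ, Finset.filter_image, Finset.card_image_of_injOn
        (hinj.mono (by simp only [Finset.coe_filter]; exact fun a ha => ha.1))]
      congr 2
      apply Finset.filter_congr
      intro T hT
      unfold Rich
      rw [hset1 T hT, hset2 T hT, ← hcard]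
    have hfin : s.E ns ψZ y0 - lam * s.Rp t L ns 0 y0
        + (k0 - lam * ((#(richPart t (3 ^ (s.n0 * L)) Z) : ℝ) / #Z)) ≤ 0 := by
      have h1 : ∑ T ∈ F, φ T = #F * (s.E ns ψZ y0 - lam * s.Rp t L ns 0 y0
        + (k0 - lam * ((#(richPart t (3 ^ (s.n0 * L)) Z) : ℝ) / #Z))) := by
        simp only [hφ]
        rw [Finset.sum_add_distrib, Finset.sum_sub_distrib, Finset.sum_const, nsmul_eq_mul,
          ← Finset.mul_sum, Finset.sum_add_distrib, hE, hR, hRich, hcard]
        have h2 : (#F : ℝ) * ((#(richPart t (3 ^ (s.n0 * L)) Z) : ℝ) / #F)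
            = #(richPart t (3 ^ (s.n0 * L)) Z) := mul_div_cancel₀ _ hF0.ne'
        linear_combination lam * h2
      rw [h1] at hF
      by_contra hcon
      push Not at hcon
      exact absurd hF (not_le.mpr (mul_pos hF0 hcon))
    obtain ⟨zs, y, h1, h2, h3, h4⟩ := ih y0 _ ψZ hy0u hfin
    refine ⟨(Z, s.B * N) :: zs, y, by simp [h1], ?_, h3, ?_⟩
    · intro p hp
      rcases List.mem_cons.1 hp with rfl | hp
      · exact hFne.image _
      · exact h2 p hp
    · rw [av, rsum]
      simp only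
      have e1 : av zs ψZ y = (#Z : ℝ)⁻¹ * ∑ z ∈ Z, av zs ψ (y - 3 * 2 ^ (s.B * N) * z) := by
        rw [hψZ, av_lin]
        congr 1
        apply Finset.sum_congr rfl
        intro z _
        rw [av_trans]
      rw [← e1]
      linarith

end Sys

end Pool.Agent.LqLow
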