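import Pool.Agent.LqLow.Lists

open Finset

namespace Pool.Agent.LqLow

open Pool.Agent.LqFlat

/-- law of `2 ^ e * z` modulo `Mo` for uniform `z ∈ Z` -/
noncomputable def tz (Mo e : ℕ) (Z : Finset ℤ) (x : ℤ) : ℝ :=
  (#(Z.filter fun z => (Mo : ℤ) ∣ 2 ^ e * z - x) : ℝ) / #Z

lemma tz_nonneg (Mo e : ℕ) (Z : Finset ℤ) (x : ℤ) : 0 ≤ tz Mo e Z x :=
  div_nonneg (Nat.cast_nonneg _) (Nat.cast_nonneg _)

lemma tz_per (Mo e : ℕ) (Z : Finset ℤ) : Per Mo (tz Mo e Z) := by
  intro x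
  unfold tz
  have h : (Z.filter fun z => (Mo : ℤ) ∣ 2 ^ e * z - (x + Mo))
      = Z.filter fun z => (Mo : ℤ) ∣ 2 ^ e * z - x := by
    apply Finset.filter_congr
    intro z _
    have e1 : (2 : ℤ) ^ e * z - (x + Mo) = (2 ^ e * z - x) + (-1) * Mo := by ring
    rw [e1]
    exact Int.dvd_add_left (dvd_mul_left _ _)
  rw [h]

lemma T_tz {Mo e : ℕ} (hMo : 0 < Mo) {Z : Finset ℤ} {F : ℤ → ℝ} (hF : Per Mo F) (v : ℤ) :
    T Mo (tz Mo e Z) F v = (#Z : ℝ)⁻¹ * ∑ z ∈ Z, F (v - 2 ^ e * z) := by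
  unfold T tz
  have h1 : ∀ c : ℕ, (#(Z.filter fun z => (Mo : ℤ) ∣ 2 ^ e * z - c) : ℝ) / #Z * F (v - c)
      = (#Z : ℝ)⁻¹ * ∑ z ∈ Z, if (Mo : ℤ) ∣ 2 ^ e * z - c then F (v - c) else 0 := by
    intro c
    rw [← Finset.sum_filter, Finset.sum_const, nsmul_eq_mul]
    ring
  simp only [h1]
  rw [← Finset.mul_sum, Finset.sum_comm]
  congr 1
  apply Finset.sum_congr rfl
  intro z _
  have hMo' : (0 : ℤ) < Mo := by exact_mod_cast hMo
  have h2 : 0 ≤ (2 ^ e * z) % (Mo : ℤ) := Int.emod_nonneg _ hMo'.ne'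
  have h3 : (2 ^ e * z) % (Mo : ℤ) < Mo := Int.emod_lt_of_pos _ hMo'
  set c0 : ℕ := ((2 ^ e * z) % (Mo : ℤ)).toNat with hc0
  have h4 : (c0 : ℤ) = (2 ^ e * z) % (Mo : ℤ) := Int.toNat_of_nonneg h2
  have h5 : (Mo : ℤ) ∣ 2 ^ e * z - c0 := by
    rw [h4]; exact Int.dvd_self_sub_emod
  rw [Finset.sum_eq_single c0]
  · rw [if_pos h5]
    apply hF.eq_of
    have : v - (c0 : ℤ) - (v - 2 ^ e * z) = 2 ^ e * z - c0 := by ring
    rw [this]; exact h5
  · intro c hc hne
    rw [if_neg]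
    intro hd
    apply hne
    have h6 : (Mo : ℤ) ∣ (c : ℤ) - c0 := by
      have := dvd_sub h5 hd
      have e2 : (2 : ℤ) ^ e * z - c0 - (2 ^ e * z - c) = c - c0 := by ring
      rwa [e2] at this
    have h7 := Finset.mem_range.1 hc
    have h8 : (c : ℤ) % Mo = c0 % Mo :=
      Int.emod_eq_emod_iff_emod_sub_eq_zero.2 (Int.emod_eq_zero_of_dvd h6)
    rw [Int.emod_eq_of_lt (by positivity) (by exact_mod_cast h7),
      Int.emod_eq_of_lt (by positivity) (by rw [h4]; exact h3)] at h8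
    exact_mod_cast h8
  · intro hc
    exfalso
    apply hc
    rw [Finset.mem_range]
    have : (c0 : ℤ) < Mo := by rw [h4]; exact h3
    exact_mod_cast this

lemma mass_tz {Mo e : ℕ} (hMo : 0 < Mo) {Z : Finset ℤ} (hZ : Z.Nonempty) :
    mass Mo (tz Mo e Z) = 1 := by
  have h := T_tz (e := e) hMo (Z := Z) (F := fun _ => 1) (fun _ => rfl) 0
  unfold T at h
  simp only [mul_one, Finset.sum_const, nsmul_eq_mul] at h
  unfold mass
  rw [h]
  have : (0 : ℝ) < #Z := by exact_mod_cast hZ.card_pos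
  field_simp

/-- atoms of the rich part -/
lemma tz_rich_le {f e t : ℕ} (ht : 0 < t) {ρ0 : ℝ} (hρ0 : 0 < ρ0) {Z : Finset ℤ}
    (hZ : Z.Nonempty) (hρ : ρ0 * #Z ≤ #(richPart t (3 ^ f) Z)) (x : ℤ) :
    tz (3 ^ f) e (richPart t (3 ^ f) Z) x ≤ 1 / (t * ρ0) := by
  have hZ0 : (0 : ℝ) < #Z := by exact_mod_cast hZ.card_pos
  have ht' : (0 : ℝ) < t := by exact_mod_cast ht
  have hR0 : (0 : ℝ) < #(richPart t (3 ^ f) Z) := lt_of_lt_of_le (by positivity) hρ
  unfold tz
  rw [div_le_div_iff₀ hR0 (by positivity), one_mul]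
  rcases ((richPart t (3 ^ f) Z).filter fun z => ((3 ^ f : ℕ) : ℤ) ∣ 2 ^ e * z - x).eq_empty_or_nonempty
    with h0 | ⟨z0, hz0⟩
  · rw [h0]; simp
  · obtain ⟨h1, h2⟩ := Finset.mem_filter.1 hz0
    obtain ⟨h3, h4⟩ := Finset.mem_filter.1 h1
    have hsub : ((richPart t (3 ^ f) Z).filter fun z => ((3 ^ f : ℕ) : ℤ) ∣ 2 ^ e * z - x)
        ⊆ Z.filter fun z' => ((3 ^ f : ℕ) : ℤ) ∣ z' - z0 := by
      intro z hz
      obtain ⟨h5, h6⟩ := Finset.mem_filter.1 hz
      rw [Finset.mem_filter]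
      refine ⟨(Finset.mem_filter.1 h5).1, ?_⟩
      have h7 : ((3 ^ f : ℕ) : ℤ) ∣ 2 ^ e * (z - z0) := by
        have := dvd_sub h6 h2
        have e1 : (2 : ℤ) ^ e * z - x - (2 ^ e * z0 - x) = 2 ^ e * (z - z0) := by ring
        rwa [e1] at this
      have h8 : IsCoprime ((3 ^ f : ℕ) : ℤ) (2 ^ e) := by
        push_cast
        apply IsCoprime.pow
        norm_num
      exact h8.dvd_of_dvd_mul_left h7
    have h5 := Finset.card_le_card hsub
    have h6 : (t : ℝ) * #(Z.filter fun z' => ((3 ^ f : ℕ) : ℤ) ∣ z' - z0) ≤ #Z := by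
      exact_mod_cast h4
    have h7 : (#((richPart t (3 ^ f) Z).filter fun z => ((3 ^ f : ℕ) : ℤ) ∣ 2 ^ e * z - x) : ℝ)
        ≤ #(Z.filter fun z' => ((3 ^ f : ℕ) : ℤ) ∣ z' - z0) := by exact_mod_cast h5
    calc (#((richPart t (3 ^ f) Z).filter fun z => ((3 ^ f : ℕ) : ℤ) ∣ 2 ^ e * z - x) : ℝ) * (t * ρ0)
        ≤ #(Z.filter fun z' => ((3 ^ f : ℕ) : ℤ) ∣ z' - z0) * (t * ρ0) :=
          mul_le_mul_of_nonneg_right h7 (by positivity)
      _ = (t * #(Z.filter fun z' => ((3 ^ f : ℕ) : ℤ) ∣ z' - z0)) * ρ0 := by ring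
      _ ≤ #Z * ρ0 := mul_le_mul_of_nonneg_right h6 hρ0.le
      _ ≤ _ := by linarith

/-- from populations to convolutions -/
theorem pop {t f : ℕ} (ht : 0 < t) {ρ0 : ℝ} (hρ0 : 0 < ρ0) (hρ1 : ρ0 ≤ 1) {ψ : ℤ → ℝ}
    (hψ : ∀ z, 0 ≤ ψ z) (hψp : ∀ z k : ℤ, ψ (z + 3 * 3 ^ f * k) = ψ z) :
    ∀ zs : List (Finset ℤ × ℕ), (∀ p ∈ zs, p.1.Nonempty) →
    ∃ (τ : Fin zs.length → ℤ → ℝ) (I : Finset (Fin zs.length)), (∀ i x, 0 ≤ τ i x) ∧
      (∀ i, Per (3 ^ f) (τ i)) ∧ (∀ i, mass (3 ^ f) (τ i) = 1) ∧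
      (∀ i ∈ I, ∀ x, τ i x ≤ 1 / (t * ρ0)) ∧
      rsum t (3 ^ f) zs ≤ #I + ρ0 * zs.length ∧
      ∀ y v : ℤ, ρ0 ^ zs.length * CK zs.length (3 ^ f) τ (fun x => ψ (y + 3 * x)) v
        ≤ av zs ψ (y + 3 * v) := by
  classical
  intro zs
  induction zs with
  | nil =>
    intro _
    refine ⟨fun i => i.elim0, ∅, fun i => i.elim0, fun i => i.elim0, fun i => i.elim0,
      fun i => i.elim0, by simp [rsum], ?_⟩
    intro y v
    simp only [List.length_nil, pow_zero, one_mul, av]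
    rw [CK_zero]
  | cons p zs ih =>
    intro hne
    obtain ⟨τ, I, h1, h2, h3, h4, h5, h6⟩ := ih fun p hp => hne p (List.mem_cons_of_mem _ hp)
    have hp : p.1.Nonempty := hne p List.mem_cons_self
    have hp0 : (0 : ℝ) < #p.1 := by exact_mod_cast hp.card_pos
    have hMo : 0 < 3 ^ f := by positivity
    -- the general construction
    have gen : ∀ Z' ⊆ p.1, ρ0 * #p.1 ≤ #Z' → ∀ y v : ℤ,
        ρ0 ^ (zs.length + 1) * CK (zs.length + 1) (3 ^ f) (Fin.cons (tz (3 ^ f) p.2 Z') τ :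
          Fin (zs.length + 1) → ℤ → ℝ) (fun x => ψ (y + 3 * x)) v ≤ av (p :: zs) ψ (y + 3 * v) := by
      intro Z' hZ' hρ y v
      have hZ'0 : (0 : ℝ) < #Z' := lt_of_lt_of_le (by positivity) hρ
      rw [CK_succ]
      simp only [Fin.cons_zero, Fin.cons_succ]
      have hper : Per (3 ^ f) (fun x => ψ (y + 3 * x)) := by
        intro x
        have e : y + 3 * (x + ((3 ^ f : ℕ) : ℤ)) = (y + 3 * x) + 3 * 3 ^ f * 1 := by
          push_cast; ring
        simp only [e, hψp]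
      have hper' := CK_per (K := zs.length) (π := τ) hper
      rw [T_tz hMo hper', av]
      have h7 : ∀ z ∈ Z', ρ0 ^ zs.length * CK zs.length (3 ^ f) τ (fun x => ψ (y + 3 * x))
          (v - 2 ^ p.2 * z) ≤ av zs ψ (y + 3 * v - 3 * 2 ^ p.2 * z) := by
        intro z _
        refine (h6 y (v - 2 ^ p.2 * z)).trans (le_of_eq ?_)
        congr 1; ring
      have h8 : ∑ z ∈ Z', ρ0 ^ zs.length * CK zs.length (3 ^ f) τ (fun x => ψ (y + 3 * x))
          (v - 2 ^ p.2 * z) ≤ ∑ z ∈ p.1, av zs ψ (y + 3 * v - 3 * 2 ^ p.2 * z) :=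
        (Finset.sum_le_sum h7).trans (Finset.sum_le_sum_of_subset_of_nonneg hZ'
          fun z _ _ => av_nonneg hψ _ _)
      rw [← Finset.mul_sum] at h8
      have h9 : 0 ≤ ρ0 ^ zs.length * ∑ z ∈ Z', CK zs.length (3 ^ f) τ (fun x => ψ (y + 3 * x))
          (v - 2 ^ p.2 * z) := by
        apply mul_nonneg (by positivity)
        exact Finset.sum_nonneg fun z _ => CK_nonneg h1 (fun x => hψ _) _
      have h10 : ρ0 * (#Z' : ℝ)⁻¹ ≤ (#p.1 : ℝ)⁻¹ := by
        rw [mul_inv_le_iff₀ hZ'0, le_inv_mul_iff₀ hp0]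
        linarith
      calc ρ0 ^ (zs.length + 1) * ((#Z' : ℝ)⁻¹ * ∑ z ∈ Z', CK zs.length (3 ^ f) τ
            (fun x => ψ (y + 3 * x)) (v - 2 ^ p.2 * z))
          = (ρ0 * (#Z' : ℝ)⁻¹) * (ρ0 ^ zs.length * ∑ z ∈ Z', CK zs.length (3 ^ f) τ
            (fun x => ψ (y + 3 * x)) (v - 2 ^ p.2 * z)) := by rw [pow_succ]; ring
        _ ≤ (#p.1 : ℝ)⁻¹ * (ρ0 ^ zs.length * ∑ z ∈ Z', CK zs.length (3 ^ f) τ
            (fun x => ψ (y + 3 * x)) (v - 2 ^ p.2 * z)) := mul_le_mul_of_nonneg_right h10 h9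
        _ ≤ _ := mul_le_mul_of_nonneg_left h8 (by positivity)
    have hmem0 : ∀ (Z' : Finset ℤ), (∀ x, 0 ≤ tz (3 ^ f) p.2 Z' x) := fun Z' x => tz_nonneg _ _ _ _
    by_cases hr : ρ0 * #p.1 ≤ #(richPart t (3 ^ f) p.1)
    · have hRne : (richPart t (3 ^ f) p.1).Nonempty := by
        rw [← Finset.card_pos]
        have : (0 : ℝ) < #(richPart t (3 ^ f) p.1) := lt_of_lt_of_le (by positivity) hr
        exact_mod_cast this
      refine ⟨Fin.cons (tz (3 ^ f) p.2 (richPart t (3 ^ f) p.1)) τ,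
        insert 0 (I.map (Fin.succEmb _)), ?_, ?_, ?_, ?_, ?_, ?_⟩
      · intro i
        refine Fin.cases ?_ (fun i => ?_) i
        · exact fun x => tz_nonneg _ _ _ _
        · exact h1 i
      · intro i
        refine Fin.cases ?_ (fun i => ?_) i
        · exact tz_per _ _ _
        · exact h2 i
      · intro i
        refine Fin.cases ?_ (fun i => ?_) i
        · exact mass_tz hMo hRne
        · exact h3 i
      · intro i
        refine Fin.cases ?_ (fun i => ?_) i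
        · intro _ x
          exact tz_rich_le ht hρ0 hp hr x
        · intro hi x
          simp only [Finset.mem_insert, Finset.mem_map] at hi
          rcases hi with hi | ⟨j, hj, hji⟩
          · exact absurd hi (Fin.succ_ne_zero i)
          · have : j = i := Fin.succ_injective _ hji
            rw [← this]
            exact h4 j hj x
      · rw [Finset.card_insert_of_notMem, Finset.card_map, rsum, List.length_cons]
        · have h7 : (#(richPart t (3 ^ f) p.1) : ℝ) / #p.1 ≤ 1 := by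
            rw [div_le_one hp0]
            exact_mod_cast Finset.card_filter_le _ _
          push_cast
          nlinarith
        · simp only [Finset.mem_map, not_exists, not_and]
          intro j _ h
          exact Fin.succ_ne_zero j h
      · exact gen _ (Finset.filter_subset _ _) hr
    · push Not at hr
      refine ⟨Fin.cons (tz (3 ^ f) p.2 p.1) τ, I.map (Fin.succEmb _), ?_, ?_, ?_, ?_, ?_, ?_⟩
      · intro i
        refine Fin.cases ?_ (fun i => ?_) i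
        · exact fun x => tz_nonneg _ _ _ _
        · exact h1 i
      · intro i
        refine Fin.cases ?_ (fun i => ?_) i
        · exact tz_per _ _ _
        · exact h2 i
      · intro i
        refine Fin.cases ?_ (fun i => ?_) i
        · exact mass_tz hMo hp
        · exact h3 i
      · intro i
        refine Fin.cases ?_ (fun i => ?_) i
        · intro hi
          simp only [Finset.mem_map] at hi
          obtain ⟨j, _, hj⟩ := hi
          exact absurd hj (Fin.succ_ne_zero j)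
        · intro hi x
          simp only [Finset.mem_map] at hi
          obtain ⟨j, hj, hji⟩ := hi
          have : j = i := Fin.succ_injective _ hji
          rw [← this]
          exact h4 j hj x
      · rw [Finset.card_map, rsum, List.length_cons]
        have h7 : (#(richPart t (3 ^ f) p.1) : ℝ) / #p.1 ≤ ρ0 := by
          rw [div_le_iff₀ hp0]
          exact hr.le
        push_cast
        nlinarith
      · apply gen _ subset_rfl
        nlinarith

end Pool.Agent.LqLow
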