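import Pool.Agent.LqLow.Greedy
import Pool.Agent.LqLow.Mix
import Pool.Agent.LqLow.Pop
import Pool.Agent.LqLow.Growth

open Finset

namespace Pool.Agent.LqLow

open Pool.Agent.LqFlat

namespace Sys

variable (s : Sys)

/-- greedy choice of the cuts -/
lemma exists_cuts {L t K m : ℕ} (hL : 24 ∣ L) (hL0 : 0 < L) (ht : t = 2 ^ (L / 12))
    (hm : 2 * K / (1 / (48 * s.n0) : ℝ) + 1 ≤ m) {x : ℤ} (hx : x % 3 ≠ 0) :
    ∃ ns : List ℕ, ns.length = K ∧ (∀ n ∈ ns, L ≤ n) ∧ ns.sum ≤ K * m ^ K * L ∧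
      (1 / (48 * s.n0) : ℝ) / 2 * K ≤ s.Rp t L ns 0 x := by
  have hn0 : (0 : ℝ) < s.n0 := by exact_mod_cast s.n0pos
  apply greedy (R := fun ns x' => s.Rp t L ns x' x)
    (f := fun ns n x' => s.E ns (s.fr t L n x') x) hL0 (by positivity) K m hm
  · intro x'
    simp [Rp]
  · intro ns n x' _ _
    exact s.Rp_append t L ns n x' x
  · intro ns n J _ _ hJ hJn
    rw [s.sum_E]
    apply s.le_E _ ns x hx
    intro z hz
    exact s.rich_avg hL hL0 ht hJ (by omega) hz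
  · intro ns x'
    exact s.Rp_nonneg t L ns x' x
  · intro ns x'
    exact s.Rp_le t L ns x' x

/-- Sections 4 and 5: many populations with small atoms -/
theorem select {L t K m : ℕ} (hL : 24 ∣ L) (hL0 : 0 < L) (ht : t = 2 ^ (L / 12)) (hK : 0 < K)
    (hm : 2 * K / (1 / (48 * s.n0) : ℝ) + 1 ≤ m) {x : ℤ} (hx : x % 3 ≠ 0) {V : ℝ} (hV : 0 < V)
    (hE : ∀ ns : List ℕ, ns.length = K → (∀ n ∈ ns, L ≤ n) → ns.sum ≤ K * m ^ K * L →
      s.E ns (s.nu L) x ≤ V) :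
    ∃ (τ : Fin K → ℤ → ℝ) (I : Finset (Fin K)) (y : ℤ), (∀ i x, 0 ≤ τ i x) ∧
      (∀ i, Per (3 ^ (s.n0 * L)) (τ i)) ∧ (∀ i, mass (3 ^ (s.n0 * L)) (τ i) = 1) ∧
      (∀ i ∈ I, ∀ x, τ i x ≤ 384 * s.n0 / t) ∧ (K : ℝ) ≤ 384 * s.n0 * #I ∧ y % 3 ≠ 0 ∧
      (1 / (384 * s.n0) : ℝ) ^ K * CK K (3 ^ (s.n0 * L)) τ (fun x => s.nu L (y + 3 * x)) 0
        ≤ 192 * s.n0 * V := by
  have hn0 : (0 : ℝ) < s.n0 := by exact_mod_cast s.n0pos
  have hn1 : (1 : ℝ) ≤ s.n0 := by exact_mod_cast s.n0pos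
  have hK0 : (0 : ℝ) < K := by exact_mod_cast hK
  obtain ⟨ns, h1, h2, h3, h4⟩ := s.exists_cuts (K := K) hL hL0 ht hm hx
  have h5 := hE ns h1 h2 h3
  set lam : ℝ := 192 * s.n0 * V / K with hlam
  have hlam0 : 0 < lam := by positivity
  have h6 : s.E ns (s.nu L) x - lam * s.Rp t L ns 0 x + V ≤ 0 := by
    have h7 := mul_le_mul_of_nonneg_left h4 hlam0.le
    have h8 : lam * ((1 / (48 * s.n0) : ℝ) / 2 * K) = 2 * V := by
      rw [hlam]; field_simp; ring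
    rw [h8] at h7
    linarith
  obtain ⟨zs, y, hlen, hne, hy, h7⟩ := s.mix ns x V (s.nu L) hx h6
  have hav := av_nonneg (fun z => s.nu_nonneg L z) zs y
  have hrle := rsum_le t (3 ^ (s.n0 * L)) zs
  have ht0 : 0 < t := by rw [ht]; positivity
  obtain ⟨τ, I, g1, g2, g3, g4, g5, g6⟩ := pop (t := t) (f := s.n0 * L) ht0
    (ρ0 := 1 / (384 * s.n0)) (by positivity) (by
      rw [div_le_one (by positivity)]; linarith) (fun z => s.nu_nonneg L z)
    (fun z k => s.nu_shift L z k) zs hne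
  have hlK : zs.length = K := hlen.trans h1
  have hlKr : (zs.length : ℝ) = K := by rw [hlK]
  rw [hlKr] at hrle g5
  rw [← hlK]
  refine ⟨τ, I, y, g1, g2, g3, ?_, ?_, hy, ?_⟩
  · intro i hi x
    refine (g4 i hi x).trans (le_of_eq ?_)
    field_simp
  · rw [hlKr]
    have h8 : V ≤ lam * rsum t (3 ^ (s.n0 * L)) zs := by linarith
    have h9 : (K : ℝ) / (192 * s.n0) ≤ rsum t (3 ^ (s.n0 * L)) zs := by
      rw [hlam] at h8
      rw [div_le_iff₀ (by positivity)]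
      have h10 : V * K ≤ V * (rsum t (3 ^ (s.n0 * L)) zs * (192 * s.n0)) := by
        rw [div_mul_eq_mul_div, le_div_iff₀ hK0] at h8
        linarith
      exact le_of_mul_le_mul_left h10 hV
    have h10 : (K : ℝ) / (384 * s.n0) ≤ #I := by
      have e1 : (K : ℝ) / (192 * s.n0) = K / (384 * s.n0) + 1 / (384 * s.n0) * K := by
        field_simp; ring
      rw [e1] at h9
      linarith
    rw [div_le_iff₀ (by positivity)] at h10
    linarith
  · have h8 := g6 y 0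
    rw [mul_zero, add_zero] at h8
    refine h8.trans ?_
    have h9 : lam * rsum t (3 ^ (s.n0 * L)) zs ≤ lam * K := mul_le_mul_of_nonneg_left hrle hlam0.le
    have h10 : lam * K = 192 * s.n0 * V := by rw [hlam]; field_simp
    linarith

end Sys

end Pool.Agent.LqLow
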