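import Pool.Agent.LqLow.Extr

open Finset

namespace Pool.Agent.LqLow

open Pool.Agent.LqFlat

lemma three_pow_exp (n : ℕ) : (3 : ℝ) ^ n = Real.exp (Real.log 3 * n) := by
  rw [mul_comm, ← Real.log_pow, Real.exp_log (by positivity)]

lemma log_three_le : Real.log 3 ≤ 8 / 5 * Real.log 2 := by
  have h : Real.log ((3 : ℝ) ^ 5) ≤ Real.log ((2 : ℝ) ^ 8) :=
    Real.log_le_log (by norm_num) (by norm_num)
  rw [Real.log_pow, Real.log_pow] at h
  push_cast at h
  linarith

lemma gb_arith {K k n0 g1 j I : ℕ} (hn0 : 0 < n0) (h1 : K ≤ 384 * n0 * I)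
    (h2 : 73728 * n0 ^ 2 ≤ g1) (h3 : 36864 * n0 ^ 2 * k ≤ K) :
    K * (2 * (48 * n0 * j)) + k * (48 * n0 * g1 * j) ≤ I * (g1 * j) := by
  have e1 : (73728 * n0 ^ 2) * (K * j) ≤ g1 * (K * j) := Nat.mul_le_mul_right _ h2
  have e2 : (36864 * n0 ^ 2 * k) * (g1 * j) ≤ K * (g1 * j) := Nat.mul_le_mul_right _ h3
  have e3 : K * (g1 * j) ≤ 384 * n0 * I * (g1 * j) := Nat.mul_le_mul_right _ h1
  have e4 : (768 * n0) * (K * (2 * (48 * n0 * j)) + k * (48 * n0 * g1 * j))
      ≤ (768 * n0) * (I * (g1 * j)) := by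
    calc (768 * n0) * (K * (2 * (48 * n0 * j)) + k * (48 * n0 * g1 * j))
        = (73728 * n0 ^ 2) * (K * j) + (36864 * n0 ^ 2 * k) * (g1 * j) := by ring
      _ ≤ g1 * (K * j) + K * (g1 * j) := Nat.add_le_add e1 e2
      _ = 2 * (K * (g1 * j)) := by ring
      _ ≤ 2 * (384 * n0 * I * (g1 * j)) := Nat.mul_le_mul_left _ e3
      _ = (768 * n0) * (I * (g1 * j)) := by ring
  exact Nat.le_of_mul_le_mul_left e4 (by positivity)

lemma atoms_exp {n0 w L : ℕ} (hL : L = 1152 * w) : √(384 * n0 / ((2 ^ (L / 12) : ℕ) : ℝ))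
    = √(384 * n0) * Real.exp (-(Real.log 2 * (48 * w))) := by
  have e2 : L / 12 = 48 * w * 2 := by rw [hL]; omega
  rw [e2, Real.sqrt_div (by positivity)]
  have e3 : √(((2 ^ (48 * w * 2) : ℕ) : ℝ)) = 2 ^ (48 * w) := by
    push_cast
    rw [pow_mul, Real.sqrt_sq (by positivity)]
  rw [e3, div_eq_mul_inv]
  congr 1
  rw [Real.exp_neg]
  congr 1
  have : Real.log 2 * (48 * w) = Real.log ((2 : ℝ) ^ (48 * w)) := by
    rw [Real.log_pow]; push_cast; ring
  rw [this, Real.exp_log (by positivity)]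

lemma sqrtP_exp (n0 d g1 j : ℕ) : √((3 : ℝ) ^ (n0 * (24 * d))) ^ (g1 * j)
    = Real.exp (Real.log 3 * (12 * (n0 * d * g1 * j : ℕ))) := by
  have e5 : n0 * (24 * d) = 12 * n0 * d * 2 := by ring
  rw [e5, pow_mul (3 : ℝ) (12 * n0 * d) 2, Real.sqrt_sq (by positivity), ← pow_mul,
    three_pow_exp]
  congr 2
  push_cast; ring

lemma cst_eq {A B : ℝ} (c : ℝ) (hA : 0 < A) (hB : 0 < B) (K : ℕ) :
    192 * c * (B⁻¹) ^ K / ((1 / A) ^ K * B / 2) = 384 * c * (B⁻¹) ^ (K + 1) * A ^ K := by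
  rw [div_eq_iff (by positivity)]
  have e1 : (1 / A) ^ K * A ^ K = 1 := by
    rw [← mul_pow, one_div, inv_mul_cancel₀ hA.ne', one_pow]
  have e2 : B⁻¹ * B = 1 := inv_mul_cancel₀ hB.ne'
  calc 192 * c * (B⁻¹) ^ K = 192 * c * (B⁻¹) ^ K * (B⁻¹ * B) * ((1 / A) ^ K * A ^ K) := by
        rw [e1, e2]; ring
    _ = _ := by rw [pow_succ]; ring

lemma exp_num {L w N : ℝ} (hL : L = 1152 * w) (hN : 200 * N ≤ L) (hw : 0 ≤ w) :
    L / 200 + (-(Real.log 2 * (48 * w)) + Real.log 3 * (12 * w) + Real.log 2 * N)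
      ≤ -(L / 120) := by
  have h11 := log_three_le
  have h12 := Real.log_two_gt_d9
  have h14 : Real.log 3 * (12 * w) ≤ 8 / 5 * Real.log 2 * (12 * w) :=
    mul_le_mul_of_nonneg_right h11 (by positivity)
  have h15 : Real.log 2 * N ≤ Real.log 2 * (L / 200) :=
    mul_le_mul_of_nonneg_left (by linarith) (by linarith)
  have h16 : (6931 / 10000 : ℝ) * w ≤ Real.log 2 * w :=
    mul_le_mul_of_nonneg_right (by linarith) hw
  rw [hL] at h15 ⊢
  nlinarith

namespace Sys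

variable (s : Sys)

/-- The uniformisation lemma with all constants: the lower bound for the convolution. -/
lemma uniformise {κ η α : ℝ} (hη : 0 < η) (hα : α = κ + s.n0 * Real.log 3 + η)
    {g1 d k : ℕ} (hg1 : 200 * (|κ| + η + 2) + 73728 * (s.n0 : ℝ) ^ 2 < g1)
    (hd : 9 ≤ d) (hD8 : Real.log 8 ≤ η / 4 * (24 * d : ℕ)) {U : ℝ}
    (hUe : U = Real.exp ((κ + η / 4 - s.n0 * Real.log 3) * (24 * d : ℕ)))
    (hU : ∀ z : ℤ, s.nu (24 * d) z ≤ U * s.g z)
    (hu1 : α * (24 * d : ℕ) ≤ s.u (24 * d))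
    (hu2 : s.u (24 * d) ≤ (α + η / (8 * g1)) * (24 * d : ℕ))
    (hk : (1 - (((3 : ℝ) ^ (s.n0 * (24 * d))) ^ 5)⁻¹) ^ k
      ≤ (1 / (4 * U * (3 ^ (s.n0 * (24 * d))) ^ 2)) ^ 2)
    {K : ℕ} (hK : 36864 * s.n0 ^ 2 * k + 1 ≤ K) {j : ℕ} (hj : 1 ≤ j)
    (hjK : 2 * K * √(384 * s.n0) ≤ j / 120) {L : ℕ} (hL : L = 24 * d * (48 * s.n0 * g1 * j))
    {τ : Fin K → ℤ → ℝ} {I : Finset (Fin K)} {y : ℤ} (hτ0 : ∀ i x, 0 ≤ τ i x)
    (hτp : ∀ i, Per (3 ^ (s.n0 * L)) (τ i)) (hτm : ∀ i, mass (3 ^ (s.n0 * L)) (τ i) = 1)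
    (hτa : ∀ i ∈ I, ∀ x, τ i x ≤ 384 * s.n0 / (2 ^ (L / 12) : ℕ))
    (hI : (K : ℝ) ≤ 384 * s.n0 * #I) (hy : y % 3 ≠ 0) :
    Real.exp (-α * L + 3 * η / (8 * g1) * L) * (s.gmin / 2)
      ≤ CK K (3 ^ (s.n0 * L)) τ (fun x => s.nu L (y + 3 * x)) 0 := by
  set D : ℕ := 24 * d with hD
  set N : ℕ := 48 * s.n0 * g1 * j with hN
  set G : ℕ := 48 * s.n0 * j with hG
  set l3 : ℝ := s.n0 * Real.log 3 with hl3
  have hn0 : 1 ≤ s.n0 := s.n0pos
  have hn0r : (1 : ℝ) ≤ s.n0 := by exact_mod_cast hn0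
  have hjr : (1 : ℝ) ≤ j := by exact_mod_cast hj
  have hg1r : (0 : ℝ) < g1 := by
    have : 0 ≤ |κ| := abs_nonneg κ
    have : 0 ≤ (s.n0 : ℝ) ^ 2 := sq_nonneg _
    linarith
  have hg1n : 0 < g1 := by exact_mod_cast hg1r
  have hK0 : 0 < K := by omega
  have hK0r : (0 : ℝ) < K := by exact_mod_cast hK0
  have hDr : (D : ℝ) = 24 * d := by rw [hD]; push_cast; ring
  have hdr : (9 : ℝ) ≤ d := by exact_mod_cast hd
  have hD0 : (0 : ℝ) < D := by rw [hDr]; linarith
  have hLr : (L : ℝ) = D * N := by rw [hL]; push_cast; ring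
  have hNr : (N : ℝ) = 48 * s.n0 * g1 * j := by rw [hN]; push_cast; ring
  have hGr : (G : ℝ) = 48 * s.n0 * j := by rw [hG]; push_cast; ring
  have hDG : (D : ℝ) * G = L / g1 := by
    rw [hLr, hGr, hNr]; field_simp
  have hU0 : 0 < U := by rw [hUe]; positivity
  set P : ℝ := (3 : ℝ) ^ (s.n0 * D) with hP
  have hPe : P = Real.exp (l3 * D) := by
    rw [hP, three_pow_exp, hl3]; congr 1; push_cast; ring
  have hP0 : 0 < P := by positivity
  set p : ℝ := 1 / (4 * U * P) with hp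
  set r : ℝ := 1 / (2 * P * s.M D) with hr
  have hM0 := s.M_pos D
  have hUP : 1 ≤ U * P := s.one_le_U hU
  have hp0 : 0 < p := by positivity
  have hp1 : p ≤ 1 := by
    rw [hp, div_le_one (by positivity)]
    have e : 4 * U * P = 4 * (U * P) := by ring
    rw [e]
    linarith
  have hUPe : U * P = Real.exp ((κ + η / 4) * D) := by
    rw [hUe, hPe, ← Real.exp_add]; congr 1; ring
  have hrp : Real.exp (η / 2 * D) ≤ r * p := by
    have e1 : r * p = Real.exp (s.u D - l3 * D - (κ + η / 4) * D) / 8 := by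
      have e2 : r * p = (P * (U * P) * s.M D)⁻¹ / 8 := by
        rw [hr, hp]; field_simp; ring
      rw [e2, hUPe, hPe, s.M_exp D, ← Real.exp_add, ← Real.exp_add, ← Real.exp_neg]
      congr 2; ring
    rw [e1, le_div_iff₀ (by norm_num)]
    have e8 : (8 : ℝ) = Real.exp (Real.log 8) := (Real.exp_log (by norm_num)).symm
    calc Real.exp (η / 2 * D) * 8 = Real.exp (η / 2 * D + Real.log 8) := by
          rw [Real.exp_add, ← e8]
      _ ≤ _ := by
          apply Real.exp_le_exp.2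
          rw [hα] at hu1
          have e9 : (κ + l3 + η) * D = κ * D + l3 * D + η * D := by ring
          have e10 : s.u D - l3 * D - (κ + η / 4) * D
            = s.u D - l3 * D - κ * D - η * D / 4 := by ring
          rw [e9] at hu1
          rw [e10]
          have e11 : η / 4 * D = η * D / 4 := by ring
          have e12 : η / 2 * D = η * D / 2 := by ring
          rw [e11] at hD8
          rw [e12]
          linarith
  have hrp1 : 1 ≤ r * p := by
    refine le_trans ?_ hrp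
    rw [← Real.exp_zero]
    apply Real.exp_le_exp.2
    positivity
  -- the recursion
  have hmod : 3 ^ (s.n0 * L) = (3 ^ (s.n0 * D)) ^ N := by
    rw [← pow_mul, hL]; congr 1; ring
  have hμ : (fun x : ℤ => s.nu L (y + 3 * x))
      = fun x : ℤ => s.nu (0 + D * N) (y + 3 * 3 ^ (s.n0 * 0) * x) := by
    ext x
    rw [zero_add, mul_zero, pow_zero, mul_one, hL]
  rw [hmod] at hτp hτm ⊢
  have hmass : mass ((3 ^ (s.n0 * D)) ^ N) (fun x : ℤ => s.nu L (y + 3 * x)) = s.g y := by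
    rw [hμ, s.mass_nu D N 0 y, s.nu_zero_eq]
  have hBd : Bd (s.n0 * D) (s.M D) U N (fun x : ℤ => s.nu L (y + 3 * x)) := by
    rw [hμ]; exact s.bd_nu hU N 0 y
  have hμp : Per ((3 ^ (s.n0 * D)) ^ N) (fun x : ℤ => s.nu L (y + 3 * x)) := by
    rw [← hmod]
    intro x
    have e : y + 3 * (x + ((3 ^ (s.n0 * L) : ℕ) : ℤ)) = (y + 3 * x) + 3 * 3 ^ (s.n0 * L) * 1 := by
      push_cast; ring
    show s.nu L (y + 3 * (x + ((3 ^ (s.n0 * L) : ℕ) : ℤ))) = _
    rw [e, s.nu_shift]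
  have hrec := lower_rec (K := K) (D := s.n0 * D) (k := k) (M := s.M D) (U := U) (p := p) (r := r)
    hM0 hU0 (by rw [hp]) hp1 (by rw [hr]) hrp1 hk N G τ
    (fun x : ℤ => s.nu L (y + 3 * x)) 0 hτ0 hτp (fun x => s.nu_nonneg L _) hμp hBd
  rw [hmass, Finset.prod_congr rfl (fun i _ => hτm i), Finset.prod_const_one] at hrec
  -- few good double steps
  have hGB : K * (2 * G) + k * N ≤ #I * (g1 * j) := by
    rw [hG, hN]
    apply gb_arith hn0
    · have h1 : (K : ℝ) ≤ ((384 * s.n0 * #I : ℕ) : ℝ) := by push_cast; exact hI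
      exact_mod_cast h1
    · have h1 : ((73728 * s.n0 ^ 2 : ℕ) : ℝ) ≤ g1 := by
        push_cast
        have : 0 ≤ |κ| := abs_nonneg κ
        linarith
      exact_mod_cast h1
    · exact (Nat.le_succ _).trans hK
  have hfew := few_le (k := k) (G := G) (B := g1 * j) hK0 hτ0 hτm I hτa hGB
  have hfew2 : (p⁻¹) ^ G * few (s.n0 * D) k N G τ ≤ 1 / 2 := by
    have hIK : (#I : ℝ) ≤ K := by
      have := Finset.card_le_univ I
      rw [Fintype.card_fin] at this
      exact_mod_cast this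
    set w : ℕ := s.n0 * d * g1 * j with hw
    have hLw : L = 1152 * w := by rw [hL, hN, hD, hw]; ring
    have hLwr : (L : ℝ) = 1152 * w := by rw [hLw]; push_cast; ring
    have e1 := atoms_exp (n0 := s.n0) hLw
    have e4 : √((3 : ℝ) ^ (s.n0 * D)) ^ (g1 * j) = Real.exp (Real.log 3 * (12 * w)) :=
      sqrtP_exp s.n0 d g1 j
    have e6 : (2 : ℝ) ^ N = Real.exp (Real.log 2 * N) := by
      rw [mul_comm, ← Real.log_pow, Real.exp_log (by positivity)]
    have hpe : (p⁻¹) ^ G ≤ Real.exp (L / 200) := by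
      have e7 : p⁻¹ = Real.exp (Real.log 4 + (κ + η / 4) * D) := by
        rw [hp, one_div, inv_inv, mul_assoc, hUPe, Real.exp_add, Real.exp_log (by norm_num)]
      rw [e7, ← Real.exp_nat_mul]
      apply Real.exp_le_exp.2
      have h1 : Real.log 4 ≤ D := by
        have : Real.log 4 ≤ 4 - 1 := Real.log_le_sub_one_of_pos (by norm_num)
        rw [hDr]; linarith
      have h2 : Real.log 4 + (κ + η / 4) * D ≤ (|κ| + η + 2) * D := by
        have h3 := mul_le_mul_of_nonneg_right (le_abs_self κ) hD0.le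
        have h4 : 0 ≤ η * D := by positivity
        have e8 : Real.log 4 + (κ + η / 4) * D = Real.log 4 + κ * D + η * D / 4 := by ring
        have e9 : (|κ| + η + 2) * D = |κ| * D + η * D + 2 * D := by ring
        rw [e8, e9]
        linarith
      have hG0 : (0 : ℝ) ≤ G := Nat.cast_nonneg _
      calc (G : ℝ) * (Real.log 4 + (κ + η / 4) * D) ≤ G * ((|κ| + η + 2) * D) :=
            mul_le_mul_of_nonneg_left h2 hG0
        _ = (|κ| + η + 2) * (L / g1) := by rw [← hDG]; ring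
        _ ≤ L / 200 := by
            rw [mul_div_assoc', div_le_div_iff₀ hg1r (by norm_num)]
            have h3 : 200 * (|κ| + η + 2) ≤ g1 := by
              have : 0 ≤ (s.n0 : ℝ) ^ 2 := sq_nonneg _
              linarith
            have hL0 : (0 : ℝ) ≤ L := Nat.cast_nonneg _
            have h4 := mul_le_mul_of_nonneg_left h3 hL0
            linarith
    have hfew0 : 0 ≤ few (s.n0 * D) k N G τ := by
      unfold few
      apply Finset.sum_nonneg
      intro x _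
      split_ifs
      · exact Finset.prod_nonneg fun i _ => hτ0 i _
      · exact le_rfl
    have hfew3 : few (s.n0 * D) k N G τ ≤ K * (√(384 * s.n0) *
        Real.exp (-(Real.log 2 * (48 * w)) + Real.log 3 * (12 * w) + Real.log 2 * N)) := by
      refine hfew.trans ?_
      rw [e1, e4, e6, Real.exp_add, Real.exp_add]
      calc (#I : ℝ) * (√(384 * s.n0) * Real.exp (-(Real.log 2 * (48 * w)))
            * Real.exp (Real.log 3 * (12 * w)) * Real.exp (Real.log 2 * N))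
          ≤ K * (√(384 * s.n0) * Real.exp (-(Real.log 2 * (48 * w)))
            * Real.exp (Real.log 3 * (12 * w)) * Real.exp (Real.log 2 * N)) :=
            mul_le_mul_of_nonneg_right hIK (by positivity)
        _ = _ := by ring
    have h10 : (p⁻¹) ^ G * few (s.n0 * D) k N G τ
        ≤ K * √(384 * s.n0) * Real.exp (-(L / 120)) := by
      calc (p⁻¹) ^ G * few (s.n0 * D) k N G τ
          ≤ Real.exp (L / 200) * (K * (√(384 * s.n0) *
            Real.exp (-(Real.log 2 * (48 * w)) + Real.log 3 * (12 * w) + Real.log 2 * N))) :=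
            mul_le_mul hpe hfew3 hfew0 (by positivity)
        _ = K * √(384 * s.n0) * Real.exp (L / 200 +
            (-(Real.log 2 * (48 * w)) + Real.log 3 * (12 * w) + Real.log 2 * N)) := by
            rw [Real.exp_add (L / 200 : ℝ)]; ring
        _ ≤ _ := by
            apply mul_le_mul_of_nonneg_left _ (by positivity)
            apply Real.exp_le_exp.2
            have hw0 : (0 : ℝ) ≤ w := Nat.cast_nonneg _
            have hNL : 200 * (N : ℝ) ≤ L := by
              rw [hLr, hDr]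
              have h20 : (200 : ℝ) ≤ 24 * d := by linarith
              exact mul_le_mul_of_nonneg_right h20 (Nat.cast_nonneg _)
            exact exp_num hLwr hNL hw0
    refine h10.trans ?_
    have h16 : (j : ℝ) ≤ L := by
      rw [hLr, hNr, hDr]
      have : (1 : ℝ) ≤ g1 := by exact_mod_cast hg1n
      have h17 : (1 : ℝ) ≤ 24 * d := by linarith
      have h18 : (1 : ℝ) ≤ 48 * s.n0 * g1 := by
        have h21 : (1 : ℝ) ≤ 48 * s.n0 := by linarith
        exact one_le_mul_of_one_le_of_one_le h21 this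
      calc (j : ℝ) = 1 * (1 * j) := by ring
        _ ≤ 24 * d * (48 * s.n0 * g1 * j) := by
            apply mul_le_mul h17 _ (by positivity) (by positivity)
            exact mul_le_mul_of_nonneg_right h18 (by positivity)
    have h19 : 2 * K * √(384 * s.n0) ≤ Real.exp (L / 120) := by
      have := Real.add_one_le_exp ((L : ℝ) / 120)
      have : (j : ℝ) / 120 ≤ L / 120 := by linarith
      linarith
    rw [Real.exp_neg, mul_inv_le_iff₀ (Real.exp_pos _)]
    linarith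
  -- conclusion
  have h20 : Real.exp (-α * L + 3 * η / (8 * g1) * L) ≤ s.M D ^ N * (r * p) ^ G := by
    have h21 : Real.exp (-((α + η / (8 * g1)) * L)) ≤ s.M D ^ N := by
      rw [s.M_exp D, ← Real.exp_nat_mul]
      apply Real.exp_le_exp.2
      have hN0 : (0 : ℝ) ≤ N := Nat.cast_nonneg _
      have := mul_le_mul_of_nonneg_left hu2 hN0
      rw [hLr]
      linarith
    have h22 : Real.exp (η / 2 * D * G) ≤ (r * p) ^ G := by
      have h23 := pow_le_pow_left₀ (Real.exp_pos _).le hrp G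
      rw [← Real.exp_nat_mul] at h23
      refine le_trans (le_of_eq ?_) h23
      congr 1; ring
    have h24 := mul_le_mul h21 h22 (Real.exp_pos _).le (pow_nonneg hM0.le _)
    rw [← Real.exp_add] at h24
    refine le_trans (Real.exp_le_exp.2 (le_of_eq ?_)) h24
    rw [mul_assoc (η / 2), hDG]
    field_simp
    ring
  have hgy := s.gmin_le hy
  have hgm := s.gmin_pos
  have h25 : s.gmin / 2 ≤ s.g y * (1 - (p⁻¹) ^ G * few (s.n0 * D) k N G τ) := by
    have h26 : (1 : ℝ) / 2 ≤ 1 - (p⁻¹) ^ G * few (s.n0 * D) k N G τ := by linarith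
    calc s.gmin / 2 = s.gmin * (1 / 2) := by ring
      _ ≤ _ := mul_le_mul hgy h26 (by norm_num) (by linarith)
  calc Real.exp (-α * L + 3 * η / (8 * g1) * L) * (s.gmin / 2)
      ≤ (s.M D ^ N * (r * p) ^ G) * (s.g y * (1 - (p⁻¹) ^ G * few (s.n0 * D) k N G τ)) :=
        mul_le_mul h20 h25 (by positivity) (by positivity)
    _ = s.M D ^ N * (r * p) ^ G * s.g y * (1 - (p⁻¹) ^ G * few (s.n0 * D) k N G τ) := by ring
    _ ≤ _ := hrec

/-- Theorem A, for the growth exponent -/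
lemma alpha_le {κ α : ℝ} (hup : ∀ ε : ℝ, 0 < ε → ∃ m0 : ℕ, ∀ m : ℕ, m0 ≤ m → ∀ z : ℤ,
      s.nu m z ≤ Real.exp ((κ + ε - s.n0 * Real.log 3) * m))
    (hα1 : ∀ n : ℕ, α * n ≤ s.u n)
    (hα2 : ∀ ε : ℝ, 0 < ε → ∃ n1 : ℕ, 1 ≤ n1 ∧ ∀ n : ℕ, n1 ≤ n → s.u n ≤ (α + ε) * n) :
    α ≤ κ + s.n0 * Real.log 3 := by
  by_contra hcon
  push Not at hcon
  set η : ℝ := α - κ - s.n0 * Real.log 3 with hηd
  have hη : 0 < η := by rw [hηd]; linarith
  have hα : α = κ + s.n0 * Real.log 3 + η := by rw [hηd]; ring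
  have hn0r : (1 : ℝ) ≤ s.n0 := by exact_mod_cast s.n0pos
  have hgm := s.gmin_pos
  -- the parameters `g1`, `d`
  obtain ⟨g1, hg1⟩ := exists_nat_gt (200 * (|κ| + η + 2) + 73728 * (s.n0 : ℝ) ^ 2)
  have hg1r : (0 : ℝ) < g1 := by
    have : 0 ≤ |κ| := abs_nonneg κ
    have : 0 ≤ (s.n0 : ℝ) ^ 2 := sq_nonneg _
    linarith
  obtain ⟨m0, hm0⟩ := hup (η / 8) (by positivity)
  obtain ⟨d1, _, hd1⟩ := hα2 (η / (8 * g1)) (by positivity)
  obtain ⟨D0, hD0⟩ := exists_nat_gt (8 * (-Real.log s.gmin) / η + 4 * Real.log 8 / η)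
  set d : ℕ := D0 + m0 + d1 + 9 with hd
  set D : ℕ := 24 * d with hD
  have hDD0 : (D0 : ℝ) ≤ D := by exact_mod_cast (by omega : D0 ≤ D)
  have hlg : 0 ≤ -Real.log s.gmin := by
    have := Real.log_nonpos hgm.le s.gmin_le_one
    linarith
  have hl8 : 0 ≤ Real.log 8 := Real.log_nonneg (by norm_num)
  have hDr : 8 * (-Real.log s.gmin) / η + 4 * Real.log 8 / η ≤ D := hD0.le.trans hDD0
  have hA1 : 8 * (-Real.log s.gmin) / η ≤ D := by
    have : 0 ≤ 4 * Real.log 8 / η := by positivity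
    linarith
  have hA2 : 4 * Real.log 8 / η ≤ D := by
    have : 0 ≤ 8 * (-Real.log s.gmin) / η := by positivity
    linarith
  rw [div_le_iff₀ hη] at hA1 hA2
  set U : ℝ := Real.exp ((κ + η / 4 - s.n0 * Real.log 3) * D) with hU
  have hUle : ∀ z : ℤ, s.nu D z ≤ U * s.g z := by
    intro z
    by_cases hz : z % 3 = 0
    · rw [s.g_zero hz, s.nu_nonunit hz, mul_zero]
    · refine (hm0 D (by omega) z).trans ?_
      have h1 : Real.exp ((κ + η / 8 - s.n0 * Real.log 3) * D) ≤ U * s.gmin := by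
        have e1 : s.gmin = Real.exp (Real.log s.gmin) := (Real.exp_log hgm).symm
        rw [hU, e1, ← Real.exp_add]
        apply Real.exp_le_exp.2
        have e2 : (κ + η / 8 - s.n0 * Real.log 3) * D
          = (κ + η / 4 - s.n0 * Real.log 3) * D - D * η / 8 := by ring
        rw [e2]
        linarith
      exact h1.trans (mul_le_mul_of_nonneg_left (s.gmin_le hz) (Real.exp_pos _).le)
  -- the number `k` of simultaneous branchings
  obtain ⟨k, hk⟩ : ∃ k : ℕ, (1 - (((3 : ℝ) ^ (s.n0 * D)) ^ 5)⁻¹) ^ k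
      < (1 / (4 * U * (3 ^ (s.n0 * D)) ^ 2)) ^ 2 := by
    apply exists_pow_lt_of_lt_one (by positivity)
    have : (0 : ℝ) < (((3 : ℝ) ^ (s.n0 * D)) ^ 5)⁻¹ := by positivity
    linarith
  set K : ℕ := 36864 * s.n0 ^ 2 * k + 1 with hK
  have hK0 : 0 < K := Nat.succ_pos _
  obtain ⟨m, hm⟩ := exists_nat_gt (2 * K / (1 / (48 * s.n0) : ℝ) + 1)
  set C1 : ℕ := K * m ^ K + 2 with hC1
  have hC1r : (0 : ℝ) < C1 := by exact_mod_cast (by omega : 0 < C1)
  set ε1 : ℝ := η / (16 * g1 * C1) with hε1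
  have hε0 : 0 < ε1 := by positivity
  obtain ⟨n1, _, hn1⟩ := hα2 ε1 hε0
  -- the constant
  set Cst : ℝ := 384 * s.n0 * (s.gmin⁻¹) ^ (K + 1) * (384 * s.n0) ^ K with hCst
  obtain ⟨j, hj⟩ := exists_nat_gt (n1 + 1 + 120 * (2 * K * √(384 * s.n0))
    + Cst * (16 * g1 / (5 * η)))
  have hCst0 : 0 ≤ Cst * (16 * g1 / (5 * η)) := by positivity
  have hS0 : 0 ≤ 120 * (2 * K * √(384 * s.n0)) := by positivity
  have hn1r : (0 : ℝ) ≤ n1 := Nat.cast_nonneg _
  have hjn : n1 + 1 ≤ j := by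
    have : ((n1 + 1 : ℕ) : ℝ) ≤ j := by push_cast; linarith
    exact_mod_cast this
  have hj1 : 1 ≤ j := by omega
  have hjK : 2 * K * √(384 * s.n0) ≤ (j : ℝ) / 120 := by
    rw [le_div_iff₀ (by norm_num)]; linarith
  set L : ℕ := 24 * d * (48 * s.n0 * g1 * j) with hL
  have hg1n : 0 < g1 := by exact_mod_cast hg1r
  have hjL : j ≤ L := by
    rw [hL, ← mul_assoc]
    apply Nat.le_mul_of_pos_left
    have := s.n0pos
    have : 0 < d := by omega
    positivity
  have hL0 : 0 < L := by omega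
  have hL24 : 24 ∣ L := by rw [hL, mul_assoc]; exact dvd_mul_right _ _
  have hLn1 : n1 ≤ L := by omega
  set T : ℕ := C1 * L with hT
  set V : ℝ := (s.gmin⁻¹) ^ K * Real.exp (-α * L + ε1 * T) with hV
  obtain ⟨τ, I, y, h1, h2, h3, h4, h5, h6, h7⟩ := s.select (K := K) (m := m) hL24 hL0 rfl hK0
    hm.le (s.x0_unit T) (V := V) (by positivity) (by
      intro ns e1 e2 e3
      have h8 := s.E_extremal (L := L) (T := T) hα1 hε0.le (fun n hn => hn1 n (by omega)) e2 (by
        rw [hT, hC1, add_mul]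
        omega)
      rw [e1] at h8
      exact h8)
  have h8 := s.uniformise hη hα hg1 (d := d) (k := k) (by omega) (by
      rw [← hD]
      linarith) (U := U) hU hUle (hα1 D) (hd1 D (by omega)) hk.le (K := K) le_rfl hj1 hjK hL
    h1 h2 h3 h4 h5 h6
  set CKv := CK K (3 ^ (s.n0 * L)) τ (fun x => s.nu L (y + 3 * x)) 0 with hCK
  have hpw : (0 : ℝ) < (1 / (384 * s.n0)) ^ K := by positivity
  have h9 := (mul_le_mul_of_nonneg_left h8 hpw.le).trans h7
  -- contradiction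
  have hTr : ε1 * T = η / (16 * g1) * L := by
    rw [hε1, hT]; push_cast; field_simp
  rw [hV, hTr] at h9
  have h10 : Real.exp (5 * η / (16 * g1) * L) ≤ Cst := by
    have e1 : Real.exp (-α * L + 3 * η / (8 * g1) * L)
        = Real.exp (-α * L + η / (16 * g1) * L) * Real.exp (5 * η / (16 * g1) * L) := by
      rw [← Real.exp_add]; congr 1; field_simp; ring
    rw [e1] at h9
    set X := Real.exp (-α * L + η / (16 * g1) * L) with hX
    set Y := Real.exp (5 * η / (16 * g1) * L) with hY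
    have hX0 : 0 < X := Real.exp_pos _
    have e2 : (1 / (384 * (s.n0 : ℝ))) ^ K * (X * Y * (s.gmin / 2))
        = X * ((1 / (384 * (s.n0 : ℝ))) ^ K * s.gmin / 2 * Y) := by ring
    have e3 : 192 * (s.n0 : ℝ) * ((s.gmin⁻¹) ^ K * X)
        = X * (192 * (s.n0 : ℝ) * (s.gmin⁻¹) ^ K) := by ring
    rw [e2, e3] at h9
    have h11 := le_of_mul_le_mul_left h9 hX0
    rw [← le_div_iff₀' (by positivity)] at h11
    refine h11.trans (le_of_eq ?_)
    rw [hCst]
    exact cst_eq (s.n0 : ℝ) (by positivity) hgm K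
  have h11 := Real.add_one_le_exp (5 * η / (16 * g1) * L)
  have h12 : Cst < 5 * η / (16 * g1) * L := by
    have h13 : Cst * (16 * g1 / (5 * η)) < j := by linarith
    have h14 : (j : ℝ) ≤ L := by exact_mod_cast hjL
    have h15 : Cst * (16 * g1 / (5 * η)) < L := lt_of_lt_of_le h13 h14
    have h16 : Cst * (16 * g1 / (5 * η)) = Cst * (16 * g1) / (5 * η) := by ring
    rw [h16, div_lt_iff₀ (by positivity)] at h15
    rw [div_mul_eq_mul_div, lt_div_iff₀ (by positivity)]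
    linarith
  linarith

/-- Theorem A -/
theorem thmA (κ : ℝ) (hup : ∀ ε : ℝ, 0 < ε → ∃ m0 : ℕ, ∀ m : ℕ, m0 ≤ m → ∀ z : ℤ,
      s.nu m z ≤ Real.exp ((κ + ε - s.n0 * Real.log 3) * m)) :
    ∀ ε : ℝ, 0 < ε → ∃ m0 : ℕ, ∀ m : ℕ, m0 ≤ m → ∀ z : ℤ, z % 3 ≠ 0 →
      Real.exp (-(κ + ε + s.n0 * Real.log 3) * m) ≤ s.nu m z := by
  intro ε hε
  obtain ⟨α, hα1, hα2⟩ := s.exists_alpha
  have hα := s.alpha_le hup hα1 hα2
  obtain ⟨n1, _, hn1⟩ := hα2 (ε / 2) (by positivity)
  obtain ⟨n2, hn2⟩ := exists_nat_gt (-Real.log s.gmin / (ε / 2))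
  refine ⟨max n1 n2, fun m hm z hz => ?_⟩
  have h1 := hn1 m ((le_max_left _ _).trans hm)
  have h2 : (n2 : ℝ) ≤ m := by exact_mod_cast (le_max_right _ _).trans hm
  have h3 : -Real.log s.gmin / (ε / 2) < m := lt_of_lt_of_le hn2 h2
  rw [div_lt_iff₀ (by positivity)] at h3
  have hgm := s.gmin_pos
  have h4 : s.gmin * s.M m ≤ s.nu m z := by
    refine le_trans ?_ (s.M_le m z)
    rw [mul_comm]
    exact mul_le_mul_of_nonneg_left (s.gmin_le hz) (s.M_pos m).le
  refine le_trans ?_ h4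
  have e1 : s.gmin = Real.exp (Real.log s.gmin) := (Real.exp_log hgm).symm
  rw [s.M_exp m, e1, ← Real.exp_add]
  apply Real.exp_le_exp.2
  have hm0 : (0 : ℝ) ≤ m := Nat.cast_nonneg _
  have h5 := mul_le_mul_of_nonneg_right hα hm0
  have e2 : -(κ + ε + s.n0 * Real.log 3) * m
      = -((κ + s.n0 * Real.log 3) * m) - ε / 2 * m - ε / 2 * m := by ring
  have e3 : (α + ε / 2) * m = α * m + ε / 2 * m := by ring
  rw [e2]
  rw [e3] at h1
  linarith

end Sys

end Pool.Agent.LqLow
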